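import Mathlib
import Pool.Agent.Lib.MP_291c47_an.TK.Defs

section

/-!
# TASK TK AL: real powers (pure algebra)

`N = N₁N₂N₃ ≥ 1`, `M = m₁m₂m₃ ≥ 1`, `r = q/3`, `a = 1/p`. Tools: `Real.rpow_add`, `Real.rpow_mul`, `Real.mul_rpow`, `Real.rpow_le_rpow_of_exponent_le`, `Real.rpow_le_rpow_of_exponent_ge`.
-/

namespace Pool.Agent.Lib.MP_291c47_an.TK

private theorem AL_ex {x : ℝ} (h : 0 < x) : ∃ y, x = Real.exp y := ⟨Real.log x, (Real.exp_log h).symm⟩

private theorem AL_ge {y : ℝ} (h : 1 ≤ Real.exp y) : 0 ≤ y := by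
  rw [← Real.exp_zero] at h
  exact Real.exp_le_exp.mp h

/-- `4/9 ≤ r < 1/2`.
PROOF. The left side is `C^(1/r) δ^(E/r) N^(F/r) M^((1-2r)/r)` with `E = (4-ε)(18r-8) + (11/3-ε)(9-18r) = 6r + 1 - ε`, `F = (18r-8)/2 + (9-18r)/3 = 3r - 1`,
i.e. `C^(1/r) δ^(6 + 1/r - ε/r) N^(3 - 1/r) M^(1/r - 2)`. `N^(3-1/r) = N^a N^(3-1/r-a) ≤ N^a (P δ^(-9))^(3-1/r-a)`, `M^(1/r-2) = (δ^6 M)^(1/r-2) δ^(-6(1/r-2))`
`≤ (max 1 (δ^6 M))^(1/r-2) δ^(-6(1/r-2))`. The exponent of `δ`: `6 + 1/r - ε/r - 27 + 9/r + 9a - 6/r + 12 = 4/r - 9(1-a) - ε/r`, and `δ^(-ε/r) ≤ δ^(-3ε)` as `1/r ≤ 9/4`.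
`C^(1/r) ≤ C^(9/4)`, `P^(3-1/r-a) ≤ P^3`. -/
theorem alg_low {δ N M r a ε C P : ℝ} (hδ : 0 < δ) (hδ1 : δ < 1) (hN : 1 ≤ N) (hM : 1 ≤ M) (hr : 4 / 9 ≤ r)
    (hr2 : r < 1 / 2) (ha0 : 0 ≤ a) (ha : a ≤ 3 - 1 / r) (hε : 0 < ε) (hC : 1 ≤ C) (hP : 1 ≤ P)
    (hNP : N ≤ P * δ ^ (-9 : ℝ)) :
    ((C * δ ^ (4 - ε) * N ^ (1 / 2 : ℝ)) ^ (18 * r - 8) *
        (C * δ ^ (11 / 3 - ε) * (N ^ (1 / 3 : ℝ) * M ^ (1 / 9 : ℝ))) ^ (9 - 18 * r)) ^ (1 / r)
      ≤ C ^ (9 / 4 : ℝ) * P ^ 3 * δ ^ (4 / r - 9 * (1 - a) - 3 * ε) * N ^ a *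
        (max 1 (δ ^ 6 * M)) ^ (1 / r - 2) := by
  have hX1 : (1 : ℝ) ≤ max 1 (δ ^ 6 * M) := le_max_left _ _
  have hX2 : δ ^ 6 * M ≤ max 1 (δ ^ 6 * M) := le_max_right _ _
  generalize max 1 (δ ^ 6 * M) = X at hX1 hX2 ⊢
  obtain ⟨y, rfl⟩ := AL_ex hδ
  obtain ⟨n, rfl⟩ := AL_ex (lt_of_lt_of_le one_pos hN)
  obtain ⟨m, rfl⟩ := AL_ex (lt_of_lt_of_le one_pos hM)
  obtain ⟨c, rfl⟩ := AL_ex (lt_of_lt_of_le one_pos hC)
  obtain ⟨q, rfl⟩ := AL_ex (lt_of_lt_of_le one_pos hP)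
  obtain ⟨x, rfl⟩ := AL_ex (lt_of_lt_of_le one_pos hX1)
  have hy : y < 0 := by
    rw [← Real.exp_zero] at hδ1
    exact Real.exp_lt_exp.mp hδ1
  have hn := AL_ge hN
  have hm := AL_ge hM
  have hc := AL_ge hC
  have hq := AL_ge hP
  have hx := AL_ge hX1
  have hnp : n ≤ q - 9 * y := by
    have h := hNP
    rw [← Real.exp_mul, ← Real.exp_add] at h
    have := Real.exp_le_exp.mp h
    linarith
  have hx2 : 6 * y + m ≤ x := by
    have h := hX2
    rw [← Real.exp_nat_mul, ← Real.exp_add] at h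
    have := Real.exp_le_exp.mp h
    push_cast at this
    exact this
  have hr0 : 0 < r := by linarith
  have hu1 : 1 / r ≤ 9 / 4 := by
    rw [div_le_div_iff₀ hr0 (by norm_num)]
    linarith
  have hu2 : 2 ≤ 1 / r := by
    rw [le_div_iff₀ hr0]
    linarith
  simp only [← Real.exp_mul, ← Real.exp_add, ← Real.exp_nat_mul]
  refine Real.exp_le_exp.mpr ?_
  push_cast
  have e1 : ((c + y * (4 - ε) + n * (1 / 2)) * (18 * r - 8) +
      (c + y * (11 / 3 - ε) + (n * (1 / 3) + m * (1 / 9))) * (9 - 18 * r)) * (1 / r) =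
      c * (1 / r) + y * (6 + 1 / r - ε * (1 / r)) + (3 - 1 / r) * n + (1 / r - 2) * m := by
    field_simp
    ring
  rw [e1]
  have e2 : 4 / r = 4 * (1 / r) := by ring
  rw [e2]
  generalize 1 / r = u at *
  have t1 := mul_nonneg (sub_nonneg.mpr hu1) hc
  have t2 := mul_nonneg (sub_nonneg.mpr ha) (sub_nonneg.mpr hnp)
  have t3 := mul_nonneg (sub_nonneg.mpr hu2) (sub_nonneg.mpr hx2)
  have t4 : 0 ≤ (3 - u) * (ε * (-y)) :=
    mul_nonneg (by linarith) (mul_nonneg hε.le (by linarith))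
  have t5 : 0 ≤ (a + u) * q := mul_nonneg (by linarith) hq
  nlinarith [t1, t2, t3, t4, t5]

/-- `r ≥ 1/2`.
PROOF. The left side is `C^(1/r) δ^((4-ε)/r) N`, `N = N^a N^(1-a) ≤ N^a (P δ^(-9))^(1-a)`, `C^(1/r) ≤ C^2`, `δ^(-ε/r) ≤ δ^(-3ε)`, `P^(1-a) ≤ P`. -/
theorem alg_high {δ N r a ε C P : ℝ} (hδ : 0 < δ) (hδ1 : δ < 1) (hN : 1 ≤ N) (hr : 1 / 2 ≤ r) (ha0 : 0 ≤ a)
    (ha : a ≤ 1) (hε : 0 < ε) (hC : 1 ≤ C) (hP : 1 ≤ P) (hNP : N ≤ P * δ ^ (-9 : ℝ)) :
    (N ^ (r - 1 / 2) * (C * δ ^ (4 - ε) * N ^ (1 / 2 : ℝ))) ^ (1 / r)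
      ≤ C ^ 2 * P * δ ^ (4 / r - 9 * (1 - a) - 3 * ε) * N ^ a := by
  obtain ⟨y, rfl⟩ := AL_ex hδ
  obtain ⟨n, rfl⟩ := AL_ex (lt_of_lt_of_le one_pos hN)
  obtain ⟨c, rfl⟩ := AL_ex (lt_of_lt_of_le one_pos hC)
  obtain ⟨q, rfl⟩ := AL_ex (lt_of_lt_of_le one_pos hP)
  have hy : y < 0 := by
    rw [← Real.exp_zero] at hδ1
    exact Real.exp_lt_exp.mp hδ1
  have hn := AL_ge hN
  have hc := AL_ge hC
  have hq := AL_ge hP
  have hnp : n ≤ q - 9 * y := by
    have h := hNP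
    rw [← Real.exp_mul, ← Real.exp_add] at h
    have := Real.exp_le_exp.mp h
    linarith
  have hr0 : 0 < r := by linarith
  have hu1 : 1 / r ≤ 2 := by
    rw [div_le_iff₀ hr0]
    linarith
  simp only [← Real.exp_mul, ← Real.exp_add, ← Real.exp_nat_mul]
  refine Real.exp_le_exp.mpr ?_
  push_cast
  have e1 : (n * (r - 1 / 2) + (c + y * (4 - ε) + n * (1 / 2))) * (1 / r) =
      n + c * (1 / r) + y * ((4 - ε) * (1 / r)) := by
    field_simp
    ring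
  rw [e1]
  have e2 : 4 / r = 4 * (1 / r) := by ring
  rw [e2]
  generalize 1 / r = u at *
  have t1 := mul_nonneg (sub_nonneg.mpr hu1) hc
  have t2 := mul_nonneg (sub_nonneg.mpr ha) (sub_nonneg.mpr hnp)
  have t4 : 0 ≤ (3 - u) * (ε * (-y)) :=
    mul_nonneg (by linarith) (mul_nonneg hε.le (by linarith))
  have t5 : 0 ≤ a * q := mul_nonneg ha0 hq
  nlinarith [t1, t2, t4, t5]

/-- Large `δ`.
PROOF. `N ≤ P δ^(-9) ≤ P δ₀^(-9)`, so the left side is `≤ (P δ₀^(-9))^(9/4)`; on the right `N^a ≥ 1`, the maximum is `≥ 1`, and `δ^E ≥ δ₀^9` for every `E ≤ 9` (if `E ≥ 0`: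
`δ^E ≥ δ₀^E ≥ δ₀^9`; if `E < 0`: `δ^E ≥ 1 ≥ δ₀^9`). -/
theorem alg_triv {δ δ₀ N M a E x P : ℝ} (hδ₀ : 0 < δ₀) (hδ : δ₀ ≤ δ) (hδ1 : δ < 1) (hN : 1 ≤ N) (ha0 : 0 ≤ a)
    (hE : E ≤ 9) (hP : 1 ≤ P) (hNP : N ≤ P * δ ^ (-9 : ℝ)) (hx : 0 ≤ x) :
    N ^ (9 / 4 : ℝ) ≤ ((P * δ₀ ^ (-9 : ℝ)) ^ (9 / 4 : ℝ) * δ₀ ^ (-9 : ℝ)) * δ ^ E * N ^ a * (max 1 M) ^ x := by
  have hX1 : (1 : ℝ) ≤ max 1 M := le_max_left _ _
  generalize max 1 M = X at hX1 ⊢
  have hδp : 0 < δ := lt_of_lt_of_le hδ₀ hδ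
  obtain ⟨z, rfl⟩ := AL_ex hδ₀
  obtain ⟨y, rfl⟩ := AL_ex hδp
  obtain ⟨n, rfl⟩ := AL_ex (lt_of_lt_of_le one_pos hN)
  obtain ⟨q, rfl⟩ := AL_ex (lt_of_lt_of_le one_pos hP)
  obtain ⟨w, rfl⟩ := AL_ex (lt_of_lt_of_le one_pos hX1)
  have hzy : z ≤ y := Real.exp_le_exp.mp hδ
  have hy : y < 0 := by
    rw [← Real.exp_zero] at hδ1
    exact Real.exp_lt_exp.mp hδ1
  have hn := AL_ge hN
  have hq := AL_ge hP
  have hw := AL_ge hX1
  have hnp : n ≤ q - 9 * y := by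
    have h := hNP
    rw [← Real.exp_mul, ← Real.exp_add] at h
    have := Real.exp_le_exp.mp h
    linarith
  simp only [← Real.exp_mul, ← Real.exp_add]
  refine Real.exp_le_exp.mpr ?_
  have t1 : 0 ≤ (9 - E) * (-y) := mul_nonneg (by linarith) (by linarith)
  have t2 : 0 ≤ n * a := mul_nonneg hn ha0
  have t3 : 0 ≤ w * x := mul_nonneg hw hx
  nlinarith [t1, t2, t3]

end Pool.Agent.Lib.MP_291c47_an.TK
end

section

/-!
# TASK TK SL: slices of `Fin 3 → ℝ`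

Tools: `MeasureTheory.volume_preserving_piFinSuccAbove (fun _ : Fin 3 => ℝ) j` (measure preserving equivalence
`(Fin 3 → ℝ) ≃ᵐ ℝ × (Fin 2 → ℝ)`, inverse = `Fin.insertNth j`), `MeasurePreserving.lintegral_comp`, `lintegral_prod`,
`volume_preserving_finTwoArrow ℝ`, `closedBall_pi`, `Real.volume_pi_closedBall`.
-/

open scoped ENNReal NNReal BigOperators
open MeasureTheory Metric

namespace Pool.Agent.Lib.MP_291c47_an.TK

/-- Fubini along coordinate `j`.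
PROOF. `MeasurableEquiv.piFinSuccAbove (fun _ => ℝ) j` preserves the measure and its inverse is `(s, y) ↦ j.insertNth s y`;
then `lintegral_prod`. -/
theorem lintegral_slice (j : Fin 3) (f : (Fin 3 → ℝ) → ℝ≥0∞) (hf : Measurable f) :
    ∫⁻ x, f x = ∫⁻ s : ℝ, ∫⁻ y : Fin 2 → ℝ, f (j.insertNth s y) := by
  have h := (volume_preserving_piFinSuccAbove (fun _ : Fin 3 => ℝ) j).symm
  have hm : Measurable fun p : ℝ × (Fin 2 → ℝ) =>
      f ((MeasurableEquiv.piFinSuccAbove (fun _ : Fin 3 => ℝ) j).symm p) := hf.comp h.measurable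
  rw [← h.lintegral_comp hf, Measure.volume_eq_prod, lintegral_prod _ hm.aemeasurable]
  rfl

/-- Fubini with three variables.
PROOF. `lintegral_slice 0`, then `volume_preserving_finTwoArrow` and `lintegral_prod`; `(0 : Fin 3).insertNth a ![b, c] = ![a, b, c]`. -/
theorem lintegral_fin3 (f : (Fin 3 → ℝ) → ℝ≥0∞) (hf : Measurable f) :
    ∫⁻ x, f x = ∫⁻ a : ℝ, ∫⁻ b : ℝ, ∫⁻ c : ℝ, f ![a, b, c] := by
  rw [lintegral_slice 0 f hf]
  refine lintegral_congr fun a => ?_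
  have h := (volume_preserving_finTwoArrow ℝ).symm
  have hg : Measurable fun y : Fin 2 → ℝ => f ((0 : Fin 3).insertNth a y) := by
    apply hf.comp
    apply measurable_pi_iff.2
    intro i
    refine Fin.cases ?_ (fun l => ?_) i
    · simp only [Fin.insertNth_zero, Fin.cons_zero]
      exact measurable_const
    · simp only [Fin.insertNth_zero, Fin.cons_succ]
      exact measurable_pi_apply l
  have hm : Measurable fun p : ℝ × ℝ =>
      f ((0 : Fin 3).insertNth a ((MeasurableEquiv.finTwoArrow (α := ℝ)).symm p)) :=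
    hg.comp h.measurable
  rw [← h.lintegral_comp hg, Measure.volume_eq_prod, lintegral_prod _ hm.aemeasurable]
  refine lintegral_congr fun b => lintegral_congr fun c => ?_
  congr 1
  ext i
  fin_cases i <;> rfl

/-- The tubes are closed (so measurable).
PROOF. Finite intersection of closed sets `{x | |x k - b k - v k * x j| ≤ w}`. -/
theorem isClosed_T3 (j : Fin 3) (b v : Fin 3 → ℝ) (w : ℝ) : IsClosed (T3 j b v w) := by
  have h : T3 j b v w = ⋂ k, ⋂ (_ : k ≠ j), {x : Fin 3 → ℝ | |x k - b k - v k * x j| ≤ w} := by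
    ext x
    simp [T3]
  rw [h]
  refine isClosed_iInter fun k => isClosed_iInter fun _ => ?_
  exact isClosed_le (by fun_prop) continuous_const

theorem measurable_cnt {ι : Type} [Fintype ι] (j : Fin 3) (b v : ι → Fin 3 → ℝ) (w : ℝ) :
    Measurable (cnt j b v w) := by
  unfold cnt
  exact Finset.measurable_fun_sum _ fun i _ =>
    measurable_const.indicator (isClosed_T3 j (b i) (v i) w).measurableSet

/-- The slice of a tube is a square of side `2w`.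
PROOF. `{y | ∀ k ≠ j, |(insertNth j s y) k - b k - v k * s| ≤ w}`: the indices `k ≠ j` are the `j.succAbove l`, `l : Fin 2`, so this is
`closedBall (fun l => b (j.succAbove l) + v (j.succAbove l) * s) w` in `Fin 2 → ℝ`; `Real.volume_pi_closedBall`. -/
theorem volume_slice (j : Fin 3) (b v : Fin 3 → ℝ) {w : ℝ} (hw : 0 ≤ w) (s : ℝ) :
    volume {y : Fin 2 → ℝ | (j.insertNth s y : Fin 3 → ℝ) ∈ T3 j b v w} = ENNReal.ofReal (2 * w) ^ 2 := by
  have h : {y : Fin 2 → ℝ | (j.insertNth s y : Fin 3 → ℝ) ∈ T3 j b v w} =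
      closedBall (fun l => b (j.succAbove l) + v (j.succAbove l) * s) w := by
    ext y
    simp only [Set.mem_ofPred_eq, T3, mem_closedBall]
    rw [dist_pi_le_iff hw]
    constructor
    · intro hy l
      have h1 := hy (j.succAbove l) (Fin.succAbove_ne j l)
      rw [Fin.insertNth_apply_succAbove, Fin.insertNth_apply_same] at h1
      rw [Real.dist_eq, show y l - (b (j.succAbove l) + v (j.succAbove l) * s) =
        y l - b (j.succAbove l) - v (j.succAbove l) * s by ring]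
      exact h1
    · intro hy k hk
      obtain ⟨l, rfl⟩ := Fin.exists_succAbove_eq hk
      have h1 := hy l
      rw [Real.dist_eq, show y l - (b (j.succAbove l) + v (j.succAbove l) * s) =
        y l - b (j.succAbove l) - v (j.succAbove l) * s by ring] at h1
      rw [Fin.insertNth_apply_succAbove, Fin.insertNth_apply_same]
      exact h1
  rw [h, Real.volume_pi_closedBall _ hw, Fintype.card_fin, ENNReal.ofReal_pow (by positivity)]

/-- Integral of a function of `x j` over a tube in the unit ball.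
PROOF. `lintegral_slice j` for the function `indicator (closedBall 0 1 ∩ T3) (fun x => k (x j))`: it is at most
`indicator (Icc (-1) 1) k s * indicator {y | insertNth j s y ∈ T3} 1 y` (as `|x j| ≤ ‖x‖ ≤ 1`), then `volume_slice`. -/
theorem tube_slice (j : Fin 3) (b v : Fin 3 → ℝ) {w : ℝ} (hw : 0 ≤ w) (k : ℝ → ℝ≥0∞) (hk : Measurable k) :
    ∫⁻ x in closedBall (0 : Fin 3 → ℝ) 1, (T3 j b v w).indicator (fun _ => (1 : ℝ≥0∞)) x * k (x j)
      ≤ ENNReal.ofReal (2 * w) ^ 2 * ∫⁻ s in Set.Icc (-1 : ℝ) 1, k s := by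
  have hT : Measurable ((T3 j b v w).indicator (fun _ => (1 : ℝ≥0∞))) :=
    measurable_const.indicator (isClosed_T3 j b v w).measurableSet
  have hF : Measurable fun x : Fin 3 → ℝ =>
      (T3 j b v w).indicator (fun _ => (1 : ℝ≥0∞)) x * k (x j) :=
    hT.mul (hk.comp (measurable_pi_apply j))
  have hF' : Measurable ((closedBall (0 : Fin 3 → ℝ) 1).indicator fun x : Fin 3 → ℝ =>
      (T3 j b v w).indicator (fun _ => (1 : ℝ≥0∞)) x * k (x j)) :=
    hF.indicator isClosed_closedBall.measurableSet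
  rw [← lintegral_indicator isClosed_closedBall.measurableSet, lintegral_slice j _ hF',
    ← lintegral_indicator measurableSet_Icc, ← lintegral_const_mul _ (hk.indicator measurableSet_Icc)]
  refine lintegral_mono fun s => ?_
  have hm : Measurable fun y : Fin 2 → ℝ => (j.insertNth s y : Fin 3 → ℝ) := by
    apply measurable_pi_iff.2
    intro i
    by_cases hi : i = j
    · subst hi
      simp only [Fin.insertNth_apply_same]
      exact measurable_const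
    · obtain ⟨l, rfl⟩ := Fin.exists_succAbove_eq hi
      simp only [Fin.insertNth_apply_succAbove]
      exact measurable_pi_apply l
  have hset : MeasurableSet {y : Fin 2 → ℝ | (j.insertNth s y : Fin 3 → ℝ) ∈ T3 j b v w} :=
    hm (isClosed_T3 j b v w).measurableSet
  calc ∫⁻ y : Fin 2 → ℝ, (closedBall (0 : Fin 3 → ℝ) 1).indicator (fun x : Fin 3 → ℝ =>
        (T3 j b v w).indicator (fun _ => (1 : ℝ≥0∞)) x * k (x j)) (j.insertNth s y)
      ≤ ∫⁻ y : Fin 2 → ℝ, (Set.Icc (-1 : ℝ) 1).indicator k s *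
          {y : Fin 2 → ℝ | (j.insertNth s y : Fin 3 → ℝ) ∈ T3 j b v w}.indicator
            (fun _ => (1 : ℝ≥0∞)) y := by
        refine lintegral_mono fun y => ?_
        by_cases hx : (j.insertNth s y : Fin 3 → ℝ) ∈ closedBall (0 : Fin 3 → ℝ) 1
        · rw [Set.indicator_of_mem hx]
          have hs : s ∈ Set.Icc (-1 : ℝ) 1 := by
            rw [mem_closedBall, dist_zero_right] at hx
            have h1 := (norm_le_pi_norm (j.insertNth s y : Fin 3 → ℝ) j).trans hx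
            rw [Fin.insertNth_apply_same, Real.norm_eq_abs] at h1
            exact abs_le.1 h1
          rw [Set.indicator_of_mem hs, Fin.insertNth_apply_same, mul_comm]
          refine le_of_eq ?_
          congr 1
        · rw [Set.indicator_of_notMem hx]
          exact zero_le
    _ = (Set.Icc (-1 : ℝ) 1).indicator k s *
          volume {y : Fin 2 → ℝ | (j.insertNth s y : Fin 3 → ℝ) ∈ T3 j b v w} := by
        rw [lintegral_const_mul _ (measurable_const.indicator hset), lintegral_indicator hset,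
          lintegral_one, Measure.restrict_apply_univ]
    _ = ENNReal.ofReal (2 * w) ^ 2 * (Set.Icc (-1 : ℝ) 1).indicator k s := by
        rw [volume_slice j b v hw s, mul_comm]

end Pool.Agent.Lib.MP_291c47_an.TK
end

section

/-!
# TASK TK FC: estimates in the fibres `{x} × ℝ`
-/

open scoped ENNReal NNReal BigOperators
open MeasureTheory Metric

namespace Pool.Agent.Lib.MP_291c47_an.TK

private theorem FC_closed (j : Fin 3) (b v : Fin 3 → ℝ) (h u : ℝ) (w : ℝ) : IsClosed (T4 j b v h u w) := by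
  have h1 : IsClosed {p : X | p.1 ∈ T3 j b v w} := (isClosed_T3 j b v w).preimage continuous_fst
  have h2 : IsClosed {p : X | |p.2 - h - u * p.1 j| ≤ w} := by
    apply isClosed_le _ continuous_const
    apply Continuous.abs
    have h3 : Continuous fun p : X => p.1 j := (continuous_apply j).comp continuous_fst
    exact (continuous_snd.sub continuous_const).sub (continuous_const.mul h3)
  exact h1.inter h2

/-- PROOF. Finite sum of indicators of closed sets. -/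
theorem measurable_cnt4 {ι : Type} [Fintype ι] (j : Fin 3) (b v : ι → Fin 3 → ℝ) (h u : ι → ℝ) (w : ℝ) :
    Measurable (cnt4 j b v h u w) := by
  unfold cnt4
  apply Finset.measurable_fun_sum
  intro i _
  exact measurable_const.indicator (FC_closed j (b i) (v i) (h i) (u i) w).measurableSet

/-- PROOF. Termwise `1_{T4} (x, y) ≤ 1_{T3} x`. -/
theorem cnt4_le {ι : Type} [Fintype ι] (j : Fin 3) (b v : ι → Fin 3 → ℝ) (h u : ι → ℝ) (w : ℝ)
    (x : Fin 3 → ℝ) (y : ℝ) : cnt4 j b v h u w (x, y) ≤ cnt j b v w x := by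
  unfold cnt4 cnt
  apply Finset.sum_le_sum
  intro i _
  by_cases h1 : (x, y) ∈ T4 j (b i) (v i) (h i) (u i) w
  · rw [Set.indicator_of_mem h1, Set.indicator_of_mem h1.1]
  · rw [Set.indicator_of_notMem h1]
    exact zero_le

/-- PROOF. For each `i`: the integral in `y` of `1_{T4} (x, y)` is `1_{T3} x` times the length `2w` of the interval `|y - h - u x_j| ≤ w`. -/
theorem lintegral_cnt4 {ι : Type} [Fintype ι] (j : Fin 3) (b v : ι → Fin 3 → ℝ) (h u : ι → ℝ) {w : ℝ}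
    (hw : 0 < w) (x : Fin 3 → ℝ) :
    ∫⁻ y : ℝ, cnt4 j b v h u w (x, y) = ENNReal.ofReal (2 * w) * cnt j b v w x := by
  unfold cnt4 cnt
  rw [lintegral_finsetSum, Finset.mul_sum]
  · apply Finset.sum_congr rfl
    intro i _
    by_cases h1 : x ∈ T3 j (b i) (v i) w
    · rw [Set.indicator_of_mem h1, mul_one]
      have h2 : ∀ y : ℝ, (T4 j (b i) (v i) (h i) (u i) w).indicator (fun _ => (1 : ℝ≥0∞)) (x, y) =
          (Set.Icc (h i + u i * x j - w) (h i + u i * x j + w)).indicator (fun _ => (1 : ℝ≥0∞)) y := by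
        intro y
        have h3 : (x, y) ∈ T4 j (b i) (v i) (h i) (u i) w ↔
            y ∈ Set.Icc (h i + u i * x j - w) (h i + u i * x j + w) := by
          unfold T4
          constructor
          · rintro ⟨_, h4⟩
            have h5 := abs_le.1 h4
            exact ⟨by linarith [h5.1], by linarith [h5.2]⟩
          · rintro ⟨h4, h5⟩
            refine ⟨h1, ?_⟩
            rw [abs_le]
            constructor
            · change -w ≤ y - h i - u i * x j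
              linarith
            · change y - h i - u i * x j ≤ w
              linarith
        by_cases h6 : (x, y) ∈ T4 j (b i) (v i) (h i) (u i) w
        · rw [Set.indicator_of_mem h6, Set.indicator_of_mem (h3.1 h6)]
        · rw [Set.indicator_of_notMem h6, Set.indicator_of_notMem (fun h7 => h6 (h3.2 h7))]
      simp only [h2]
      rw [lintegral_indicator_const measurableSet_Icc, one_mul, Real.volume_Icc]
      congr 1
      ring
    · rw [Set.indicator_of_notMem h1, mul_zero]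
      have h2 : ∀ y : ℝ, (T4 j (b i) (v i) (h i) (u i) w).indicator (fun _ => (1 : ℝ≥0∞)) (x, y) = 0 :=
        fun y => Set.indicator_of_notMem (fun h3 => h1 h3.1) _
      simp only [h2, lintegral_zero]
  · intro i _
    exact (measurable_const.indicator (FC_closed j (b i) (v i) (h i) (u i) w).measurableSet).comp
      measurable_prodMk_left

/-- Fibre estimate for the exponent `1/2`.
PROOF. `ENNReal.lintegral_prod_norm_pow_le` with `f j = (cnt4 ..)^(3/2)`, `p j = 1/3`: `∫ ∏ F_j^(1/2) ≤ ∏ (∫ F_j^(3/2))^(1/3)`.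
`F_j^(3/2) = F_j^(1/2) F_j ≤ (cnt x)^(1/2) F_j` by `cnt4_le`, so `∫ F_j^(3/2) ≤ (cnt x)^(1/2) · ofReal (2w) · cnt x` by `lintegral_cnt4`; its power `1/3` is
`ofReal (2w)^(1/3) · (cnt x)^(1/2)`, and the product of the three `ofReal (2w)^(1/3)` is `ofReal (2w)`. (`cnt` is finite; `ENNReal.rpow_add_of_nonneg`, `ENNReal.rpow_mul`,
`ENNReal.mul_rpow_of_nonneg`.) -/
theorem fibC {ι : Fin 3 → Type} [∀ j, Fintype (ι j)] (b v : ∀ j, ι j → Fin 3 → ℝ) (h u : ∀ j, ι j → ℝ)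
    {w : ℝ} (hw : 0 < w) (x : Fin 3 → ℝ) :
    ∫⁻ y : ℝ, ∏ j, (cnt4 j (b j) (v j) (h j) (u j) w (x, y)) ^ (1 / 2 : ℝ)
      ≤ ENNReal.ofReal (2 * w) * ∏ j, (cnt j (b j) (v j) w x) ^ (1 / 2 : ℝ) := by
  have hmeas : ∀ j, Measurable fun y : ℝ => cnt4 j (b j) (v j) (h j) (u j) w (x, y) :=
    fun j => (measurable_cnt4 j (b j) (v j) (h j) (u j) w).comp measurable_prodMk_left
  have hsum : ∑ _j : Fin 3, (1 / 3 : ℝ) = 1 := by
    rw [Finset.sum_const, Finset.card_univ, Fintype.card_fin, nsmul_eq_mul]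
    norm_num
  have hH := ENNReal.lintegral_prod_norm_pow_le (μ := (volume : Measure ℝ)) (Finset.univ : Finset (Fin 3))
    (f := fun j y => (cnt4 j (b j) (v j) (h j) (u j) w (x, y)) ^ (3 / 2 : ℝ))
    (fun j _ => ((hmeas j).pow_const _).aemeasurable) (p := fun _ => (1 / 3 : ℝ)) hsum
    (fun _ _ => by norm_num)
  have e1 : ∀ (j : Fin 3) (y : ℝ), ((cnt4 j (b j) (v j) (h j) (u j) w (x, y)) ^ (3 / 2 : ℝ)) ^ (1 / 3 : ℝ) =
      (cnt4 j (b j) (v j) (h j) (u j) w (x, y)) ^ (1 / 2 : ℝ) := by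
    intro j y
    rw [← ENNReal.rpow_mul]
    norm_num
  simp only [e1] at hH
  refine hH.trans ?_
  have e2 : ∀ j : Fin 3, (∫⁻ y : ℝ, (cnt4 j (b j) (v j) (h j) (u j) w (x, y)) ^ (3 / 2 : ℝ)) ^ (1 / 3 : ℝ) ≤
      ENNReal.ofReal (2 * w) ^ (1 / 3 : ℝ) * (cnt j (b j) (v j) w x) ^ (1 / 2 : ℝ) := by
    intro j
    have h1 : ∫⁻ y : ℝ, (cnt4 j (b j) (v j) (h j) (u j) w (x, y)) ^ (3 / 2 : ℝ) ≤
        (cnt j (b j) (v j) w x) ^ (1 / 2 : ℝ) * (ENNReal.ofReal (2 * w) * cnt j (b j) (v j) w x) := by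
      rw [← lintegral_cnt4 j (b j) (v j) (h j) (u j) hw x, ← lintegral_const_mul _ (hmeas j)]
      apply lintegral_mono
      intro y
      have h2 : (cnt4 j (b j) (v j) (h j) (u j) w (x, y)) ^ (3 / 2 : ℝ) =
          (cnt4 j (b j) (v j) (h j) (u j) w (x, y)) ^ (1 / 2 : ℝ) *
            cnt4 j (b j) (v j) (h j) (u j) w (x, y) := by
        rw [show (3 / 2 : ℝ) = 1 / 2 + 1 by norm_num,
          ENNReal.rpow_add_of_nonneg _ _ (by norm_num) (by norm_num), ENNReal.rpow_one]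
      change (cnt4 j (b j) (v j) (h j) (u j) w (x, y)) ^ (3 / 2 : ℝ) ≤ _
      rw [h2]
      exact mul_le_mul' (ENNReal.rpow_le_rpow (cnt4_le j (b j) (v j) (h j) (u j) w x y) (by norm_num)) le_rfl
    have h3 : (cnt j (b j) (v j) w x) ^ (1 / 2 : ℝ) * (ENNReal.ofReal (2 * w) * cnt j (b j) (v j) w x) =
        ENNReal.ofReal (2 * w) * (cnt j (b j) (v j) w x) ^ (3 / 2 : ℝ) := by
      rw [show (3 / 2 : ℝ) = 1 / 2 + 1 by norm_num,
        ENNReal.rpow_add_of_nonneg _ _ (by norm_num) (by norm_num), ENNReal.rpow_one]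
      ring
    rw [h3] at h1
    calc (∫⁻ y : ℝ, (cnt4 j (b j) (v j) (h j) (u j) w (x, y)) ^ (3 / 2 : ℝ)) ^ (1 / 3 : ℝ)
        ≤ (ENNReal.ofReal (2 * w) * (cnt j (b j) (v j) w x) ^ (3 / 2 : ℝ)) ^ (1 / 3 : ℝ) :=
          ENNReal.rpow_le_rpow h1 (by norm_num)
      _ = ENNReal.ofReal (2 * w) ^ (1 / 3 : ℝ) * (cnt j (b j) (v j) w x) ^ (1 / 2 : ℝ) := by
          rw [ENNReal.mul_rpow_of_nonneg _ _ (by norm_num), ← ENNReal.rpow_mul]
          norm_num
  refine (Finset.prod_le_prod' fun j _ => e2 j).trans ?_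
  rw [Finset.prod_mul_distrib, Finset.prod_const, Finset.card_univ, Fintype.card_fin,
    ← ENNReal.rpow_natCast, ← ENNReal.rpow_mul]
  norm_num

end Pool.Agent.Lib.MP_291c47_an.TK
end

section

/-!
# TASK TK AV: averaging over balls
-/

open scoped ENNReal NNReal BigOperators
open MeasureTheory Metric

namespace Pool.Agent.Lib.MP_291c47_an.TK

/-- PROOF. `∫_z ∫_x 1[dist x z ≤ ρ] φ x = ∫_x φ x μ (closedBall x ρ)` (`lintegral_lintegral_swap`, the set `{(x, z) | dist x z ≤ ρ}` is closed) and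
`μ (closedBall x ρ) = μ (closedBall 0 ρ)` (`Measure.addHaar_closedBall_center`). -/
theorem avg {G : Type} [NormedAddCommGroup G] [NormedSpace ℝ G] [MeasurableSpace G] [BorelSpace G]
    [FiniteDimensional ℝ G] (μ : Measure G) [μ.IsAddHaarMeasure] (φ : G → ℝ≥0∞) (hφ : Measurable φ) (ρ : ℝ) :
    ∫⁻ z, ∫⁻ x in closedBall z ρ, φ x ∂μ ∂μ = μ (closedBall 0 ρ) * ∫⁻ x, φ x ∂μ := by
  have hpr : ProperSpace G := FiniteDimensional.proper_real G
  have h1 : ∀ z : G, ∫⁻ x in closedBall z ρ, φ x ∂μ = ∫⁻ x, (closedBall z ρ).indicator φ x ∂μ := fun z =>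
    (lintegral_indicator measurableSet_closedBall φ).symm
  have hset : MeasurableSet {p : G × G | dist p.2 p.1 ≤ ρ} :=
    (isClosed_le (continuous_snd.dist continuous_fst) continuous_const).measurableSet
  have hmeas : Measurable (Function.uncurry fun z x : G => (closedBall z ρ).indicator φ x) := by
    have h2 : (Function.uncurry fun z x : G => (closedBall z ρ).indicator φ x) =
        {p : G × G | dist p.2 p.1 ≤ ρ}.indicator fun p => φ p.2 := by
      funext p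
      obtain ⟨z, x⟩ := p
      by_cases h : dist x z ≤ ρ
      · have h3 : (z, x) ∈ {p : G × G | dist p.2 p.1 ≤ ρ} := h
        have h4 : x ∈ closedBall z ρ := h
        simp only [Function.uncurry]
        rw [Set.indicator_of_mem h3, Set.indicator_of_mem h4]
      · have h3 : (z, x) ∉ {p : G × G | dist p.2 p.1 ≤ ρ} := h
        have h4 : x ∉ closedBall z ρ := h
        simp only [Function.uncurry]
        rw [Set.indicator_of_notMem h3, Set.indicator_of_notMem h4]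
    rw [h2]
    exact (hφ.comp measurable_snd).indicator hset
  simp_rw [h1]
  rw [lintegral_lintegral_swap hmeas.aemeasurable]
  have h5 : ∀ x : G, ∫⁻ z, (closedBall z ρ).indicator φ x ∂μ = μ (closedBall 0 ρ) * φ x := by
    intro x
    have h6 : (fun z : G => (closedBall z ρ).indicator φ x) = (closedBall x ρ).indicator fun _ => φ x := by
      funext z
      by_cases h : x ∈ closedBall z ρ
      · rw [Set.indicator_of_mem h, Set.indicator_of_mem (mem_closedBall_comm.1 h)]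
      · rw [Set.indicator_of_notMem h, Set.indicator_of_notMem (fun h' => h (mem_closedBall_comm.1 h'))]
    rw [h6, lintegral_indicator_const measurableSet_closedBall, Measure.addHaar_closedBall_center, mul_comm]
  simp_rw [h5]
  rw [lintegral_const_mul _ hφ]

/-- PROOF. Apply `avg` to `φ` times the indicator of `closedBall 0 R`; for `z ∉ closedBall 0 (R + ρ)` the inner integral is `0`
(`closedBall z ρ` and `closedBall 0 R` are disjoint). -/
theorem avg_ball_ge {G : Type} [NormedAddCommGroup G] [NormedSpace ℝ G] [MeasurableSpace G] [BorelSpace G]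
    [FiniteDimensional ℝ G] (μ : Measure G) [μ.IsAddHaarMeasure] (φ : G → ℝ≥0∞) (hφ : Measurable φ) (R ρ : ℝ) :
    μ (closedBall 0 ρ) * ∫⁻ x in closedBall (0 : G) R, φ x ∂μ
      ≤ ∫⁻ z in closedBall (0 : G) (R + ρ), ∫⁻ x in closedBall z ρ, φ x ∂μ ∂μ := by
  have hψ : Measurable ((closedBall (0 : G) R).indicator φ) := hφ.indicator measurableSet_closedBall
  have h1 := avg μ _ hψ ρ
  rw [lintegral_indicator measurableSet_closedBall] at h1
  rw [← h1, ← lintegral_indicator measurableSet_closedBall]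
  refine lintegral_mono fun z => ?_
  by_cases hz : z ∈ closedBall (0 : G) (R + ρ)
  · rw [Set.indicator_of_mem hz]
    exact lintegral_mono fun x => Set.indicator_le_self _ _ x
  · rw [Set.indicator_of_notMem hz]
    refine (setLIntegral_mono' measurableSet_closedBall (g := fun _ => 0) fun x hx => ?_).trans ?_
    · have h2 : x ∉ closedBall (0 : G) R := by
        intro h3
        apply hz
        rw [mem_closedBall] at *
        have h4 := dist_triangle z x 0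
        rw [dist_comm x z] at hx
        linarith
      rw [Set.indicator_of_notMem h2]
    · rw [lintegral_zero]

/-- PROOF. For `z ∈ closedBall 0 R` we have `closedBall z ρ ⊆ closedBall 0 (R + ρ)`; so the left side is at most the full `avg` integral of
`φ` times the indicator of `closedBall 0 (R + ρ)`. -/
theorem avg_ball_le {G : Type} [NormedAddCommGroup G] [NormedSpace ℝ G] [MeasurableSpace G] [BorelSpace G]
    [FiniteDimensional ℝ G] (μ : Measure G) [μ.IsAddHaarMeasure] (φ : G → ℝ≥0∞) (hφ : Measurable φ) (R ρ : ℝ) :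
    ∫⁻ z in closedBall (0 : G) R, ∫⁻ x in closedBall z ρ, φ x ∂μ ∂μ
      ≤ μ (closedBall 0 ρ) * ∫⁻ x in closedBall (0 : G) (R + ρ), φ x ∂μ := by
  have hψ : Measurable ((closedBall (0 : G) (R + ρ)).indicator φ) := hφ.indicator measurableSet_closedBall
  have h1 := avg μ _ hψ ρ
  rw [lintegral_indicator measurableSet_closedBall] at h1
  rw [← h1]
  refine le_trans ?_ (setLIntegral_le_lintegral (closedBall (0 : G) R) _)
  refine setLIntegral_mono' measurableSet_closedBall fun z hz => ?_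
  refine setLIntegral_mono' measurableSet_closedBall fun x hx => ?_
  have h2 : x ∈ closedBall (0 : G) (R + ρ) := by
    rw [mem_closedBall] at *
    have h4 := dist_triangle x z 0
    linarith
  rw [Set.indicator_of_mem h2]

end Pool.Agent.Lib.MP_291c47_an.TK
end

section

/-!
# TASK TK LW: Loomis-Whitney inequality in three variables
-/

open scoped ENNReal NNReal BigOperators
open MeasureTheory Metric

namespace Pool.Agent.Lib.MP_291c47_an.TK

/-- Cauchy-Schwarz. -/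
private theorem lw_cs (f g : ℝ → ℝ≥0∞) (hf : Measurable f) (hg : Measurable g) :
    ∫⁻ a, (f a) ^ (1 / 2 : ℝ) * (g a) ^ (1 / 2 : ℝ) ≤
      (∫⁻ a, f a) ^ (1 / 2 : ℝ) * (∫⁻ a, g a) ^ (1 / 2 : ℝ) :=
  ENNReal.lintegral_mul_norm_pow_le hf.aemeasurable hg.aemeasurable (by norm_num) (by norm_num)
    (by norm_num)

/-- Loomis-Whitney.
PROOF. Cauchy-Schwarz `ENNReal.lintegral_mul_norm_pow_le` with `p = q = 1/2` three times.
For fixed `a b`: `∫_c (g₀ b c)^(1/2) (g₁ a c)^(1/2) (g₂ a b)^(1/2) ≤ (g₂ a b)^(1/2) (G₀ b)^(1/2) (G₁ a)^(1/2)`, `G₀ b = ∫_c g₀ b c`, `G₁ a = ∫_c g₁ a c`.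
For fixed `a`: `∫_b (g₂ a b)^(1/2) (G₀ b)^(1/2) ≤ (G₂ a)^(1/2) (∫ G₀)^(1/2)`, `G₂ a = ∫_b g₂ a b`. Finally `∫_a (G₁ a)^(1/2) (G₂ a)^(1/2) ≤ (∫ G₁)^(1/2) (∫ G₂)^(1/2)`.
Measurability of the `G`'s: `Measurable.lintegral_prod_right'`. -/
theorem lw (g₀ g₁ g₂ : ℝ → ℝ → ℝ≥0∞) (h₀ : Measurable (Function.uncurry g₀))
    (h₁ : Measurable (Function.uncurry g₁)) (h₂ : Measurable (Function.uncurry g₂)) :
    ∫⁻ a, ∫⁻ b, ∫⁻ c, (g₀ b c) ^ (1 / 2 : ℝ) * (g₁ a c) ^ (1 / 2 : ℝ) * (g₂ a b) ^ (1 / 2 : ℝ)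
      ≤ (∫⁻ b, ∫⁻ c, g₀ b c) ^ (1 / 2 : ℝ) * (∫⁻ a, ∫⁻ c, g₁ a c) ^ (1 / 2 : ℝ) *
        (∫⁻ a, ∫⁻ b, g₂ a b) ^ (1 / 2 : ℝ) := by
  have m0 : ∀ b, Measurable (g₀ b) := fun b => h₀.comp measurable_prodMk_left
  have m1 : ∀ a, Measurable (g₁ a) := fun a => h₁.comp measurable_prodMk_left
  have m2 : ∀ a, Measurable (g₂ a) := fun a => h₂.comp measurable_prodMk_left
  have M0 : Measurable (fun b => ∫⁻ c, g₀ b c) := h₀.lintegral_prod_right'
  have M1 : Measurable (fun a => ∫⁻ c, g₁ a c) := h₁.lintegral_prod_right'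
  have M2 : Measurable (fun a => ∫⁻ b, g₂ a b) := h₂.lintegral_prod_right'
  have s1 : ∀ a b, ∫⁻ c, (g₀ b c) ^ (1 / 2 : ℝ) * (g₁ a c) ^ (1 / 2 : ℝ) * (g₂ a b) ^ (1 / 2 : ℝ)
      ≤ ((∫⁻ c, g₀ b c) ^ (1 / 2 : ℝ) * (∫⁻ c, g₁ a c) ^ (1 / 2 : ℝ)) * (g₂ a b) ^ (1 / 2 : ℝ) := by
    intro a b
    have hm : Measurable fun c => (g₀ b c) ^ (1 / 2 : ℝ) * (g₁ a c) ^ (1 / 2 : ℝ) :=
      ((m0 b).pow_const _).mul ((m1 a).pow_const _)
    rw [lintegral_mul_const _ hm]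
    gcongr
    exact lw_cs _ _ (m0 b) (m1 a)
  have s2 : ∀ a, ∫⁻ b, ∫⁻ c, (g₀ b c) ^ (1 / 2 : ℝ) * (g₁ a c) ^ (1 / 2 : ℝ) * (g₂ a b) ^ (1 / 2 : ℝ)
      ≤ (∫⁻ b, ∫⁻ c, g₀ b c) ^ (1 / 2 : ℝ) *
        ((∫⁻ c, g₁ a c) ^ (1 / 2 : ℝ) * (∫⁻ b, g₂ a b) ^ (1 / 2 : ℝ)) := by
    intro a
    calc ∫⁻ b, ∫⁻ c, (g₀ b c) ^ (1 / 2 : ℝ) * (g₁ a c) ^ (1 / 2 : ℝ) * (g₂ a b) ^ (1 / 2 : ℝ)
        ≤ ∫⁻ b, (∫⁻ c, g₁ a c) ^ (1 / 2 : ℝ) *
            ((∫⁻ c, g₀ b c) ^ (1 / 2 : ℝ) * (g₂ a b) ^ (1 / 2 : ℝ)) := by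
          refine lintegral_mono fun b => (s1 a b).trans (le_of_eq ?_)
          ring
      _ = (∫⁻ c, g₁ a c) ^ (1 / 2 : ℝ) *
            ∫⁻ b, (∫⁻ c, g₀ b c) ^ (1 / 2 : ℝ) * (g₂ a b) ^ (1 / 2 : ℝ) := by
          have hm : Measurable fun b => (∫⁻ c, g₀ b c) ^ (1 / 2 : ℝ) * (g₂ a b) ^ (1 / 2 : ℝ) :=
            (M0.pow_const _).mul ((m2 a).pow_const _)
          rw [lintegral_const_mul _ hm]
      _ ≤ (∫⁻ c, g₁ a c) ^ (1 / 2 : ℝ) *
            ((∫⁻ b, ∫⁻ c, g₀ b c) ^ (1 / 2 : ℝ) * (∫⁻ b, g₂ a b) ^ (1 / 2 : ℝ)) := by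
          gcongr
          exact lw_cs _ _ M0 (m2 a)
      _ = _ := by ring
  calc ∫⁻ a, ∫⁻ b, ∫⁻ c, (g₀ b c) ^ (1 / 2 : ℝ) * (g₁ a c) ^ (1 / 2 : ℝ) * (g₂ a b) ^ (1 / 2 : ℝ)
      ≤ ∫⁻ a, (∫⁻ b, ∫⁻ c, g₀ b c) ^ (1 / 2 : ℝ) *
        ((∫⁻ c, g₁ a c) ^ (1 / 2 : ℝ) * (∫⁻ b, g₂ a b) ^ (1 / 2 : ℝ)) := lintegral_mono s2
    _ = (∫⁻ b, ∫⁻ c, g₀ b c) ^ (1 / 2 : ℝ) *
        ∫⁻ a, (∫⁻ c, g₁ a c) ^ (1 / 2 : ℝ) * (∫⁻ b, g₂ a b) ^ (1 / 2 : ℝ) := by
        have hm : Measurable fun a => (∫⁻ c, g₁ a c) ^ (1 / 2 : ℝ) *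
            (∫⁻ b, g₂ a b) ^ (1 / 2 : ℝ) := (M1.pow_const _).mul (M2.pow_const _)
        rw [lintegral_const_mul _ hm]
    _ ≤ (∫⁻ b, ∫⁻ c, g₀ b c) ^ (1 / 2 : ℝ) *
        ((∫⁻ a, ∫⁻ c, g₁ a c) ^ (1 / 2 : ℝ) * (∫⁻ a, ∫⁻ b, g₂ a b) ^ (1 / 2 : ℝ)) := by
        gcongr
        exact lw_cs _ _ M1 M2
    _ = _ := by ring

end Pool.Agent.Lib.MP_291c47_an.TK
end

section

/-!
# TASK TK BX: trilinear inequality for axis-parallel tubes
-/

open scoped ENNReal NNReal BigOperators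
open MeasureTheory Metric

namespace Pool.Agent.Lib.MP_291c47_an.TK

/-- indicator of the interval of radius `w` around `m` -/
private noncomputable def BX_q (w m s : ℝ) : ℝ≥0∞ := {y : ℝ | |y - m| ≤ w}.indicator (fun _ => (1 : ℝ≥0∞)) s

private noncomputable def BX_g {ι : Type} [Fintype ι] (w : ℝ) (m n : ι → ℝ) (s t : ℝ) : ℝ≥0∞ :=
  ∑ i, BX_q w (m i) s * BX_q w (n i) t

private theorem BX_meas (w m : ℝ) : Measurable (BX_q w m) := by
  unfold BX_q
  refine Measurable.indicator measurable_const ?_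
  exact (isClosed_le (by fun_prop) continuous_const).measurableSet

private theorem BX_int {w : ℝ} (m : ℝ) : ∫⁻ s, BX_q w m s = ENNReal.ofReal (2 * w) := by
  have h1 : MeasurableSet {y : ℝ | |y - m| ≤ w} :=
    (isClosed_le (by fun_prop) continuous_const).measurableSet
  have h2 : {y : ℝ | |y - m| ≤ w} = closedBall m w := by
    ext y
    rw [mem_closedBall, Real.dist_eq]
    rfl
  unfold BX_q
  rw [lintegral_indicator h1, lintegral_const, one_mul, Measure.restrict_apply_univ, h2, Real.volume_closedBall]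

private theorem BX_gmeas {ι : Type} [Fintype ι] (w : ℝ) (m n : ι → ℝ) :
    Measurable (Function.uncurry (BX_g w m n)) := by
  have : Function.uncurry (BX_g w m n) = fun p : ℝ × ℝ => ∑ i, BX_q w (m i) p.1 * BX_q w (n i) p.2 := by
    funext p
    rfl
  rw [this]
  refine Finset.measurable_sum _ fun i _ => ?_
  exact ((BX_meas w (m i)).comp measurable_fst).mul ((BX_meas w (n i)).comp measurable_snd)

private theorem BX_gint {ι : Type} [Fintype ι] (w : ℝ) (m n : ι → ℝ) :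
    ∫⁻ s, ∫⁻ t, BX_g w m n s t = (Fintype.card ι : ℝ≥0∞) * (ENNReal.ofReal (2 * w)) ^ 2 := by
  have h1 : ∀ s, ∫⁻ t, BX_g w m n s t = ∑ i, BX_q w (m i) s * ENNReal.ofReal (2 * w) := by
    intro s
    unfold BX_g
    rw [lintegral_finsetSum]
    · refine Finset.sum_congr rfl fun i _ => ?_
      rw [lintegral_const_mul _ (BX_meas w (n i)), BX_int]
    · intro i _
      exact (BX_meas w (n i)).const_mul _
  simp_rw [h1]
  rw [lintegral_finsetSum]
  · have h2 : ∀ i ∈ (Finset.univ : Finset ι), ∫⁻ s, BX_q w (m i) s * ENNReal.ofReal (2 * w)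
        = ENNReal.ofReal (2 * w) ^ 2 := by
      intro i _
      rw [lintegral_mul_const _ (BX_meas w (m i)), BX_int, sq]
    rw [Finset.sum_congr rfl h2, Finset.sum_const, Finset.card_univ, nsmul_eq_mul]
  · intro i _
    exact (BX_meas w (m i)).mul_const _

private theorem BX_T0 (b : Fin 3 → ℝ) (w x y z : ℝ) :
    (T3 0 b (fun _ => 0) w).indicator (fun _ => (1 : ℝ≥0∞)) ![x, y, z] = BX_q w (b 1) y * BX_q w (b 2) z := by
  classical
  unfold BX_q
  rw [Set.indicator_apply, Set.indicator_apply, Set.indicator_apply]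
  have h : ![x, y, z] ∈ T3 0 b (fun _ => 0) w ↔ |y - b 1| ≤ w ∧ |z - b 2| ≤ w := by
    unfold T3
    rw [Set.mem_setOf_eq, Fin.forall_fin_succ, Fin.forall_fin_two]
    simp
  simp only [h, Set.mem_setOf_eq]
  by_cases h1 : |y - b 1| ≤ w <;> by_cases h2 : |z - b 2| ≤ w <;> simp [h1, h2]

private theorem BX_T1 (b : Fin 3 → ℝ) (w x y z : ℝ) :
    (T3 1 b (fun _ => 0) w).indicator (fun _ => (1 : ℝ≥0∞)) ![x, y, z] = BX_q w (b 0) x * BX_q w (b 2) z := by
  classical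
  unfold BX_q
  rw [Set.indicator_apply, Set.indicator_apply, Set.indicator_apply]
  have h : ![x, y, z] ∈ T3 1 b (fun _ => 0) w ↔ |x - b 0| ≤ w ∧ |z - b 2| ≤ w := by
    unfold T3
    rw [Set.mem_setOf_eq, Fin.forall_fin_succ, Fin.forall_fin_two]
    simp
  simp only [h, Set.mem_setOf_eq]
  by_cases h1 : |x - b 0| ≤ w <;> by_cases h2 : |z - b 2| ≤ w <;> simp [h1, h2]

private theorem BX_T2 (b : Fin 3 → ℝ) (w x y z : ℝ) :
    (T3 2 b (fun _ => 0) w).indicator (fun _ => (1 : ℝ≥0∞)) ![x, y, z] = BX_q w (b 0) x * BX_q w (b 1) y := by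
  classical
  unfold BX_q
  rw [Set.indicator_apply, Set.indicator_apply, Set.indicator_apply]
  have h : ![x, y, z] ∈ T3 2 b (fun _ => 0) w ↔ |x - b 0| ≤ w ∧ |y - b 1| ≤ w := by
    unfold T3
    rw [Set.mem_setOf_eq, Fin.forall_fin_succ, Fin.forall_fin_two]
    simp
  simp only [h, Set.mem_setOf_eq]
  by_cases h1 : |x - b 0| ≤ w <;> by_cases h2 : |y - b 1| ≤ w <;> simp [h1, h2]

private theorem BX_sqrt (w : ℝ) (N : ℕ) :
    ((N : ℝ≥0∞) * (ENNReal.ofReal (2 * w)) ^ 2) ^ (1 / 2 : ℝ)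
      = ENNReal.ofReal (2 * w) * (N : ℝ≥0∞) ^ (1 / 2 : ℝ) := by
  rw [ENNReal.mul_rpow_of_nonneg _ _ (by norm_num : (0 : ℝ) ≤ 1 / 2), ← ENNReal.rpow_natCast,
    ← ENNReal.rpow_mul, mul_comm]
  norm_num

/-- Axis-parallel tubes (all slopes `0`).
PROOF. By `lintegral_fin3` and `lw` with `g₀ b c = ∑ i, 1[|b - β 0 i 1| ≤ w] 1[|c - β 0 i 2| ≤ w]`,
`g₁ a c = ∑ i, 1[|a - β 1 i 0| ≤ w] 1[|c - β 1 i 2| ≤ w]`, `g₂ a b = ∑ i, 1[|a - β 2 i 0| ≤ w] 1[|b - β 2 i 1| ≤ w]`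
(`cnt 0 .. ![a, b, c] = g₀ b c` and so on; `Fin.prod_univ_three`). Each double integral is `(2w)^2 * card`, its square root is
`2w * card^(1/2)` (`ENNReal.mul_rpow_of_nonneg`). -/
theorem box_int {ι : Fin 3 → Type} [∀ j, Fintype (ι j)] (β : ∀ j, ι j → Fin 3 → ℝ) {w : ℝ} (hw : 0 < w) :
    ∫⁻ x, ∏ j, (cnt j (β j) (fun _ _ => 0) w x) ^ (1 / 2 : ℝ)
      ≤ ENNReal.ofReal (2 * w) ^ 3 * ∏ j, (Fintype.card (ι j) : ℝ≥0∞) ^ (1 / 2 : ℝ) := by
  have hm : Measurable fun x : Fin 3 → ℝ => ∏ j, (cnt j (β j) (fun _ _ => 0) w x) ^ (1 / 2 : ℝ) :=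
    Finset.measurable_prod _ fun j _ => (measurable_cnt j (β j) (fun _ _ => 0) w).pow_const _
  rw [lintegral_fin3 _ hm]
  have h0 : ∀ a b c : ℝ, cnt 0 (β 0) (fun _ _ => 0) w ![a, b, c]
      = BX_g w (fun i => β 0 i 1) (fun i => β 0 i 2) b c := fun a b c =>
    Finset.sum_congr rfl fun i _ => BX_T0 (β 0 i) w a b c
  have h1 : ∀ a b c : ℝ, cnt 1 (β 1) (fun _ _ => 0) w ![a, b, c]
      = BX_g w (fun i => β 1 i 0) (fun i => β 1 i 2) a c := fun a b c =>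
    Finset.sum_congr rfl fun i _ => BX_T1 (β 1 i) w a b c
  have h2 : ∀ a b c : ℝ, cnt 2 (β 2) (fun _ _ => 0) w ![a, b, c]
      = BX_g w (fun i => β 2 i 0) (fun i => β 2 i 1) a b := fun a b c =>
    Finset.sum_congr rfl fun i _ => BX_T2 (β 2 i) w a b c
  have h3 : ∫⁻ a : ℝ, ∫⁻ b : ℝ, ∫⁻ c : ℝ, ∏ j, (cnt j (β j) (fun _ _ => 0) w ![a, b, c]) ^ (1 / 2 : ℝ)
      = ∫⁻ a, ∫⁻ b, ∫⁻ c, (BX_g w (fun i => β 0 i 1) (fun i => β 0 i 2) b c) ^ (1 / 2 : ℝ) *
        (BX_g w (fun i => β 1 i 0) (fun i => β 1 i 2) a c) ^ (1 / 2 : ℝ) *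
        (BX_g w (fun i => β 2 i 0) (fun i => β 2 i 1) a b) ^ (1 / 2 : ℝ) := by
    refine lintegral_congr fun a => lintegral_congr fun b => lintegral_congr fun c => ?_
    rw [Fin.prod_univ_three, h0, h1, h2]
  rw [h3]
  refine (lw _ _ _ (BX_gmeas _ _ _) (BX_gmeas _ _ _) (BX_gmeas _ _ _)).trans (le_of_eq ?_)
  rw [BX_gint, BX_gint, BX_gint, BX_sqrt, BX_sqrt, BX_sqrt, Fin.prod_univ_three]
  ring

end Pool.Agent.Lib.MP_291c47_an.TK
end

section

/-!
# TASK TK ST: one step of Guth's induction on scales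
-/

open scoped ENNReal NNReal BigOperators
open MeasureTheory Metric

namespace Pool.Agent.Lib.MP_291c47_an.TK

private theorem ST_dist {x z : Fin 3 → ℝ} {ρ : ℝ} (hx : x ∈ closedBall z ρ) (k : Fin 3) :
    |x k - z k| ≤ ρ := by
  have h1 : dist (x k) (z k) ≤ dist x z := dist_le_pi_dist x z k
  rw [Real.dist_eq] at h1
  exact h1.trans (mem_closedBall.1 hx)

theorem loc_in {j : Fin 3} {b v z x : Fin 3 → ℝ} {w lam ρ : ℝ} (hw : 0 < w) (hlam : 1 ≤ lam)
    (hρ : 2 * ρ = lam * w) (hv : ∀ k, k ≠ j → |v k| ≤ 1 / lam) (hx : x ∈ closedBall z ρ)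
    (hxT : x ∈ T3 j b v w) : x ∈ T3 j (fun k => b k + v k * z j) (fun _ => 0) (2 * w) := by
  intro k hk
  have h1 := hxT k hk
  have h2 := hv k hk
  have h3 := ST_dist hx j
  have hl : 0 < lam := by linarith
  have hρ0 : 0 ≤ ρ := le_trans (abs_nonneg _) h3
  have h4 : |v k * (x j - z j)| ≤ 1 / lam * ρ := by
    rw [abs_mul]
    exact mul_le_mul h2 h3 (abs_nonneg _) (by positivity)
  have h5 : 1 / lam * ρ = w / 2 := by
    have : ρ = lam * w / 2 := by linarith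
    rw [this]; field_simp
  have h6 : x k - (b k + v k * z j) - 0 * x j = (x k - b k - v k * x j) + v k * (x j - z j) := by ring
  show |x k - (b k + v k * z j) - 0 * x j| ≤ 2 * w
  rw [h6]
  calc |(x k - b k - v k * x j) + v k * (x j - z j)| ≤ |x k - b k - v k * x j| + |v k * (x j - z j)| := abs_add_le _ _
    _ ≤ w + w / 2 := add_le_add h1 (h4.trans_eq h5)
    _ ≤ 2 * w := by linarith

theorem loc_out {j : Fin 3} {b v z x₀ x : Fin 3 → ℝ} {w lam ρ : ℝ} (hw : 0 < w) (hlam : 1 ≤ lam)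
    (hρ : 2 * ρ = lam * w) (hv : ∀ k, k ≠ j → |v k| ≤ 1 / lam) (hx₀ : x₀ ∈ closedBall z ρ)
    (hx₀T : x₀ ∈ T3 j b v w) (hx : x ∈ closedBall z ρ) : x ∈ T3 j b v ((lam + 2) * w) := by
  intro k hk
  have h1 := hx₀T k hk
  have h2 := hv k hk
  have h3 := ST_dist hx j
  have h3' := ST_dist hx₀ j
  have h4 := ST_dist hx k
  have h4' := ST_dist hx₀ k
  have hl : 0 < lam := by linarith
  have hρ0 : 0 ≤ ρ := le_trans (abs_nonneg _) h3
  have h5 : |x j - x₀ j| ≤ 2 * ρ := by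
    have : x j - x₀ j = (x j - z j) - (x₀ j - z j) := by ring
    rw [this]
    exact (abs_sub _ _).trans (by linarith)
  have h5' : |x k - x₀ k| ≤ 2 * ρ := by
    have : x k - x₀ k = (x k - z k) - (x₀ k - z k) := by ring
    rw [this]
    exact (abs_sub _ _).trans (by linarith)
  have h6 : |v k * (x j - x₀ j)| ≤ 1 / lam * (2 * ρ) := by
    rw [abs_mul]
    exact mul_le_mul h2 h5 (abs_nonneg _) (by positivity)
  have h7 : 1 / lam * (2 * ρ) = w := by
    rw [hρ]; field_simp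
  have h8 : x k - b k - v k * x j = (x₀ k - b k - v k * x₀ j) + (x k - x₀ k) - v k * (x j - x₀ j) := by ring
  show |x k - b k - v k * x j| ≤ (lam + 2) * w
  rw [h8]
  calc |(x₀ k - b k - v k * x₀ j) + (x k - x₀ k) - v k * (x j - x₀ j)|
      ≤ |(x₀ k - b k - v k * x₀ j) + (x k - x₀ k)| + |v k * (x j - x₀ j)| := abs_sub _ _
    _ ≤ |x₀ k - b k - v k * x₀ j| + |x k - x₀ k| + |v k * (x j - x₀ j)| := by
        gcongr; exact abs_add_le _ _
    _ ≤ w + 2 * ρ + w := by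
        have := h6.trans_eq h7
        linarith
    _ = (lam + 2) * w := by rw [hρ]; ring

open Classical in
theorem step {ι : Fin 3 → Type} [∀ j, Fintype (ι j)] (b v : ∀ j, ι j → Fin 3 → ℝ) {w lam ρ : ℝ}
    (hw : 0 < w) (hlam : 1 ≤ lam) (hρ : 2 * ρ = lam * w)
    (hv : ∀ j i k, k ≠ j → |v j i k| ≤ 1 / lam) (z : Fin 3 → ℝ) :
    ∫⁻ x in closedBall z ρ, ∏ j, (cnt j (b j) (v j) w x) ^ (1 / 2 : ℝ)
      ≤ ENNReal.ofReal (64 / lam ^ 3) *
        ∫⁻ x in closedBall z ρ, ∏ j, (cnt j (b j) (v j) ((lam + 2) * w) x) ^ (1 / 2 : ℝ) := by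
  have hl : 0 < lam := by linarith
  have hρ0 : 0 < ρ := by nlinarith
  let S : ∀ j, Finset (ι j) := fun j => Finset.univ.filter (fun i => ∃ x ∈ closedBall z ρ, x ∈ T3 j (b j i) (v j i) w)
  let β : ∀ j, {i // i ∈ S j} → Fin 3 → ℝ := fun j i k => b j i k + v j i k * z j
  -- upper bound
  have hup : ∀ x ∈ closedBall z ρ, ∀ j, cnt j (b j) (v j) w x ≤ cnt j (β j) (fun _ _ => 0) (2 * w) x := by
    intro x hx j
    unfold cnt
    have e1 : ∑ i, (T3 j (b j i) (v j i) w).indicator (fun _ => (1 : ℝ≥0∞)) x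
        = ∑ i ∈ S j, (T3 j (b j i) (v j i) w).indicator (fun _ => (1 : ℝ≥0∞)) x := by
      symm
      apply Finset.sum_subset (Finset.subset_univ _)
      intro i _ hi
      apply Set.indicator_of_notMem
      intro hxi
      exact hi (Finset.mem_filter.2 ⟨Finset.mem_univ _, x, hx, hxi⟩)
    rw [e1, ← Finset.sum_coe_sort]
    apply Finset.sum_le_sum
    intro i _
    by_cases hxi : x ∈ T3 j (b j i) (v j i) w
    · have := loc_in hw hlam hρ (hv j i) hx hxi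
      rw [Set.indicator_of_mem hxi, Set.indicator_of_mem this]
    · rw [Set.indicator_of_notMem hxi]; exact zero_le
  have hlow : ∀ x ∈ closedBall z ρ, ∀ j, ((S j).card : ℝ≥0∞) ≤ cnt j (b j) (v j) ((lam + 2) * w) x := by
    intro x hx j
    unfold cnt
    calc ((S j).card : ℝ≥0∞) = ∑ i ∈ S j, (1 : ℝ≥0∞) := by simp
      _ ≤ ∑ i ∈ S j, (T3 j (b j i) (v j i) ((lam + 2) * w)).indicator (fun _ => (1 : ℝ≥0∞)) x := by
          apply Finset.sum_le_sum
          intro i hi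
          obtain ⟨_, x₀, hx₀, hx₀T⟩ := Finset.mem_filter.1 hi
          rw [Set.indicator_of_mem (loc_out hw hlam hρ (hv j i) hx₀ hx₀T hx)]
      _ ≤ _ := Finset.sum_le_sum_of_subset (Finset.subset_univ _)
  set P : ℝ≥0∞ := ∏ j, ((S j).card : ℝ≥0∞) ^ (1 / 2 : ℝ) with hP
  have h1 : ∫⁻ x in closedBall z ρ, ∏ j, (cnt j (b j) (v j) w x) ^ (1 / 2 : ℝ)
      ≤ ENNReal.ofReal (2 * (2 * w)) ^ 3 * P := by
    calc ∫⁻ x in closedBall z ρ, ∏ j, (cnt j (b j) (v j) w x) ^ (1 / 2 : ℝ)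
        ≤ ∫⁻ x in closedBall z ρ, ∏ j, (cnt j (β j) (fun _ _ => 0) (2 * w) x) ^ (1 / 2 : ℝ) := by
          apply setLIntegral_mono' measurableSet_closedBall
          intro x hx
          apply Finset.prod_le_prod'
          intro j _
          exact ENNReal.rpow_le_rpow (hup x hx j) (by norm_num)
      _ ≤ ∫⁻ x, ∏ j, (cnt j (β j) (fun _ _ => 0) (2 * w) x) ^ (1 / 2 : ℝ) := setLIntegral_le_lintegral _ _
      _ ≤ ENNReal.ofReal (2 * (2 * w)) ^ 3 * ∏ j, (Fintype.card {i // i ∈ S j} : ℝ≥0∞) ^ (1 / 2 : ℝ) :=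
          box_int β (by linarith)
      _ = _ := by simp [hP]
  have h2 : ENNReal.ofReal (2 * ρ) ^ 3 * P
      ≤ ∫⁻ x in closedBall z ρ, ∏ j, (cnt j (b j) (v j) ((lam + 2) * w) x) ^ (1 / 2 : ℝ) := by
    calc ENNReal.ofReal (2 * ρ) ^ 3 * P = ∫⁻ x in closedBall z ρ, P := by
          rw [setLIntegral_const, Real.volume_pi_closedBall _ hρ0.le, mul_comm]
          congr 1
          rw [ENNReal.ofReal_pow (by positivity)]
          simp
      _ ≤ _ := by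
          apply setLIntegral_mono' measurableSet_closedBall
          intro x hx
          apply Finset.prod_le_prod'
          intro j _
          exact ENNReal.rpow_le_rpow (hlow x hx j) (by norm_num)
  calc ∫⁻ x in closedBall z ρ, ∏ j, (cnt j (b j) (v j) w x) ^ (1 / 2 : ℝ)
      ≤ ENNReal.ofReal (2 * (2 * w)) ^ 3 * P := h1
    _ = ENNReal.ofReal (64 / lam ^ 3) * (ENNReal.ofReal (2 * ρ) ^ 3 * P) := by
        have e : ENNReal.ofReal (2 * (2 * w)) ^ 3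
            = ENNReal.ofReal (64 / lam ^ 3) * ENNReal.ofReal (2 * ρ) ^ 3 := by
          rw [← ENNReal.ofReal_pow (by positivity), ← ENNReal.ofReal_pow (by positivity),
            ← ENNReal.ofReal_mul (by positivity), hρ]
          congr 1
          field_simp
          ring
        rw [e, mul_assoc]
    _ ≤ _ := by gcongr

end Pool.Agent.Lib.MP_291c47_an.TK
end

section

/-!
# TASK TK IT: the induction on scales
-/

open scoped ENNReal NNReal BigOperators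
open MeasureTheory Metric

namespace Pool.Agent.Lib.MP_291c47_an.TK

private theorem IT_T3 (j : Fin 3) (b v : Fin 3 → ℝ) (w : ℝ) : MeasurableSet (T3 j b v w) := by
  have h : IsClosed {x : Fin 3 → ℝ | ∀ k, k ≠ j → |x k - b k - v k * x j| ≤ w} := by
    have h1 : {x : Fin 3 → ℝ | ∀ k, k ≠ j → |x k - b k - v k * x j| ≤ w} =
        ⋂ k, ⋂ (_ : k ≠ j), {x : Fin 3 → ℝ | |x k - b k - v k * x j| ≤ w} := by
      ext x
      simp
    rw [h1]
    refine isClosed_iInter fun k => isClosed_iInter fun _ => ?_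
    exact isClosed_le (by fun_prop) continuous_const
  exact h.measurableSet

private theorem IT_cnt {ι : Type} [Fintype ι] (j : Fin 3) (b v : ι → Fin 3 → ℝ) (w : ℝ) :
    Measurable (cnt j b v w) := by
  unfold cnt
  exact Finset.measurable_sum _ fun i _ => measurable_const.indicator (IT_T3 _ _ _ _)

private theorem IT_prod {ι : Fin 3 → Type} [∀ j, Fintype (ι j)] (b v : ∀ j, ι j → Fin 3 → ℝ) (w : ℝ) :
    Measurable (fun x : Fin 3 → ℝ => ∏ j, (cnt j (b j) (v j) w x) ^ (1 / 2 : ℝ)) :=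
  Finset.measurable_prod _ fun j _ => (IT_cnt _ _ _ _).pow_const _

/-- One step in a large cube.
PROOF. `ρ := lam w / 2`. `avg_ball_ge` with `R, ρ`, then `step` for every `z` (`lintegral_mono`, `lintegral_const_mul`), then `avg_ball_le` with `R + ρ, ρ`
(`R + ρ + ρ = R + lam w`); divide by `μ (closedBall 0 ρ)`, which is `≠ 0, ≠ ∞` (`ENNReal.mul_le_mul_left` or similar). -/
theorem stepD {ι : Fin 3 → Type} [∀ j, Fintype (ι j)] (b v : ∀ j, ι j → Fin 3 → ℝ) {w lam : ℝ}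
    (hw : 0 < w) (hlam : 1 ≤ lam) (hv : ∀ j i k, k ≠ j → |v j i k| ≤ 1 / lam) (R : ℝ) :
    ∫⁻ x in closedBall (0 : Fin 3 → ℝ) R, ∏ j, (cnt j (b j) (v j) w x) ^ (1 / 2 : ℝ)
      ≤ ENNReal.ofReal (64 / lam ^ 3) *
        ∫⁻ x in closedBall (0 : Fin 3 → ℝ) (R + lam * w),
          ∏ j, (cnt j (b j) (v j) ((lam + 2) * w) x) ^ (1 / 2 : ℝ) := by
  set ρ : ℝ := lam * w / 2 with hρ
  have hρ0 : 0 < ρ := by positivity
  have hC : ENNReal.ofReal (64 / lam ^ 3) ≠ ⊤ := ENNReal.ofReal_ne_top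
  have h1 := avg_ball_ge (volume : Measure (Fin 3 → ℝ)) _ (IT_prod b v w) R ρ
  have h2 : ∫⁻ z in closedBall (0 : Fin 3 → ℝ) (R + ρ), ∫⁻ x in closedBall z ρ,
      ∏ j, (cnt j (b j) (v j) w x) ^ (1 / 2 : ℝ) ≤
      ENNReal.ofReal (64 / lam ^ 3) * ∫⁻ z in closedBall (0 : Fin 3 → ℝ) (R + ρ),
        ∫⁻ x in closedBall z ρ, ∏ j, (cnt j (b j) (v j) ((lam + 2) * w) x) ^ (1 / 2 : ℝ) := by
    rw [← lintegral_const_mul' _ _ hC]
    refine lintegral_mono fun z => ?_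
    exact step b v hw hlam (by rw [hρ]; ring) hv z
  have h3 := avg_ball_le (volume : Measure (Fin 3 → ℝ)) _ (IT_prod b v ((lam + 2) * w)) (R + ρ) ρ
  have h4 : R + ρ + ρ = R + lam * w := by rw [hρ]; ring
  rw [h4] at h3
  have h5 : (volume : Measure (Fin 3 → ℝ)) (closedBall 0 ρ) ≠ 0 :=
    (measure_closedBall_pos _ _ hρ0).ne'
  have h6 : (volume : Measure (Fin 3 → ℝ)) (closedBall 0 ρ) ≠ ⊤ := measure_closedBall_lt_top.ne
  have h7 := h1.trans (h2.trans (mul_le_mul_right h3 (ENNReal.ofReal (64 / lam ^ 3))))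
  rw [mul_left_comm] at h7
  exact (ENNReal.mul_le_mul_iff_right h5 h6).1 h7

/-- `K` steps.
PROOF. Induction on `K`, for all `w`, `R`. `K + 1`: `stepD`, then the induction hypothesis for `(lam+2) w`, `R + lam w`: the new radius is
`R + lam w + ((lam+2)^K - 1) (lam+2) w = R + ((lam+2)^(K+1) - 1) w - w`, smaller than `R + ((lam+2)^(K+1) - 1) w` (monotonicity in the radius). -/
theorem iter {ι : Fin 3 → Type} [∀ j, Fintype (ι j)] (b v : ∀ j, ι j → Fin 3 → ℝ) {lam : ℝ}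
    (hlam : 1 ≤ lam) (hv : ∀ j i k, k ≠ j → |v j i k| ≤ 1 / lam) (K : ℕ) :
    ∀ (w : ℝ), 0 < w → ∀ (R : ℝ),
    ∫⁻ x in closedBall (0 : Fin 3 → ℝ) R, ∏ j, (cnt j (b j) (v j) w x) ^ (1 / 2 : ℝ)
      ≤ ENNReal.ofReal (64 / lam ^ 3) ^ K *
        ∫⁻ x in closedBall (0 : Fin 3 → ℝ) (R + ((lam + 2) ^ K - 1) * w),
          ∏ j, (cnt j (b j) (v j) ((lam + 2) ^ K * w) x) ^ (1 / 2 : ℝ) := by
  induction K with
  | zero =>
    intro w hw R
    simp
  | succ K ih =>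
    intro w hw R
    have h1 := stepD b v hw hlam hv R
    have h2 := ih ((lam + 2) * w) (by positivity) (R + lam * w)
    have h3 : (lam + 2) ^ K * ((lam + 2) * w) = (lam + 2) ^ (K + 1) * w := by ring
    rw [h3] at h2
    have h4 : closedBall (0 : Fin 3 → ℝ) (R + lam * w + ((lam + 2) ^ K - 1) * ((lam + 2) * w)) ⊆
        closedBall (0 : Fin 3 → ℝ) (R + ((lam + 2) ^ (K + 1) - 1) * w) := by
      refine closedBall_subset_closedBall ?_
      have h5 : R + lam * w + ((lam + 2) ^ K - 1) * ((lam + 2) * w) =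
          R + ((lam + 2) ^ (K + 1) - 1) * w - w := by ring
      rw [h5]
      linarith
    calc _ ≤ _ := h1
      _ ≤ ENNReal.ofReal (64 / lam ^ 3) * (ENNReal.ofReal (64 / lam ^ 3) ^ K * _) :=
          mul_le_mul_right (h2.trans (mul_le_mul_right (lintegral_mono_set h4) _)) _
      _ = _ := by rw [pow_succ']; ring

/-- Trivial bound: `cnt ≤ card`.
PROOF. `cnt j b v w x ≤ card`, the product of the powers is at most the constant, `volume (closedBall 0 R) = ofReal (2R)^3`. -/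
theorem triv3 {ι : Fin 3 → Type} [∀ j, Fintype (ι j)] (b v : ∀ j, ι j → Fin 3 → ℝ) (w : ℝ) {R : ℝ} (hR : 0 ≤ R) :
    ∫⁻ x in closedBall (0 : Fin 3 → ℝ) R, ∏ j, (cnt j (b j) (v j) w x) ^ (1 / 2 : ℝ)
      ≤ ENNReal.ofReal (2 * R) ^ 3 * ∏ j, (Fintype.card (ι j) : ℝ≥0∞) ^ (1 / 2 : ℝ) := by
  have h1 : ∀ (j : Fin 3) (x : Fin 3 → ℝ), cnt j (b j) (v j) w x ≤ (Fintype.card (ι j) : ℝ≥0∞) := by
    intro j x
    unfold cnt
    refine (Finset.sum_le_card_nsmul Finset.univ _ 1 fun i _ => ?_).trans ?_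
    · exact Set.indicator_le_self _ (fun _ => (1 : ℝ≥0∞)) x
    · rw [nsmul_one, Finset.card_univ]
  have h2 : ∀ x : Fin 3 → ℝ, ∏ j, (cnt j (b j) (v j) w x) ^ (1 / 2 : ℝ) ≤
      ∏ j, (Fintype.card (ι j) : ℝ≥0∞) ^ (1 / 2 : ℝ) := by
    intro x
    refine Finset.prod_le_prod' fun j _ => ?_
    exact ENNReal.rpow_le_rpow (h1 j x) (by norm_num)
  calc ∫⁻ x in closedBall (0 : Fin 3 → ℝ) R, ∏ j, (cnt j (b j) (v j) w x) ^ (1 / 2 : ℝ)
      ≤ ∫⁻ _ in closedBall (0 : Fin 3 → ℝ) R, ∏ j, (Fintype.card (ι j) : ℝ≥0∞) ^ (1 / 2 : ℝ) :=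
        lintegral_mono h2
    _ = (∏ j, (Fintype.card (ι j) : ℝ≥0∞) ^ (1 / 2 : ℝ)) * volume (closedBall (0 : Fin 3 → ℝ) R) := by
        rw [lintegral_const, Measure.restrict_apply_univ]
    _ = _ := by
        rw [Real.volume_pi_closedBall _ hR, Fintype.card_fin, ENNReal.ofReal_pow (by positivity),
          mul_comm]

end Pool.Agent.Lib.MP_291c47_an.TK
end

section

/-!
# TASK TK KK: trilinear Kakeya in `ℝ³` for tubes almost parallel to the axes (Guth's short proof)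
-/

open scoped ENNReal NNReal BigOperators
open MeasureTheory Metric

namespace Pool.Agent.Lib.MP_291c47_an.TK

/-- PROOF (numbers). `lam ≥ 1` gives `64 / lam^3 = 64 ((lam+2)/lam)^3 (lam+2)^(-3) ≤ 1728 (lam+2)^(-3)`. With `L = lam + 2`, `L^K w ≤ 1 < L^(K+1) w`:
`(64/lam^3)^K ≤ 1728^K L^(-3K)`, `L^(-K) < L w`, and `1728^K ≤ (L^ε)^K = (L^K)^ε ≤ w^(-ε)` as `L^ε ≥ 1728` and `L^K ≤ 1/w`. So
`(64/lam^3)^K ≤ L^3 w^3 w^(-ε)`. -/
theorem num_iter {ε lam w : ℝ} (hε : 0 < ε) (hlam : 1 ≤ lam) (hL : (1728 : ℝ) ≤ (lam + 2) ^ ε) (hw : 0 < w) (K : ℕ)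
    (h1 : (lam + 2) ^ K * w ≤ 1) (h2 : 1 < (lam + 2) ^ (K + 1) * w) :
    (64 / lam ^ 3) ^ K ≤ (lam + 2) ^ 3 * w ^ (3 - ε) := by
  have hl0 : 0 < lam := by linarith
  have hL0 : 0 < lam + 2 := by linarith
  have hLK : 0 < (lam + 2) ^ K := by positivity
  have hl3 : 0 < lam ^ 3 := by positivity
  have hL3 : 0 < (lam + 2) ^ 3 := by positivity
  have s1 : 64 / lam ^ 3 ≤ 1728 / (lam + 2) ^ 3 := by
    rw [div_le_div_iff₀ hl3 hL3]
    have h27 : (lam + 2) ^ 3 ≤ (3 * lam) ^ 3 := pow_le_pow_left₀ hL0.le (by linarith) 3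
    nlinarith
  have s2 : (64 / lam ^ 3) ^ K ≤ (1728 / (lam + 2) ^ 3) ^ K :=
    pow_le_pow_left₀ (by positivity) s1 K
  have s3 : (1728 / (lam + 2) ^ 3) ^ K = 1728 ^ K * (1 / (lam + 2) ^ K) ^ 3 := by
    rw [div_pow, div_pow, one_pow, ← pow_mul, ← pow_mul, mul_comm 3 K, div_eq_mul_one_div]
  have s4 : (1728 : ℝ) ^ K ≤ w ^ (-ε) := by
    have t1 : (1728 : ℝ) ^ K ≤ ((lam + 2) ^ ε) ^ K := pow_le_pow_left₀ (by norm_num) hL K
    have t2 : ((lam + 2) ^ ε) ^ K = ((lam + 2) ^ K) ^ ε := by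
      rw [← Real.rpow_natCast, ← Real.rpow_natCast, ← Real.rpow_mul hL0.le, ← Real.rpow_mul hL0.le,
        mul_comm]
    have t3 : (lam + 2) ^ K ≤ w⁻¹ := by
      rw [← one_div, le_div_iff₀ hw]; exact h1
    have t4 : ((lam + 2) ^ K) ^ ε ≤ (w⁻¹) ^ ε := Real.rpow_le_rpow hLK.le t3 hε.le
    have t5 : (w⁻¹) ^ ε = w ^ (-ε) := by
      rw [Real.rpow_neg hw.le, Real.inv_rpow hw.le]
    linarith [t1, t2.le, t4, t5.le]
  have s5 : 1 / (lam + 2) ^ K ≤ (lam + 2) * w := by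
    rw [div_le_iff₀ hLK]
    have : (lam + 2) ^ (K + 1) * w = (lam + 2) * w * (lam + 2) ^ K := by ring
    linarith [h2, this.le]
  have s6 : (1 / (lam + 2) ^ K) ^ 3 ≤ ((lam + 2) * w) ^ 3 :=
    pow_le_pow_left₀ (by positivity) s5 3
  have s7 : w ^ (3 - ε) = w ^ 3 * w ^ (-ε) := by
    rw [sub_eq_add_neg, Real.rpow_add hw]
    congr 1
    exact_mod_cast Real.rpow_natCast w 3
  calc (64 / lam ^ 3) ^ K ≤ 1728 ^ K * (1 / (lam + 2) ^ K) ^ 3 := by rw [← s3]; exact s2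
    _ ≤ w ^ (-ε) * ((lam + 2) * w) ^ 3 := by
        apply mul_le_mul s4 s6 (by positivity) (Real.rpow_nonneg hw.le _)
    _ = (lam + 2) ^ 3 * w ^ (3 - ε) := by rw [s7]; ring

/-- Trilinear Kakeya in `ℝ³` with loss `w^(-ε)`.
PROOF. Choose `lam ≥ 1` with `(lam+2)^ε ≥ 1728` (e.g. `lam = 1728^(1/ε)`), `η = 1/lam`. If `w ≤ 1` let `K` be the natural number with
`(lam+2)^K ≤ 1/w < (lam+2)^(K+1)` (`exists_nat_pow_near`); by `iter` with `R = 1` the integral is at most `ofReal (64/lam^3)^K` times the integral over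
`closedBall 0 (1 + ((lam+2)^K - 1) w) ⊆ closedBall 0 2`, which is at most `4^3 ∏ card^(1/2)` by `triv3`; `num_iter`. `C = 64 (lam+2)^3`.
If `w > 1`: `triv3` with `R = 1`: at most `2^3 ∏ card^(1/2)` and `w^(3-ε) ≥ 1`. -/
theorem kak3 (ε : ℝ) (hε : 0 < ε) (hε3 : ε ≤ 3) :
    ∃ η : ℝ, 0 < η ∧ η ≤ 1 ∧ ∃ C : ℝ≥0, ∀ (ι : Fin 3 → Type) [∀ j, Fintype (ι j)]
      (b v : ∀ j, ι j → Fin 3 → ℝ) (w : ℝ), 0 < w → (∀ j i k, k ≠ j → |v j i k| ≤ η) →
      ∫⁻ x in closedBall (0 : Fin 3 → ℝ) 1, ∏ j, (cnt j (b j) (v j) w x) ^ (1 / 2 : ℝ)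
        ≤ C * ENNReal.ofReal w ^ (3 - ε) * ∏ j, (Fintype.card (ι j) : ℝ≥0∞) ^ (1 / 2 : ℝ) := by
  obtain ⟨lam, hlam, hL⟩ : ∃ lam : ℝ, 1 ≤ lam ∧ (1728 : ℝ) ≤ (lam + 2) ^ ε := by
    refine ⟨(1728 : ℝ) ^ (1 / ε), Real.one_le_rpow (by norm_num) (by positivity), ?_⟩
    have h1 : ((1728 : ℝ) ^ (1 / ε)) ^ ε = 1728 := by
      rw [← Real.rpow_mul (by norm_num), one_div, inv_mul_cancel₀ hε.ne', Real.rpow_one]
    calc (1728 : ℝ) = ((1728 : ℝ) ^ (1 / ε)) ^ ε := h1.symm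
      _ ≤ ((1728 : ℝ) ^ (1 / ε) + 2) ^ ε :=
          Real.rpow_le_rpow (by positivity) (by linarith) hε.le
  have hl0 : 0 < lam := by linarith
  have hL0 : 0 < lam + 2 := by linarith
  refine ⟨1 / lam, by positivity, by rw [div_le_one hl0]; exact hlam,
    Real.toNNReal (64 * (lam + 2) ^ 3), ?_⟩
  intro ι _ b v w hw hv
  have hCe : ((Real.toNNReal (64 * (lam + 2) ^ 3) : ℝ≥0) : ℝ≥0∞)
      = ENNReal.ofReal (64 * (lam + 2) ^ 3) := rfl
  rw [hCe, ENNReal.ofReal_rpow_of_pos hw]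
  rcases le_or_gt w 1 with hw1 | hw1
  · obtain ⟨K, hK1, hK2⟩ := exists_nat_pow_near (x := w⁻¹) (y := lam + 2)
      ((one_le_inv₀ hw).2 hw1) (by linarith)
    have h1 : (lam + 2) ^ K * w ≤ 1 := by
      rwa [← le_div_iff₀ hw, one_div]
    have h2 : 1 < (lam + 2) ^ (K + 1) * w := by
      rwa [← div_lt_iff₀ hw, one_div]
    have hnum := num_iter hε hlam hL hw K h1 h2
    have hit := iter b v hlam hv K w hw 1
    have hsub : closedBall (0 : Fin 3 → ℝ) (1 + ((lam + 2) ^ K - 1) * w)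
        ⊆ closedBall (0 : Fin 3 → ℝ) 2 := by
      apply closedBall_subset_closedBall
      nlinarith
    have hmono : ∫⁻ x in closedBall (0 : Fin 3 → ℝ) (1 + ((lam + 2) ^ K - 1) * w),
          ∏ j, (cnt j (b j) (v j) ((lam + 2) ^ K * w) x) ^ (1 / 2 : ℝ)
        ≤ ∫⁻ x in closedBall (0 : Fin 3 → ℝ) 2,
          ∏ j, (cnt j (b j) (v j) ((lam + 2) ^ K * w) x) ^ (1 / 2 : ℝ) :=
      lintegral_mono_set hsub
    have htr := triv3 b v ((lam + 2) ^ K * w) (R := 2) (by norm_num)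
    have hconst : ENNReal.ofReal (64 / lam ^ 3) ^ K * ENNReal.ofReal (2 * 2) ^ 3
        ≤ ENNReal.ofReal (64 * (lam + 2) ^ 3) * ENNReal.ofReal (w ^ (3 - ε)) := by
      rw [← ENNReal.ofReal_pow (by positivity), ← ENNReal.ofReal_pow (by positivity),
        ← ENNReal.ofReal_mul (by positivity), ← ENNReal.ofReal_mul (by positivity)]
      apply ENNReal.ofReal_le_ofReal
      nlinarith
    calc ∫⁻ x in closedBall (0 : Fin 3 → ℝ) 1, ∏ j, (cnt j (b j) (v j) w x) ^ (1 / 2 : ℝ)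
        ≤ ENNReal.ofReal (64 / lam ^ 3) ^ K * (ENNReal.ofReal (2 * 2) ^ 3 *
            ∏ j, (Fintype.card (ι j) : ℝ≥0∞) ^ (1 / 2 : ℝ)) :=
          hit.trans (mul_le_mul_right (hmono.trans htr) _)
      _ = (ENNReal.ofReal (64 / lam ^ 3) ^ K * ENNReal.ofReal (2 * 2) ^ 3) *
            ∏ j, (Fintype.card (ι j) : ℝ≥0∞) ^ (1 / 2 : ℝ) := by rw [mul_assoc]
      _ ≤ _ := mul_le_mul_left hconst _
  · have htr := triv3 b v w (R := 1) (by norm_num)
    refine htr.trans (mul_le_mul_left ?_ _)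
    rw [← ENNReal.ofReal_pow (by positivity), ← ENNReal.ofReal_mul (by positivity)]
    apply ENNReal.ofReal_le_ofReal
    have hw3 : 1 ≤ w ^ (3 - ε) := Real.one_le_rpow hw1.le (by linarith)
    have h8 : (1 : ℝ) ≤ (lam + 2) ^ 3 := one_le_pow₀ (by linarith)
    nlinarith

end Pool.Agent.Lib.MP_291c47_an.TK
end
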