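import Pool.Agent.Lib.MP_291c47_an.Mg.G001
import Pool.Agent.Lib.MP_291c47_an.TK.Defs

section

/-!
# TASK TK MC: model estimate for the exponent `1/2`
-/

open scoped ENNReal NNReal BigOperators
open MeasureTheory Metric

namespace Pool.Agent.Lib.MP_291c47_an.TK

/-- PROOF. The set is `closedBall 0 1 ×ˢ univ`; `lintegral_prod` for the product of the restricted measures (`Measure.prod_restrict`, `volume = volume.prod volume`
on `X`), then `fibC` for every `x` and `kak3`. `C` is `2` times the constant of `kak3`; `ofReal (2w) * ofReal w ^ (3 - ε) = 2 * ofReal w ^ (4 - ε)`. -/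
theorem modelC (ε : ℝ) (hε : 0 < ε) (hε3 : ε ≤ 3) :
    ∃ η : ℝ, 0 < η ∧ η ≤ 1 ∧ ∃ C : ℝ≥0, ∀ (ι : Fin 3 → Type) [∀ j, Fintype (ι j)]
      (b v : ∀ j, ι j → Fin 3 → ℝ) (h u : ∀ j, ι j → ℝ) (w : ℝ), 0 < w → (∀ j i k, k ≠ j → |v j i k| ≤ η) →
      ∫⁻ p in {p : X | p.1 ∈ closedBall (0 : Fin 3 → ℝ) 1},
          ∏ j, (cnt4 j (b j) (v j) (h j) (u j) w p) ^ (1 / 2 : ℝ)
        ≤ C * ENNReal.ofReal w ^ (4 - ε) * ∏ j, (Fintype.card (ι j) : ℝ≥0∞) ^ (1 / 2 : ℝ) := by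
  obtain ⟨η, hη, hη1, C, hC⟩ := kak3 ε hε hε3
  refine ⟨η, hη, hη1, 2 * C, ?_⟩
  intro ι _ b v h u w hw hv
  have hmeas : Measurable (fun p : X => ∏ j, (cnt4 j (b j) (v j) (h j) (u j) w p) ^ (1 / 2 : ℝ)) :=
    Finset.measurable_prod _ (fun j _ => (measurable_cnt4 j (b j) (v j) (h j) (u j) w).pow_const _)
  have hset : {p : X | p.1 ∈ closedBall (0 : Fin 3 → ℝ) 1} =
      closedBall (0 : Fin 3 → ℝ) 1 ×ˢ (Set.univ : Set ℝ) := by
    ext p
    simp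
  have hfub : ∫⁻ p in {p : X | p.1 ∈ closedBall (0 : Fin 3 → ℝ) 1},
      ∏ j, (cnt4 j (b j) (v j) (h j) (u j) w p) ^ (1 / 2 : ℝ) =
      ∫⁻ x in closedBall (0 : Fin 3 → ℝ) 1, ∫⁻ y : ℝ,
        ∏ j, (cnt4 j (b j) (v j) (h j) (u j) w (x, y)) ^ (1 / 2 : ℝ) := by
    rw [hset, Measure.volume_eq_prod, ← Measure.prod_restrict, Measure.restrict_univ,
      lintegral_prod _ hmeas.aemeasurable]
  have hw0 : ENNReal.ofReal w ≠ 0 := by
    simpa using hw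
  rw [hfub]
  calc ∫⁻ x in closedBall (0 : Fin 3 → ℝ) 1, ∫⁻ y : ℝ,
        ∏ j, (cnt4 j (b j) (v j) (h j) (u j) w (x, y)) ^ (1 / 2 : ℝ)
      ≤ ∫⁻ x in closedBall (0 : Fin 3 → ℝ) 1,
        ENNReal.ofReal (2 * w) * ∏ j, (cnt j (b j) (v j) w x) ^ (1 / 2 : ℝ) :=
        lintegral_mono (fun x => fibC b v h u hw x)
    _ = ENNReal.ofReal (2 * w) * ∫⁻ x in closedBall (0 : Fin 3 → ℝ) 1,
        ∏ j, (cnt j (b j) (v j) w x) ^ (1 / 2 : ℝ) :=
        lintegral_const_mul' _ _ ENNReal.ofReal_ne_top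
    _ ≤ ENNReal.ofReal (2 * w) * (C * ENNReal.ofReal w ^ (3 - ε) *
        ∏ j, (Fintype.card (ι j) : ℝ≥0∞) ^ (1 / 2 : ℝ)) :=
        mul_le_mul_right (hC ι b v w hw hv) _
    _ = ((2 * C : ℝ≥0) : ℝ≥0∞) * ENNReal.ofReal w ^ (4 - ε) *
        ∏ j, (Fintype.card (ι j) : ℝ≥0∞) ^ (1 / 2 : ℝ) := by
        have h4 : ENNReal.ofReal w ^ (4 - ε) = ENNReal.ofReal w * ENNReal.ofReal w ^ (3 - ε) := by
          have : (4 - ε : ℝ) = 1 + (3 - ε) := by ring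
          rw [this, ENNReal.rpow_add _ _ hw0 ENNReal.ofReal_ne_top, ENNReal.rpow_one]
        have h2 : ENNReal.ofReal (2 * w) = 2 * ENNReal.ofReal w := by
          rw [ENNReal.ofReal_mul (by norm_num), ENNReal.ofReal_ofNat]
        rw [h4, h2, ENNReal.coe_mul, ENNReal.coe_ofNat]
        ring

end Pool.Agent.Lib.MP_291c47_an.TK
end

section

/-!
# TASK TK GE: tubes in coordinates
-/

open scoped ENNReal NNReal BigOperators
open MeasureTheory Metric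

namespace Pool.Agent.Lib.MP_291c47_an.TK

/-- PROOF. `frame` is orthonormal. -/
theorem norm_dir {δ : ℝ} (T : Tube δ) : ‖T.dir‖ = 1 := by
  exact T.frame.orthonormal.1 0

/-- The end points of the axis of the tube belong to the tube (`0 ≤ δ`).
PROOF. inner products of `± (1/2) frame 0` with the frame are `± 1/2, 0, 0, 0`. -/
theorem mem_end {δ : ℝ} (hδ : 0 ≤ δ) (T : Tube δ) (s : ℝ) (hs : |s| ≤ 1 / 2) :
    T.center + s • T.dir ∈ T.carrier := by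
  have ho := orthonormal_iff_ite.1 T.frame.orthonormal
  have h1 : T.center + s • T.dir - T.center = s • T.dir := by abel
  refine ⟨?_, ?_⟩
  · rw [h1, inner_smul_right]
    have h00 : inner ℝ (T.frame 0) T.dir = (1 : ℝ) := by
      have := ho 0 0
      rw [if_pos rfl] at this
      exact this
    rw [h00, mul_one]
    exact hs
  · intro i hi
    rw [h1, inner_smul_right]
    have hi0 : inner ℝ (T.frame i) T.dir = (0 : ℝ) := by
      have := ho i 0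
      rw [if_neg hi] at this
      exact this
    rw [hi0, mul_zero, abs_zero]
    linarith

/-- Decomposition of a point of the tube.
PROOF. `s = inner (frame 0) (x - center)`, `r = x - center - s dir = ∑_{i≠0} inner (frame i) (x - center) frame i`, `‖r‖² = ∑_{i ≠ 0} .. ≤ 3 δ²/4 ≤ δ²`
(`OrthonormalBasis.sum_repr`, `OrthonormalBasis.norm_sq..` / Parseval). -/
theorem decomp {δ : ℝ} (hδ : 0 ≤ δ) (T : Tube δ) {x : E4} (hx : x ∈ T.carrier) :
    ∃ (s : ℝ) (r : E4), |s| ≤ 1 / 2 ∧ ‖r‖ ≤ δ ∧ x = T.center + s • T.dir + r := by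
  obtain ⟨h0, hi⟩ := hx
  have hrep : ∑ i, inner ℝ (T.frame i) (x - T.center) • T.frame i = x - T.center :=
    T.frame.sum_repr' (x - T.center)
  set y : E4 := x - T.center with hy
  refine ⟨inner ℝ (T.frame 0) y, y - (inner ℝ (T.frame 0) y) • T.dir, h0, ?_, ?_⟩
  · have hns : ‖y - (inner ℝ (T.frame 0) y) • T.dir‖ ^ 2 =
        ∑ i, ‖inner ℝ (T.frame i) (y - (inner ℝ (T.frame 0) y) • T.dir)‖ ^ 2 :=
      (T.frame.sum_sq_norm_inner_right _).symm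
    have ho := orthonormal_iff_ite.1 T.frame.orthonormal
    have hc : ∀ i : Fin 4, ‖inner ℝ (T.frame i) (y - (inner ℝ (T.frame 0) y) • T.dir)‖ ^ 2 ≤
        if i = 0 then 0 else (δ / 2) ^ 2 := by
      intro i
      rw [inner_sub_right, inner_smul_right]
      have hoi : inner ℝ (T.frame i) T.dir = (if i = 0 then (1 : ℝ) else 0) := ho i 0
      rw [hoi]
      by_cases h : i = 0
      · rw [if_pos h, if_pos h, h]
        simp
      · rw [if_neg h, if_neg h, mul_zero, sub_zero, Real.norm_eq_abs]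
        exact pow_le_pow_left₀ (abs_nonneg _) (hi i h) 2
    have hle : ‖y - (inner ℝ (T.frame 0) y) • T.dir‖ ^ 2 ≤ δ ^ 2 := by
      rw [hns]
      refine (Finset.sum_le_sum (fun i _ => hc i)).trans ?_
      rw [Fin.sum_univ_four, if_pos rfl, if_neg (by decide), if_neg (by decide), if_neg (by decide)]
      nlinarith [sq_nonneg δ]
    exact abs_le_of_sq_le_sq' hle hδ |>.2
  · have : x = T.center + y := by rw [hy]; abel
    refine this.trans ?_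
    abel

/-- PROOF. `isClosed` of the conditions. -/
theorem isClosed_carrier {δ : ℝ} (T : Tube δ) : IsClosed T.carrier := by
  have h : T.carrier = {x | |inner ℝ (T.frame 0) (x - T.center)| ≤ 1 / 2} ∩
      ⋂ i : Fin 4, ⋂ _ : i ≠ 0, {x | |inner ℝ (T.frame i) (x - T.center)| ≤ δ / 2} := by
    ext x
    simp [Tube.carrier]
  rw [h]
  refine IsClosed.inter ?_ ?_
  · exact isClosed_le (by fun_prop) continuous_const
  · refine isClosed_iInter (fun i => isClosed_iInter (fun _ => ?_))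
    exact isClosed_le (by fun_prop) continuous_const

theorem measurable_cntE {δ : ℝ} {ι : Type} [Fintype ι] (T : ι → Tube δ) : Measurable (cntE T) := by
  unfold cntE
  refine Finset.measurable_sum _ (fun i _ => ?_)
  exact measurable_const.indicator (isClosed_carrier (T i)).measurableSet

private theorem GE_Phi_single (e : Fin 3 → E4) (ω : E4) (j : Fin 3) :
    Phi e ω (Pi.single j 1, 0) = e j := by
  change (∑ k, (Pi.single j 1 : Fin 3 → ℝ) k • e k) + (0 : ℝ) • ω = e j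
  rw [zero_smul, add_zero, Finset.sum_eq_single j]
  · rw [Pi.single_eq_same, one_smul]
  · intro k _ hk
    rw [Pi.single_eq_of_ne hk, zero_smul]
  · intro h
    exact absurd (Finset.mem_univ j) h

/-- `Λ ≥ 1`. PROOF. `Ψ (e 0) = (Pi.single 0 1, 0)` (`Coord.right`, `Phi e ω (Pi.single 0 1, 0) = e 0`) has norm `1`, and `‖Ψ (e 0)‖ ≤ Λ ‖e 0‖ = Λ`. -/
theorem coord_one_le {e : Fin 3 → E4} {ω : E4} {Λ : ℝ} {Ψ : E4 →ₗ[ℝ] X} (h : Coord e ω Λ Ψ) : 1 ≤ Λ := by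
  have he : Phi e ω (Pi.single 0 1, 0) = e 0 := GE_Phi_single e ω 0
  have h1 : Ψ (e 0) = (Pi.single 0 1, 0) := by rw [← he, h.right]
  have h2 := h.bound (e 0)
  rw [h1, h.one_e 0, mul_one] at h2
  refine le_trans ?_ h2
  have h3 : ‖((Pi.single 0 1, 0) : X).1 0‖ ≤ ‖((Pi.single 0 1, 0) : X)‖ :=
    (norm_le_pi_norm ((Pi.single 0 1, 0) : X).1 0).trans (norm_fst_le _)
  simpa using h3

/-- Coordinates of a direction close to `e j`.
PROOF. `Ψ (e j) = (Pi.single j 1, 0)` by `Coord.right` (`Phi e ω (Pi.single j 1, 0) = e j`). `‖Ψ dir - Ψ (e j)‖ ≤ Λ ‖dir - e j‖ ≤ η/4`, so `|(Ψ dir).1 j - 1| ≤ η/4 ≤ 1/4`,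
`|(Ψ dir).1 k| ≤ η/4` for `k ≠ j`, `|(Ψ dir).2| ≤ η/4`. -/
theorem coord_dir {δ : ℝ} {e : Fin 3 → E4} {ω : E4} {Λ η : ℝ} {Ψ : E4 →ₗ[ℝ] X} (h : Coord e ω Λ Ψ)
    (hη1 : η ≤ 1) (j : Fin 3) (T : Tube δ) (hT : Λ * ‖T.dir - e j‖ ≤ η / 4) :
    3 / 4 ≤ (Ψ T.dir).1 j ∧ (Ψ T.dir).1 j ≤ 5 / 4 ∧ (∀ k, k ≠ j → |(Ψ T.dir).1 k| ≤ η / 4) ∧
      |(Ψ T.dir).2| ≤ η / 4 := by
  have h1 : Ψ (e j) = (Pi.single j 1, 0) := by rw [← GE_Phi_single e ω j, h.right]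
  have hb : ‖Ψ T.dir - (Pi.single j 1, 0)‖ ≤ η / 4 := by
    rw [← h1, ← map_sub]
    exact (h.bound _).trans hT
  have hf : ∀ k, |(Ψ T.dir).1 k - (Pi.single j 1 : Fin 3 → ℝ) k| ≤ η / 4 := by
    intro k
    have h3 : ‖(Ψ T.dir - (Pi.single j 1, 0)).1 k‖ ≤ ‖Ψ T.dir - (Pi.single j 1, 0)‖ :=
      (norm_le_pi_norm (Ψ T.dir - (Pi.single j 1, 0)).1 k).trans (norm_fst_le _)
    exact h3.trans hb
  have hs : |(Ψ T.dir).2| ≤ η / 4 := by
    have h3 : ‖(Ψ T.dir - (Pi.single j 1, 0)).2‖ ≤ ‖Ψ T.dir - (Pi.single j 1, 0)‖ := norm_snd_le _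
    have h4 := h3.trans hb
    simpa using h4
  have hj := hf j
  rw [Pi.single_eq_same] at hj
  have hj' := abs_le.1 hj
  refine ⟨by linarith, by linarith, ?_, hs⟩
  intro k hk
  have := hf k
  rwa [Pi.single_eq_of_ne hk, sub_zero] at this

/-- PROOF. From `coord_dir`: `(η/4)/(3/4) = η/3 ≤ η/2`. -/
theorem slopes {δ : ℝ} {e : Fin 3 → E4} {ω : E4} {Λ η : ℝ} {Ψ : E4 →ₗ[ℝ] X} (h : Coord e ω Λ Ψ)
    (hη1 : η ≤ 1) (j : Fin 3) (T : Tube δ) (hT : Λ * ‖T.dir - e j‖ ≤ η / 4) :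
    (∀ k, k ≠ j → |sl Ψ j T k| ≤ η / 2) ∧ |su Ψ j T| ≤ η / 2 := by
  obtain ⟨h1, h2, h3, h4⟩ := coord_dir h hη1 j T hT
  have hp : 0 < (Ψ T.dir).1 j := by linarith
  have hη : 0 ≤ η := by
    have := abs_nonneg ((Ψ T.dir).2)
    linarith
  refine ⟨?_, ?_⟩
  · intro k hk
    unfold sl
    rw [abs_div, abs_of_pos hp, div_le_iff₀ hp]
    have := h3 k hk
    nlinarith
  · unfold su
    rw [abs_div, abs_of_pos hp, div_le_iff₀ hp]
    nlinarith

/-- The tube is contained in the model tube of half-width `2 Λ δ`.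
PROOF. By `decomp` `x = c + s dir + r`; `p = Ψ x - z = (Ψ c - z) + s Ψ dir + Ψ r`, `‖Ψ r‖ ≤ Λ δ`. For `k ≠ j`: `p.1 k - pb k - sl k * p.1 j = (Ψ r).1 k - sl k (Ψ r).1 j`
(the terms with `s` cancel because `(Ψ dir).1 k = sl k (Ψ dir).1 j`), of absolute value `≤ Λδ (1 + η/2) ≤ 2Λδ`. The same for the last coordinate. -/
theorem tube_model {δ : ℝ} (hδ : 0 ≤ δ) {e : Fin 3 → E4} {ω : E4} {Λ η : ℝ} {Ψ : E4 →ₗ[ℝ] X} (h : Coord e ω Λ Ψ)
    (hη1 : η ≤ 1) (j : Fin 3) (T : Tube δ) (hT : Λ * ‖T.dir - e j‖ ≤ η / 4) (z : X) {x : E4}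
    (hx : x ∈ T.carrier) :
    Ψ x - z ∈ T4 j (pb Ψ j z T) (sl Ψ j T) (ph Ψ j z T) (su Ψ j T) (2 * Λ * δ) := by
  obtain ⟨s, r, hs, hr, rfl⟩ := decomp hδ T hx
  obtain ⟨hd1, hd2, hd3, hd4⟩ := coord_dir h hη1 j T hT
  obtain ⟨hs1, hs2⟩ := slopes h hη1 j T hT
  have hΛ : 1 ≤ Λ := coord_one_le h
  have hη : 0 ≤ η := by
    have := abs_nonneg ((Ψ T.dir).2)
    linarith
  have hp : (Ψ T.dir).1 j ≠ 0 := by
    have : 0 < (Ψ T.dir).1 j := by linarith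
    exact this.ne'
  have hΨr : ‖Ψ r‖ ≤ Λ * δ := (h.bound r).trans (mul_le_mul_of_nonneg_left hr (by linarith))
  have hr1 : ∀ k, |(Ψ r).1 k| ≤ Λ * δ := fun k =>
    ((norm_le_pi_norm (Ψ r).1 k).trans (norm_fst_le _)).trans hΨr
  have hr2 : |(Ψ r).2| ≤ Λ * δ := (norm_snd_le _).trans hΨr
  have hL : 0 ≤ Λ * δ := mul_nonneg (by linarith) hδ
  have hΨ : Ψ (T.center + s • T.dir + r) = Ψ T.center + s • Ψ T.dir + Ψ r := by
    rw [map_add, map_add, map_smul]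
  have key : ∀ a b v : ℝ, |a| ≤ Λ * δ → |b| ≤ Λ * δ → |v| ≤ η / 2 → |a - v * b| ≤ 2 * Λ * δ := by
    intro a b v ha hb hv
    have h1 : |v * b| ≤ 1 * (Λ * δ) := by
      rw [abs_mul]
      exact mul_le_mul (by linarith) hb (abs_nonneg _) (by norm_num)
    calc |a - v * b| ≤ |a| + |v * b| := abs_sub _ _
      _ ≤ Λ * δ + 1 * (Λ * δ) := add_le_add ha h1
      _ = 2 * Λ * δ := by ring
  refine ⟨?_, ?_⟩
  · intro k hk
    have e1 : (Ψ (T.center + s • T.dir + r) - z).1 k - pb Ψ j z T k -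
        sl Ψ j T k * (Ψ (T.center + s • T.dir + r) - z).1 j = (Ψ r).1 k - sl Ψ j T k * (Ψ r).1 j := by
      rw [hΨ]
      simp only [pb, Prod.fst_sub, Prod.fst_add, Prod.smul_fst, Pi.sub_apply, Pi.add_apply,
        Pi.smul_apply, smul_eq_mul]
      have e2 : sl Ψ j T k * (Ψ T.dir).1 j = (Ψ T.dir).1 k := by
        unfold sl
        rw [div_mul_cancel₀ _ hp]
      linear_combination -s * e2
    rw [e1]
    exact key _ _ _ (hr1 k) (hr1 j) (hs1 k hk)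
  · have e1 : (Ψ (T.center + s • T.dir + r) - z).2 - ph Ψ j z T -
        su Ψ j T * (Ψ (T.center + s • T.dir + r) - z).1 j = (Ψ r).2 - su Ψ j T * (Ψ r).1 j := by
      rw [hΨ]
      simp only [ph, Prod.fst_sub, Prod.fst_add, Prod.smul_fst, Prod.snd_sub, Prod.snd_add,
        Prod.smul_snd, Pi.sub_apply, Pi.add_apply, Pi.smul_apply, smul_eq_mul]
      have e2 : su Ψ j T * (Ψ T.dir).1 j = (Ψ T.dir).2 := by
        unfold su
        rw [div_mul_cancel₀ _ hp]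
      linear_combination -s * e2
    rw [e1]
    exact key _ _ _ hr2 (hr1 j) hs2

end Pool.Agent.Lib.MP_291c47_an.TK
end

section

/-!
# TASK TK AZ: number of tubes meeting a unit cube of the coordinates
-/

open scoped ENNReal NNReal BigOperators Classical
open MeasureTheory Metric

namespace Pool.Agent.Lib.MP_291c47_an.TK

/-- indices of the tubes which meet the unit cube with centre `z` (in coordinates) -/
noncomputable def meets {δ : ℝ} {ι : Type} [Fintype ι] (Ψ : E4 →ₗ[ℝ] X) (T : ι → Tube δ) (z : X) : Finset ι :=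
  Finset.univ.filter (fun i => ∃ x ∈ (T i).carrier, ‖Ψ x - z‖ ≤ 1 / 2)

/-- a measurable upper bound of the number of the tubes meeting the unit cube with centre `z` -/
noncomputable def nb {δ : ℝ} {ι : Type} [Fintype ι] (Λ : ℝ) (Ψ : E4 →ₗ[ℝ] X) (T : ι → Tube δ) (z : X) : ℝ≥0∞ :=
  ∑ i, (closedBall (Ψ (T i).center) (3 / 2 * Λ + 1 / 2)).indicator (fun _ => (1 : ℝ≥0∞)) z

theorem measurable_nb {δ : ℝ} {ι : Type} [Fintype ι] (Λ : ℝ) (Ψ : E4 →ₗ[ℝ] X) (T : ι → Tube δ) :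
    Measurable (nb Λ Ψ T) := by
  unfold nb
  exact Finset.measurable_sum _ fun i _ => measurable_const.indicator measurableSet_closedBall

theorem nb_le_card {δ : ℝ} {ι : Type} [Fintype ι] (Λ : ℝ) (Ψ : E4 →ₗ[ℝ] X) (T : ι → Tube δ) (z : X) :
    nb Λ Ψ T z ≤ (Fintype.card ι : ℝ≥0∞) := by
  unfold nb
  have h1 : ∀ i ∈ (Finset.univ : Finset ι),
      (closedBall (Ψ (T i).center) (3 / 2 * Λ + 1 / 2)).indicator (fun _ => (1 : ℝ≥0∞)) z ≤ 1 := by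
    intro i _
    exact Set.indicator_le_self' (fun _ _ => zero_le_one) z
  refine (Finset.sum_le_sum h1).trans (le_of_eq ?_)
  rw [Finset.sum_const, Finset.card_univ, nsmul_eq_mul, mul_one]

/-- PROOF. Volume of a sup-norm ball of radius `R` in `X` is `(2R)^4` (`closedBall_prod_same`, `Measure.volume_eq_prod`, `Real.volume_pi_closedBall`, `Real.volume_closedBall`). -/
theorem lintegral_nb {δ : ℝ} {ι : Type} [Fintype ι] {Λ : ℝ} (hΛ : 0 ≤ Λ) (Ψ : E4 →ₗ[ℝ] X) (T : ι → Tube δ) :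
    ∫⁻ z, nb Λ Ψ T z = ENNReal.ofReal (3 * Λ + 1) ^ 4 * (Fintype.card ι : ℝ≥0∞) := by
  have hR : 0 ≤ 3 / 2 * Λ + 1 / 2 := by linarith
  have hvol : ∀ c : X, volume (closedBall c (3 / 2 * Λ + 1 / 2)) = ENNReal.ofReal (3 * Λ + 1) ^ 4 := by
    intro c
    have h2 : 2 * (3 / 2 * Λ + 1 / 2) = 3 * Λ + 1 := by ring
    rw [show c = (c.1, c.2) from rfl, ← closedBall_prod_same, Measure.volume_eq_prod, Measure.prod_prod,
      Real.volume_pi_closedBall _ hR, Real.volume_closedBall, h2, Fintype.card_fin,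
      ENNReal.ofReal_pow (by linarith), ← pow_succ]
  unfold nb
  rw [lintegral_finsetSum _ fun i _ => measurable_const.indicator measurableSet_closedBall]
  have h1 : ∀ i ∈ (Finset.univ : Finset ι),
      ∫⁻ z, (closedBall (Ψ (T i).center) (3 / 2 * Λ + 1 / 2)).indicator (fun _ => (1 : ℝ≥0∞)) z =
        ENNReal.ofReal (3 * Λ + 1) ^ 4 := by
    intro i _
    rw [lintegral_indicator_const measurableSet_closedBall, one_mul, hvol]
  rw [Finset.sum_congr rfl h1, Finset.sum_const, Finset.card_univ, nsmul_eq_mul, mul_comm]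

/-- PROOF. If `x ∈ T i` then `‖x - center‖ ≤ 1/2 + δ ≤ 3/2` (`decomp`), so `‖Ψ x - Ψ center‖ ≤ 3Λ/2`, and `‖Ψ x - z‖ ≤ 1/2` gives `z ∈ closedBall (Ψ center) (3Λ/2 + 1/2)`.
`card = ∑ i, 1[i ∈ meets]` termwise. -/
theorem meets_le_nb {δ : ℝ} (hδ : 0 ≤ δ) (hδ1 : δ ≤ 1) {e : Fin 3 → E4} {ω : E4} {Λ : ℝ} {Ψ : E4 →ₗ[ℝ] X}
    (h : Coord e ω Λ Ψ) {ι : Type} [Fintype ι] (T : ι → Tube δ) (z : X) :
    ((meets Ψ T z).card : ℝ≥0∞) ≤ nb Λ Ψ T z := by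
  unfold meets nb
  rw [Finset.card_filter]
  push_cast
  refine Finset.sum_le_sum fun i _ => ?_
  by_cases hi : ∃ x ∈ (T i).carrier, ‖Ψ x - z‖ ≤ 1 / 2
  · rw [if_pos hi]
    obtain ⟨x, hx, hxz⟩ := hi
    have hmem : z ∈ closedBall (Ψ (T i).center) (3 / 2 * Λ + 1 / 2) := by
      obtain ⟨s, r, hs, hr, hxe⟩ := decomp hδ (T i) hx
      have h1 : ‖x - (T i).center‖ ≤ 3 / 2 := by
        have h2 : x - (T i).center = s • (T i).dir + r := by
          rw [hxe]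
          abel
        rw [h2]
        refine (norm_add_le _ _).trans ?_
        rw [norm_smul, norm_dir, mul_one, Real.norm_eq_abs]
        linarith
      have hΛ := coord_one_le h
      have h3 : ‖Ψ x - Ψ (T i).center‖ ≤ 3 / 2 * Λ := by
        rw [← map_sub]
        refine (h.bound _).trans ?_
        nlinarith [norm_nonneg (x - (T i).center)]
      rw [mem_closedBall, dist_eq_norm]
      have h4 : z - Ψ (T i).center = (Ψ x - Ψ (T i).center) - (Ψ x - z) := by abel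
      rw [h4]
      exact (norm_sub_le _ _).trans (add_le_add h3 hxz)
    rw [Set.indicator_of_mem hmem]
  · rw [if_neg hi]
    exact bot_le

/-- PROOF. `ENNReal.lintegral_prod_norm_pow_le` with exponents `1/3`, and `lintegral_nb`: `∏_j (ofReal(3Λ+1)^4 card)^(1/3)`. -/
theorem int_nb_third {δ : ℝ} {ι : Fin 3 → Type} [∀ j, Fintype (ι j)] {Λ : ℝ} (hΛ : 0 ≤ Λ) (Ψ : E4 →ₗ[ℝ] X)
    (T : ∀ j, ι j → Tube δ) :
    ∫⁻ z, ∏ j, (nb Λ Ψ (T j) z) ^ (1 / 3 : ℝ)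
      ≤ ENNReal.ofReal (3 * Λ + 1) ^ 4 * ∏ j, (Fintype.card (ι j) : ℝ≥0∞) ^ (1 / 3 : ℝ) := by
  have h1 := ENNReal.lintegral_prod_norm_pow_le (μ := (volume : Measure X)) (Finset.univ : Finset (Fin 3))
    (f := fun j => nb Λ Ψ (T j)) (fun j _ => (measurable_nb Λ Ψ (T j)).aemeasurable)
    (p := fun _ => (1 / 3 : ℝ)) (by rw [Finset.sum_const, Finset.card_univ, Fintype.card_fin]; norm_num)
    (fun _ _ => by norm_num)
  refine h1.trans (le_of_eq ?_)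
  have h2 : ∀ j ∈ (Finset.univ : Finset (Fin 3)), (∫⁻ z, nb Λ Ψ (T j) z) ^ (1 / 3 : ℝ) =
      (ENNReal.ofReal (3 * Λ + 1) ^ 4) ^ (1 / 3 : ℝ) * (Fintype.card (ι j) : ℝ≥0∞) ^ (1 / 3 : ℝ) := by
    intro j _
    rw [lintegral_nb hΛ, ENNReal.mul_rpow_of_nonneg _ _ (by norm_num)]
  rw [Finset.prod_congr rfl h2, Finset.prod_mul_distrib, Finset.prod_const, Finset.card_univ, Fintype.card_fin,
    ← ENNReal.rpow_natCast, ← ENNReal.rpow_mul]
  norm_num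

/-- PROOF. `nb^(1/2) = nb^(1/3) nb^(1/6) ≤ nb^(1/3) card^(1/6)` (`nb_le_card`), then `int_nb_third`. -/
theorem int_nb_half {δ : ℝ} {ι : Fin 3 → Type} [∀ j, Fintype (ι j)] {Λ : ℝ} (hΛ : 0 ≤ Λ) (Ψ : E4 →ₗ[ℝ] X)
    (T : ∀ j, ι j → Tube δ) :
    ∫⁻ z, ∏ j, (nb Λ Ψ (T j) z) ^ (1 / 2 : ℝ)
      ≤ ENNReal.ofReal (3 * Λ + 1) ^ 4 * ∏ j, (Fintype.card (ι j) : ℝ≥0∞) ^ (1 / 2 : ℝ) := by
  have hsplit : ∀ x : ℝ≥0∞, x ^ (1 / 2 : ℝ) = x ^ (1 / 3 : ℝ) * x ^ (1 / 6 : ℝ) := by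
    intro x
    rw [← ENNReal.rpow_add_of_nonneg _ _ (by norm_num) (by norm_num)]
    norm_num
  have h1 : ∀ z, ∏ j, (nb Λ Ψ (T j) z) ^ (1 / 2 : ℝ) ≤
      (∏ j, (nb Λ Ψ (T j) z) ^ (1 / 3 : ℝ)) * ∏ j, (Fintype.card (ι j) : ℝ≥0∞) ^ (1 / 6 : ℝ) := by
    intro z
    rw [← Finset.prod_mul_distrib]
    refine Finset.prod_le_prod' fun j _ => ?_
    rw [hsplit]
    exact mul_le_mul_right (ENNReal.rpow_le_rpow (nb_le_card Λ Ψ (T j) z) (by norm_num)) _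
  refine (lintegral_mono h1).trans ?_
  have hm : Measurable fun z => ∏ j, (nb Λ Ψ (T j) z) ^ (1 / 3 : ℝ) :=
    Finset.measurable_prod _ fun j _ => (measurable_nb Λ Ψ (T j)).pow_const _
  rw [lintegral_mul_const _ hm]
  refine (mul_le_mul_left (int_nb_third hΛ Ψ T) _).trans (le_of_eq ?_)
  rw [mul_assoc, ← Finset.prod_mul_distrib]
  congr 1
  exact Finset.prod_congr rfl fun j _ => (hsplit _).symm

end Pool.Agent.Lib.MP_291c47_an.TK
end

section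

/-!
# TASK TK PL: tubes contained in the neighbourhood of a plane `{a + s u + t ω}`

Write `E = Λ * A * δ` (error). `Ψ ω = (0, 1)` (`Coord.right` for `p = (0, 1)`), so the first components of points of the plane are `(Ψ a).1 + s (Ψ u).1`.
-/

open scoped ENNReal NNReal BigOperators
open MeasureTheory Metric

namespace Pool.Agent.Lib.MP_291c47_an.TK

private theorem PL_comp {e : Fin 3 → E4} {ω : E4} {Λ : ℝ} {Ψ : E4 →ₗ[ℝ] X} (h : Coord e ω Λ Ψ) (y : E4) {B : ℝ}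
    (hy : ‖y‖ ≤ B) (k : Fin 3) : |(Ψ y).1 k| ≤ Λ * B := by
  have h1 : 1 ≤ Λ := coord_one_le h
  calc |(Ψ y).1 k| = ‖(Ψ y).1 k‖ := (Real.norm_eq_abs _).symm
    _ ≤ ‖(Ψ y).1‖ := norm_le_pi_norm _ k
    _ ≤ ‖Ψ y‖ := norm_fst_le _
    _ ≤ Λ * ‖y‖ := h.bound y
    _ ≤ Λ * B := mul_le_mul_of_nonneg_left hy (by linarith)

private theorem PL_omega {e : Fin 3 → E4} {ω : E4} {Λ : ℝ} {Ψ : E4 →ₗ[ℝ] X} (h : Coord e ω Λ Ψ) :
    Ψ ω = (0, 1) := by
  have h1 : Phi e ω ((0 : Fin 3 → ℝ), (1 : ℝ)) = ω := by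
    show (∑ k, (0 : Fin 3 → ℝ) k • e k) + (1 : ℝ) • ω = ω
    simp
  calc Ψ ω = Ψ (Phi e ω (0, 1)) := by rw [h1]
    _ = (0, 1) := h.right _

private theorem PL_expand {e : Fin 3 → E4} {ω : E4} {Λ : ℝ} {Ψ : E4 →ₗ[ℝ] X} (h : Coord e ω Λ Ψ)
    (x a u : E4) (s t : ℝ) (k : Fin 3) :
    (Ψ (x - (a + s • u + t • ω))).1 k = (Ψ x).1 k - (Ψ a).1 k - s * (Ψ u).1 k := by
  rw [map_sub, map_add, map_add, map_smul, map_smul, PL_omega h]
  simp only [Prod.fst_sub, Prod.fst_add, Prod.smul_fst, Pi.sub_apply, Pi.add_apply, Pi.smul_apply, smul_eq_mul,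
    Pi.zero_apply]
  ring

/-- The direction of the tube is almost a multiple of the direction of the projected plane.
PROOF. The end points `x± = c ± dir/2` belong to the tube (`mem_end`): `x± = a + s± u + t± ω + y±`, `‖y±‖ ≤ Aδ`. Subtract and apply `Ψ`, first components:
`(Ψ dir).1 = σ (Ψ u).1 + r`, `σ = s₊ - s₋`, `|r k| ≤ 2 E`. -/
theorem dir_plane {δ : ℝ} (hδ : 0 ≤ δ) {e : Fin 3 → E4} {ω : E4} {Λ A : ℝ} {Ψ : E4 →ₗ[ℝ] X} (h : Coord e ω Λ Ψ)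
    (T : Tube δ) (a u : E4)
    (hP : ∀ x ∈ T.carrier, ∃ s t : ℝ, ‖x - (a + s • u + t • ω)‖ ≤ A * δ) :
    ∃ σ : ℝ, ∀ k, |(Ψ T.dir).1 k - σ * (Ψ u).1 k| ≤ 2 * (Λ * A * δ) := by
  obtain ⟨s₁, t₁, h₁⟩ := hP _ (mem_end hδ T (1 / 2) (by norm_num))
  obtain ⟨s₂, t₂, h₂⟩ := hP _ (mem_end hδ T (-1 / 2) (by norm_num))
  refine ⟨s₁ - s₂, fun k => ?_⟩
  have e₁ := PL_comp h _ h₁ k
  have e₂ := PL_comp h _ h₂ k
  rw [PL_expand h, map_add, map_smul] at e₁ e₂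
  simp only [Prod.fst_add, Prod.smul_fst, Pi.add_apply, Pi.smul_apply, smul_eq_mul] at e₁ e₂
  rw [abs_le] at e₁ e₂ ⊢
  constructor
  · nlinarith [e₁.1, e₂.2]
  · nlinarith [e₁.2, e₂.1]

private theorem PL_ne {δ : ℝ} (hδ : 0 ≤ δ) {e : Fin 3 → E4} {ω : E4} {Λ A η : ℝ} {Ψ : E4 →ₗ[ℝ] X} (h : Coord e ω Λ Ψ)
    (hη1 : η ≤ 1) (hE' : Λ * A * δ ≤ η / 32) (j : Fin 3) (T : Tube δ)
    (hT : Λ * ‖T.dir - e j‖ ≤ η / 4) (a u : E4)
    (hP : ∀ x ∈ T.carrier, ∃ s t : ℝ, ‖x - (a + s • u + t • ω)‖ ≤ A * δ) : (Ψ u).1 j ≠ 0 := by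
  intro h0
  obtain ⟨σ, hσ⟩ := dir_plane hδ h T a u hP
  obtain ⟨hD, -, -, -⟩ := coord_dir h hη1 j T hT
  have h1 := hσ j
  rw [h0, mul_zero, sub_zero, abs_le] at h1
  linarith [h1.2]

/-- Slopes of the tube and of the plane.
PROOF. `dir_plane`: `ê = σ u' + r`, `|r| ≤ 2E`. `ê_j ≥ 3/4`, `2E ≤ 1/16`, so `σ u'_j ≠ 0`. `ê_k - vP k ê_j = r_k - vP k r_j` (as `vP k = σu'_k/(σu'_j)`), so
`|sl k - vP k| ≤ 2E (1 + |vP k|)/(3/4) ≤ 4E (1 + |vP k|)`. Hence `|vP k| ≤ η/2 + 4E + 4E|vP k| ≤ η/2 + η/8 + (1/8)|vP k|`, `|vP k| ≤ (5η/8)/(7/8) = 5η/7 ≤ η ≤ 1`, and then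
`|sl k - vP k| ≤ 8E`. -/
theorem slope_plane {δ : ℝ} (hδ : 0 ≤ δ) {e : Fin 3 → E4} {ω : E4} {Λ A η : ℝ} {Ψ : E4 →ₗ[ℝ] X} (h : Coord e ω Λ Ψ)
    (hη0 : 0 < η) (hη1 : η ≤ 1) (hE : 0 ≤ Λ * A * δ) (hE' : Λ * A * δ ≤ η / 32) (j : Fin 3) (T : Tube δ)
    (hT : Λ * ‖T.dir - e j‖ ≤ η / 4) (a u : E4)
    (hP : ∀ x ∈ T.carrier, ∃ s t : ℝ, ‖x - (a + s • u + t • ω)‖ ≤ A * δ) :
    ∀ k, k ≠ j → |vP Ψ j u k| ≤ η ∧ |sl Ψ j T k - vP Ψ j u k| ≤ 8 * (Λ * A * δ) := by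
  intro k hk
  obtain ⟨σ, hσ⟩ := dir_plane hδ h T a u hP
  obtain ⟨hD, -, -, -⟩ := coord_dir h hη1 j T hT
  have hU : (Ψ u).1 j ≠ 0 := PL_ne hδ h hη1 hE' j T hT a u hP
  have hs := (slopes h hη1 j T hT).1 k hk
  have hv : (Ψ u).1 k = vP Ψ j u k * (Ψ u).1 j := by
    unfold vP
    field_simp
  have hsl : (Ψ T.dir).1 k = sl Ψ j T k * (Ψ T.dir).1 j := by
    unfold sl
    field_simp
  have r1 := hσ k
  have r2 := hσ j
  rw [hv, hsl] at r1
  generalize vP Ψ j u k = v at *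
  generalize sl Ψ j T k = w at *
  generalize (Ψ T.dir).1 j = D at *
  generalize (Ψ u).1 j = U at *
  generalize Λ * A * δ = E at *
  have key : |w - v| * D ≤ 2 * E * (1 + |v|) := by
    have h1 : (w - v) * D = (w * D - σ * (v * U)) - v * (D - σ * U) := by ring
    calc |w - v| * D = |(w - v) * D| := by rw [abs_mul, abs_of_pos (by linarith : 0 < D)]
      _ = |(w * D - σ * (v * U)) - v * (D - σ * U)| := by rw [h1]
      _ ≤ |w * D - σ * (v * U)| + |v * (D - σ * U)| := abs_sub _ _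
      _ ≤ 2 * E + |v| * (2 * E) := by
          rw [abs_mul]
          exact add_le_add r1 (mul_le_mul_of_nonneg_left r2 (abs_nonneg _))
      _ = 2 * E * (1 + |v|) := by ring
  have h0 : 0 ≤ |w - v| := abs_nonneg _
  have h0v : 0 ≤ |v| := abs_nonneg _
  have key2 : |w - v| ≤ 4 * E * (1 + |v|) := by
    have h1 : |w - v| * (3 / 4) ≤ |w - v| * D := mul_le_mul_of_nonneg_left hD h0
    have h2 : 0 ≤ E * (1 + |v|) := mul_nonneg hE (by linarith)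
    nlinarith
  have hv1 : |v| ≤ |w| + |w - v| := by
    have := abs_sub_abs_le_abs_sub v w
    rw [abs_sub_comm v w] at this
    linarith
  have hEv : E * |v| ≤ 1 / 32 * |v| := mul_le_mul_of_nonneg_right (by linarith) h0v
  have hvη : |v| ≤ η := by nlinarith
  refine ⟨hvη, ?_⟩
  have hv2 : |v| ≤ 1 := hvη.trans hη1
  have : E * |v| ≤ E * 1 := mul_le_mul_of_nonneg_left hv2 hE
  nlinarith

/-- Containment of the projected tube in the projected plane near the unit cube.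
PROOF. Let `x ∈ T`, `p = Ψ x - z`, `‖p‖ ≤ 1/2`. From `hP x`: `p.1 = a' - z.1 + s u' + r'`, `|r'| ≤ E`, so for `k ≠ j`:
`p_k - bP k - vP k p_j = s (u'_k - vP k u'_j) + r'_k - vP k r'_j = r'_k - vP k r'_j` (if `u'_j ≠ 0`, which holds as in `slope_plane`; `vP k = u'_k/u'_j`), of absolute value `≤ 2E`.
From `tube_model`: `|p_k - pb k - sl k p_j| ≤ 2Λδ`. For `Y` with `‖Y‖ ≤ 1`, `Y ∈ T3 j pb sl (2Λδ)`:
`Y_k - bP k - vP k Y_j = (Y_k - pb k - sl k Y_j) - (p_k - pb k - sl k p_j) + (p_k - bP k - vP k p_j) + (sl k - vP k)(Y_j - p_j)`, so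
`≤ 2Λδ + 2Λδ + 2E + 8E · (3/2) ≤ 18 E` (`A ≥ 1`). -/
theorem contain_plane {δ : ℝ} (hδ : 0 ≤ δ) {e : Fin 3 → E4} {ω : E4} {Λ A η : ℝ} {Ψ : E4 →ₗ[ℝ] X} (h : Coord e ω Λ Ψ)
    (hΛ : 0 ≤ Λ) (hA : 1 ≤ A) (hη0 : 0 < η) (hη1 : η ≤ 1) (hE' : Λ * A * δ ≤ η / 32) (j : Fin 3) (T : Tube δ)
    (hT : Λ * ‖T.dir - e j‖ ≤ η / 4) (z : X) (a u : E4)
    (hP : ∀ x ∈ T.carrier, ∃ s t : ℝ, ‖x - (a + s • u + t • ω)‖ ≤ A * δ)
    (hz : ∃ x ∈ T.carrier, ‖Ψ x - z‖ ≤ 1 / 2) :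
    ∀ Y ∈ closedBall (0 : Fin 3 → ℝ) 1, Y ∈ T3 j (pb Ψ j z T) (sl Ψ j T) (2 * Λ * δ) →
      Y ∈ T3 j (bP Ψ j z a u) (vP Ψ j u) (18 * (Λ * A * δ)) := by
  intro Y hY hYT k hk
  obtain ⟨x, hx, hxz⟩ := hz
  obtain ⟨s, t, hst⟩ := hP x hx
  have hE : 0 ≤ Λ * A * δ := mul_nonneg (mul_nonneg hΛ (by linarith)) hδ
  have hΛδ : Λ * δ ≤ Λ * A * δ := by
    have h1 : 0 ≤ Λ * δ := mul_nonneg hΛ hδ
    nlinarith
  obtain ⟨hv, hsv⟩ := slope_plane hδ h hη0 hη1 hE hE' j T hT a u hP k hk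
  have hU : (Ψ u).1 j ≠ 0 := PL_ne hδ h hη1 hE' j T hT a u hP
  have hvU : (Ψ u).1 k = vP Ψ j u k * (Ψ u).1 j := by
    unfold vP
    field_simp
  have rk := PL_comp h _ hst k
  have rj := PL_comp h _ hst j
  rw [PL_expand h] at rk rj
  rw [← mul_assoc] at rk rj
  have hp := (tube_model hδ h hη1 j T hT z hx).1 k hk
  have hpj : |(Ψ x - z).1 j| ≤ 1 / 2 :=
    calc |(Ψ x - z).1 j| = ‖(Ψ x - z).1 j‖ := (Real.norm_eq_abs _).symm
      _ ≤ ‖(Ψ x - z).1‖ := norm_le_pi_norm _ j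
      _ ≤ ‖Ψ x - z‖ := norm_fst_le _
      _ ≤ 1 / 2 := hxz
  have hYj : |Y j| ≤ 1 :=
    calc |Y j| = ‖Y j‖ := (Real.norm_eq_abs _).symm
      _ ≤ ‖Y‖ := norm_le_pi_norm _ j
      _ ≤ 1 := mem_closedBall_zero_iff.1 hY
  have hYk := hYT k hk
  have hpP : |(Ψ x - z).1 k - bP Ψ j z a u k - vP Ψ j u k * (Ψ x - z).1 j| ≤ 2 * (Λ * A * δ) := by
    have e1 : (Ψ x - z).1 k - bP Ψ j z a u k - vP Ψ j u k * (Ψ x - z).1 j =
        ((Ψ x).1 k - (Ψ a).1 k - s * (Ψ u).1 k) - vP Ψ j u k * ((Ψ x).1 j - (Ψ a).1 j - s * (Ψ u).1 j) := by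
      rw [hvU]
      unfold bP
      simp only [Prod.fst_sub, Pi.sub_apply]
      ring
    rw [e1]
    calc |((Ψ x).1 k - (Ψ a).1 k - s * (Ψ u).1 k) - vP Ψ j u k * ((Ψ x).1 j - (Ψ a).1 j - s * (Ψ u).1 j)|
        ≤ |(Ψ x).1 k - (Ψ a).1 k - s * (Ψ u).1 k| + |vP Ψ j u k * ((Ψ x).1 j - (Ψ a).1 j - s * (Ψ u).1 j)| :=
          abs_sub _ _
      _ ≤ Λ * A * δ + 1 * (Λ * A * δ) := by
          rw [abs_mul]
          exact add_le_add rk (mul_le_mul (hv.trans hη1) rj (abs_nonneg _) zero_le_one)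
      _ = 2 * (Λ * A * δ) := by ring
  have e2 : Y k - bP Ψ j z a u k - vP Ψ j u k * Y j =
      (Y k - pb Ψ j z T k - sl Ψ j T k * Y j) - ((Ψ x - z).1 k - pb Ψ j z T k - sl Ψ j T k * (Ψ x - z).1 j) +
        ((Ψ x - z).1 k - bP Ψ j z a u k - vP Ψ j u k * (Ψ x - z).1 j) +
          (sl Ψ j T k - vP Ψ j u k) * (Y j - (Ψ x - z).1 j) := by ring
  have h3 : |Y j - (Ψ x - z).1 j| ≤ 3 / 2 := (abs_sub _ _).trans (by linarith)
  have h4 : |(sl Ψ j T k - vP Ψ j u k) * (Y j - (Ψ x - z).1 j)| ≤ 8 * (Λ * A * δ) * (3 / 2) := by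
    rw [abs_mul]
    exact mul_le_mul hsv h3 (abs_nonneg _) (by linarith)
  rw [e2]
  have h5 := abs_add_le ((Y k - pb Ψ j z T k - sl Ψ j T k * Y j) -
    ((Ψ x - z).1 k - pb Ψ j z T k - sl Ψ j T k * (Ψ x - z).1 j) +
        ((Ψ x - z).1 k - bP Ψ j z a u k - vP Ψ j u k * (Ψ x - z).1 j))
    ((sl Ψ j T k - vP Ψ j u k) * (Y j - (Ψ x - z).1 j))
  have h6 := abs_add_le ((Y k - pb Ψ j z T k - sl Ψ j T k * Y j) -
    ((Ψ x - z).1 k - pb Ψ j z T k - sl Ψ j T k * (Ψ x - z).1 j))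
    ((Ψ x - z).1 k - bP Ψ j z a u k - vP Ψ j u k * (Ψ x - z).1 j)
  have h7 := abs_sub (Y k - pb Ψ j z T k - sl Ψ j T k * Y j)
    ((Ψ x - z).1 k - pb Ψ j z T k - sl Ψ j T k * (Ψ x - z).1 j)
  linarith

end Pool.Agent.Lib.MP_291c47_an.TK
end

section

/-!
# TASK TK SE: separation of the slopes, cells
-/

open scoped ENNReal NNReal BigOperators
open MeasureTheory Metric

namespace Pool.Agent.Lib.MP_291c47_an.TK

/-- PROOF. `‖x/‖x‖ - y/‖y‖‖ ≤ ‖x - y‖/‖x‖ + ‖y‖ |1/‖x‖ - 1/‖y‖| = ‖x - y‖/‖x‖ + |‖y‖ - ‖x‖|/‖x‖ ≤ 2‖x - y‖/‖x‖`. -/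
theorem norm_sub_normalize (x y : E4) (hx : x ≠ 0) (hy : y ≠ 0) :
    ‖(‖x‖⁻¹ : ℝ) • x - (‖y‖⁻¹ : ℝ) • y‖ ≤ 2 * ‖x - y‖ / ‖x‖ := by
  have hx' : 0 < ‖x‖ := norm_pos_iff.mpr hx
  have hy' : 0 < ‖y‖ := norm_pos_iff.mpr hy
  have h1 : (‖x‖⁻¹ : ℝ) • x - (‖y‖⁻¹ : ℝ) • y = (‖x‖⁻¹ : ℝ) • (x - y) + (‖x‖⁻¹ - ‖y‖⁻¹ : ℝ) • y := by
    module
  rw [h1]
  have h2 : ‖(‖x‖⁻¹ : ℝ) • (x - y)‖ = ‖x - y‖ / ‖x‖ := by
    rw [norm_smul, norm_inv, norm_norm]
    field_simp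
  have h3 : ‖(‖x‖⁻¹ - ‖y‖⁻¹ : ℝ) • y‖ ≤ ‖x - y‖ / ‖x‖ := by
    rw [norm_smul, Real.norm_eq_abs]
    have h4 : (‖x‖⁻¹ - ‖y‖⁻¹ : ℝ) = (‖y‖ - ‖x‖) / (‖x‖ * ‖y‖) := by
      field_simp
    rw [h4, abs_div, abs_of_pos (mul_pos hx' hy')]
    have h5 : |‖y‖ - ‖x‖| ≤ ‖x - y‖ := by
      rw [abs_sub_comm]
      exact abs_norm_sub_norm_le x y
    have h6 : |‖y‖ - ‖x‖| / (‖x‖ * ‖y‖) * ‖y‖ = |‖y‖ - ‖x‖| / ‖x‖ := by
      field_simp
    rw [h6]
    gcongr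
  calc ‖(‖x‖⁻¹ : ℝ) • (x - y) + (‖x‖⁻¹ - ‖y‖⁻¹ : ℝ) • y‖
      ≤ ‖(‖x‖⁻¹ : ℝ) • (x - y)‖ + ‖(‖x‖⁻¹ - ‖y‖⁻¹ : ℝ) • y‖ := norm_add_le _ _
    _ ≤ ‖x - y‖ / ‖x‖ + ‖x - y‖ / ‖x‖ := by rw [h2]; gcongr
    _ = 2 * ‖x - y‖ / ‖x‖ := by ring

/-- Close slopes imply close directions.
PROOF. With `f = Phi e ω (sl T, su T)` (note `sl T j = 1`) and `ê_j = (Ψ dir).1 j > 0`: `dir = Phi (Ψ dir) = ê_j • f`, so `‖f‖ = 1/ê_j ≥ 4/5` and `dir = f/‖f‖`; the same for `T'`.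
`f - f' = ∑_{k ≠ j} (sl k - sl' k) e k + (su - su') ω`, of norm `< 3 · δ/9` (or `≤` sum of three absolute values). By `norm_sub_normalize`:
`‖dir - dir'‖ ≤ 2 ‖f - f'‖/‖f‖ ≤ (5/2) ‖f - f'‖ < (5/2)(δ/3) < δ`. -/
theorem sep_slopes {δ : ℝ} (hδ : 0 < δ) {e : Fin 3 → E4} {ω : E4} {Λ η : ℝ} {Ψ : E4 →ₗ[ℝ] X} (h : Coord e ω Λ Ψ)
    (hη1 : η ≤ 1) (j : Fin 3) (T T' : Tube δ) (hT : Λ * ‖T.dir - e j‖ ≤ η / 4)
    (hT' : Λ * ‖T'.dir - e j‖ ≤ η / 4) (h1 : ∀ k, k ≠ j → |sl Ψ j T k - sl Ψ j T' k| < δ / 9)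
    (h2 : |su Ψ j T - su Ψ j T'| < δ / 9) : ‖T.dir - T'.dir‖ < δ := by
  obtain ⟨hc1, hc2, -, -⟩ := coord_dir h hη1 j T hT
  obtain ⟨hc1', hc2', -, -⟩ := coord_dir h hη1 j T' hT'
  set c : ℝ := (Ψ T.dir).1 j with hc
  set c' : ℝ := (Ψ T'.dir).1 j with hc'
  have hcpos : 0 < c := by linarith
  have hcpos' : 0 < c' := by linarith
  set f : E4 := (c⁻¹ : ℝ) • T.dir with hf
  set f' : E4 := (c'⁻¹ : ℝ) • T'.dir with hf'
  have key : ∀ (S : Tube δ) (d : ℝ), d = (Ψ S.dir).1 j → (d⁻¹ : ℝ) • S.dir =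
      (∑ k, sl Ψ j S k • e k) + su Ψ j S • ω := by
    intro S d hd
    have h3 : (d⁻¹ : ℝ) • S.dir = Phi e ω ((d⁻¹ : ℝ) • Ψ S.dir) := by
      rw [map_smul, h.left]
    rw [h3]
    show (∑ k, ((d⁻¹ : ℝ) • Ψ S.dir).1 k • e k) + ((d⁻¹ : ℝ) • Ψ S.dir).2 • ω = _
    congr 1
    · refine Finset.sum_congr rfl (fun k _ => ?_)
      congr 1
      show d⁻¹ * (Ψ S.dir).1 k = (Ψ S.dir).1 k / (Ψ S.dir).1 j
      rw [hd]; ring
    · congr 1
      show d⁻¹ * (Ψ S.dir).2 = (Ψ S.dir).2 / (Ψ S.dir).1 j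
      rw [hd]; ring
  have hff : f - f' = (∑ k, (sl Ψ j T k - sl Ψ j T' k) • e k) + (su Ψ j T - su Ψ j T') • ω := by
    rw [hf, hf', key T c hc, key T' c' hc']
    simp only [sub_smul, Finset.sum_sub_distrib]
    abel
  have hslj : sl Ψ j T j = 1 := by
    show (Ψ T.dir).1 j / (Ψ T.dir).1 j = 1
    exact div_self hcpos.ne'
  have hslj' : sl Ψ j T' j = 1 := by
    show (Ψ T'.dir).1 j / (Ψ T'.dir).1 j = 1
    exact div_self hcpos'.ne'
  have hterm : ∀ k, ‖(sl Ψ j T k - sl Ψ j T' k) • e k‖ ≤ if k = j then 0 else δ / 9 := by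
    intro k
    rw [norm_smul, h.one_e k, mul_one, Real.norm_eq_abs]
    split_ifs with hk
    · rw [hk, hslj, hslj']; simp
    · exact (h1 k hk).le
  have hnorm : ‖f - f'‖ ≤ δ / 3 := by
    rw [hff]
    have h5 : ‖∑ k, (sl Ψ j T k - sl Ψ j T' k) • e k‖ ≤ ∑ k, if k = j then 0 else δ / 9 :=
      (norm_sum_le _ _).trans (Finset.sum_le_sum (fun k _ => hterm k))
    have h6 : (∑ k : Fin 3, if k = j then (0 : ℝ) else δ / 9) = 2 * (δ / 9) := by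
      fin_cases j <;> simp [Fin.sum_univ_three] <;> ring
    have h7 : ‖(su Ψ j T - su Ψ j T') • ω‖ ≤ δ / 9 := by
      rw [norm_smul, h.one_ω, mul_one, Real.norm_eq_abs]
      exact h2.le
    calc _ ≤ ‖∑ k, (sl Ψ j T k - sl Ψ j T' k) • e k‖ + ‖(su Ψ j T - su Ψ j T') • ω‖ := norm_add_le _ _
      _ ≤ 2 * (δ / 9) + δ / 9 := by rw [← h6]; exact add_le_add h5 h7
      _ = δ / 3 := by ring
  have hnd : ‖T.dir‖ = 1 := norm_dir T
  have hnd' : ‖T'.dir‖ = 1 := norm_dir T'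
  have hfn : ‖f‖ = c⁻¹ := by
    rw [hf, norm_smul, hnd, mul_one, Real.norm_eq_abs, abs_of_pos (inv_pos.mpr hcpos)]
  have hfn' : ‖f'‖ = c'⁻¹ := by
    rw [hf', norm_smul, hnd', mul_one, Real.norm_eq_abs, abs_of_pos (inv_pos.mpr hcpos')]
  have hfne : f ≠ 0 := by
    intro h0
    rw [h0, norm_zero] at hfn
    exact (inv_pos.mpr hcpos).ne hfn
  have hfne' : f' ≠ 0 := by
    intro h0
    rw [h0, norm_zero] at hfn'
    exact (inv_pos.mpr hcpos').ne hfn'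
  have h8 := norm_sub_normalize f f' hfne hfne'
  have h9 : (‖f‖⁻¹ : ℝ) • f = T.dir := by
    rw [hfn, hf, smul_smul, inv_inv, mul_inv_cancel₀ hcpos.ne', one_smul]
  have h9' : (‖f'‖⁻¹ : ℝ) • f' = T'.dir := by
    rw [hfn', hf', smul_smul, inv_inv, mul_inv_cancel₀ hcpos'.ne', one_smul]
  rw [h9, h9', hfn] at h8
  have h10 : 2 * ‖f - f'‖ / c⁻¹ = 2 * ‖f - f'‖ * c := by
    field_simp
  rw [h10] at h8
  have h11 : 2 * ‖f - f'‖ * c ≤ 2 * (δ / 3) * (5 / 4) := by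
    have h12 : 0 ≤ ‖f - f'‖ := norm_nonneg _
    have h13 : 2 * ‖f - f'‖ ≤ 2 * (δ / 3) := by linarith
    exact mul_le_mul h13 hc2 hcpos.le (by linarith)
  linarith

/-- Counting `s`-separated points in a box.
PROOF. The map `i ↦ fun k => ⌊(f k i - lo k)/s⌋₊` from `g` to `Fintype.piFinset fun k => Finset.range (⌊L k/s⌋₊ + 1)` is injective on `g`: equal floors of nonnegative numbers
imply `|f k i - f k i'| < s` for all `k`. So `card g ≤ ∏ (⌊L k/s⌋₊ + 1) ≤ ∏ (L k/s + 1)`. -/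
theorem cells {ι : Type} (g : Finset ι) (f : Fin 3 → ι → ℝ) (lo L : Fin 3 → ℝ) {s : ℝ} (hs : 0 < s)
    (hL : ∀ k, 0 ≤ L k) (hbox : ∀ i ∈ g, ∀ k, lo k ≤ f k i ∧ f k i ≤ lo k + L k)
    (hsep : ∀ i ∈ g, ∀ i' ∈ g, i ≠ i' → ∃ k, s ≤ |f k i - f k i'|) :
    (g.card : ℝ) ≤ ∏ k, (L k / s + 1) := by
  classical
  set N : Fin 3 → ℕ := fun k => ⌊L k / s⌋₊ + 1 with hN
  have hcard : g.card ≤ (Fintype.piFinset fun k => Finset.range (N k)).card := by
    apply Finset.card_le_card_of_injOn (fun i k => ⌊(f k i - lo k) / s⌋₊)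
    · intro i hi
      rw [Finset.mem_coe, Fintype.mem_piFinset]
      intro k
      rw [Finset.mem_range]
      have h1 := hbox i hi k
      have h2 : (f k i - lo k) / s ≤ L k / s := by
        gcongr
        linarith
      have h3 : ⌊(f k i - lo k) / s⌋₊ ≤ ⌊L k / s⌋₊ := Nat.floor_le_floor h2
      show ⌊(f k i - lo k) / s⌋₊ < ⌊L k / s⌋₊ + 1
      omega
    · intro i hi i' hi' hii
      by_contra hne
      obtain ⟨k, hk⟩ := hsep i hi i' hi' hne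
      have h1 := hbox i hi k
      have h1' := hbox i' hi' k
      have h2 : ⌊(f k i - lo k) / s⌋₊ = ⌊(f k i' - lo k) / s⌋₊ := congrFun hii k
      have h3 : 0 ≤ (f k i - lo k) / s := div_nonneg (by linarith) hs.le
      have h3' : 0 ≤ (f k i' - lo k) / s := div_nonneg (by linarith) hs.le
      have h4 := Nat.floor_le h3
      have h4' := Nat.floor_le h3'
      have h5 := Nat.lt_floor_add_one ((f k i - lo k) / s)
      have h5' := Nat.lt_floor_add_one ((f k i' - lo k) / s)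
      rw [h2] at h4 h5
      have h6 : |(f k i - lo k) / s - (f k i' - lo k) / s| < 1 := by
        rw [abs_lt]; constructor <;> linarith
      have h7 : (f k i - lo k) / s - (f k i' - lo k) / s = (f k i - f k i') / s := by ring
      rw [h7, abs_div, abs_of_pos hs, div_lt_one hs] at h6
      linarith
  rw [Fintype.card_piFinset] at hcard
  simp only [Finset.card_range] at hcard
  have h8 : (g.card : ℝ) ≤ ((∏ k, N k : ℕ) : ℝ) := by exact_mod_cast hcard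
  refine h8.trans ?_
  push_cast
  apply Finset.prod_le_prod
  · intro k _
    positivity
  · intro k _
    have h9 : (⌊L k / s⌋₊ : ℝ) ≤ L k / s := Nat.floor_le (div_nonneg (hL k) hs.le)
    show (((⌊L k / s⌋₊ + 1 : ℕ)) : ℝ) ≤ L k / s + 1
    push_cast
    linarith

end Pool.Agent.Lib.MP_291c47_an.TK
end

section

/-!
# TASK TK CP: decomposition into caps
-/

open scoped ENNReal NNReal BigOperators Classical
open MeasureTheory Metric

namespace Pool.Agent.Lib.MP_291c47_an.TK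

/-- PROOF. The unit sphere of `E4` is compact, so it is covered by finitely many balls of radius `ρ/2` (`IsCompact.finite_cover_balls`); colour = a ball containing the direction
(`norm_dir`). (`M ≥ 1` as the sphere is nonempty, but this is not needed if `ι` is empty.) -/
theorem caps (ρ : ℝ) (hρ : 0 < ρ) : ∃ M : ℕ, ∀ (δ : ℝ) (ι : Type) (T : ι → Tube δ),
    ∃ col : ι → Fin M, ∀ i i', col i = col i' → ‖(T i).dir - (T i').dir‖ ≤ ρ := by
  obtain ⟨t, -, htf, ht⟩ := (isCompact_sphere (0 : E4) 1).finite_cover_balls (half_pos hρ)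
  refine ⟨htf.toFinset.card, fun δ ι T => ?_⟩
  have hc : ∀ i : ι, ∃ c : E4, c ∈ htf.toFinset ∧ dist (T i).dir c < ρ / 2 := by
    intro i
    have h1 : (T i).dir ∈ sphere (0 : E4) 1 := by
      rw [mem_sphere_zero_iff_norm]
      exact norm_dir (T i)
    have h2 := ht h1
    simp only [Set.mem_iUnion, mem_ball] at h2
    obtain ⟨c, hc, hd⟩ := h2
    exact ⟨c, htf.mem_toFinset.2 hc, hd⟩
  choose c hc1 hc2 using hc
  refine ⟨fun i => htf.toFinset.equivFin ⟨c i, hc1 i⟩, fun i i' h => ?_⟩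
  have h3 : c i = c i' := by
    have := htf.toFinset.equivFin.injective h
    exact congrArg Subtype.val this
  rw [← dist_eq_norm]
  have h4 := hc2 i
  have h5 := hc2 i'
  rw [h3] at h4
  have h6 := dist_triangle_right (T i).dir (T i').dir (c i')
  linarith

/-- PROOF. `cntE (T j) x = ∑ κ, cntE (restriction to colour κ) x` (`Finset.sum_fiberwise` or `Fintype.sum_sigma'`), `(∑ a_κ)^r ≤ ∑ a_κ^r` for `0 ≤ r ≤ 1` (induction with
`ENNReal.rpow_add_le_add_rpow`; if `r = 0`.. fine, needs `Finset` nonempty or use `0 < r`), and `∏_j ∑_κ = ∑_{κ : Fin 3 → Fin M} ∏_j` (`Finset.prod_univ_sum`, `Fintype.piFinset_univ`). -/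
theorem split {δ : ℝ} {ι : Fin 3 → Type} [∀ j, Fintype (ι j)] (T : ∀ j, ι j → Tube δ) {r : ℝ} (hr : 0 < r)
    (hr1 : r ≤ 1) {M : ℕ} (col : ∀ j, ι j → Fin M) (x : E4) :
    ∏ j, (cntE (T j) x) ^ r
      ≤ ∑ κ : Fin 3 → Fin M, ∏ j, (cntE (fun i : {i // col j i = κ j} => T j i) x) ^ r := by
  have h1 : ∀ j, (cntE (T j) x) ^ r ≤
      ∑ c : Fin M, (cntE (fun i : {i // col j i = c} => T j i) x) ^ r := by
    intro j
    have h2 : cntE (T j) x = ∑ c : Fin M, cntE (fun i : {i // col j i = c} => T j i) x := by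
      unfold cntE
      rw [← Fintype.sum_fiberwise (col j)]
    rw [h2]
    exact Finset.le_sum_of_subadditive (fun a : ℝ≥0∞ => a ^ r) (ENNReal.zero_rpow_of_pos hr).le
      (fun a b => ENNReal.rpow_add_le_add_rpow a b hr.le hr1) _ _
  refine (Finset.prod_le_prod' fun j _ => h1 j).trans ?_
  rw [Finset.prod_univ_sum, Fintype.piFinset_univ]

end Pool.Agent.Lib.MP_291c47_an.TK
end

section

/-!
# TASK TK NR: the norm of `F₁F₂F₃` and the integrals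
-/

open scoped ENNReal NNReal BigOperators
open MeasureTheory Metric

namespace Pool.Agent.Lib.MP_291c47_an.TK

/-- PROOF. Termwise. -/
theorem ofReal_F {δ : ℝ} {ι : Type} [Fintype ι] (T : ι → Tube δ) (x : E4) :
    ENNReal.ofReal (F T x) = cntE T x := by
  unfold F cntE
  rw [ENNReal.ofReal_sum_of_nonneg]
  · refine Finset.sum_congr rfl fun i _ => ?_
    by_cases h : x ∈ (T i).carrier
    · rw [Set.indicator_of_mem h, Set.indicator_of_mem h, ENNReal.ofReal_one]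
    · rw [Set.indicator_of_notMem h, Set.indicator_of_notMem h, ENNReal.ofReal_zero]
  · intro i _
    exact Set.indicator_nonneg (fun _ _ => zero_le_one) x

private theorem F_nonneg {δ : ℝ} {ι : Type} [Fintype ι] (T : ι → Tube δ) (x : E4) : 0 ≤ F T x := by
  unfold F
  exact Finset.sum_nonneg fun i _ => Set.indicator_nonneg (fun _ _ => zero_le_one) x

private theorem F_le_card {δ : ℝ} {ι : Type} [Fintype ι] (T : ι → Tube δ) (x : E4) :
    F T x ≤ (Fintype.card ι : ℝ) := by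
  unfold F
  calc ∑ i, (T i).carrier.indicator (fun _ => (1 : ℝ)) x ≤ ∑ _i : ι, (1 : ℝ) := by
        refine Finset.sum_le_sum fun i _ => ?_
        exact Set.indicator_le' (fun _ _ => le_rfl) (fun _ _ => zero_le_one) x
    _ = (Fintype.card ι : ℝ) := by simp

private theorem cntE_le_card {δ : ℝ} {ι : Type} [Fintype ι] (T : ι → Tube δ) (x : E4) :
    cntE T x ≤ (Fintype.card ι : ℝ≥0∞) := by
  unfold cntE
  calc ∑ i, (T i).carrier.indicator (fun _ => (1 : ℝ≥0∞)) x ≤ ∑ _i : ι, (1 : ℝ≥0∞) := by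
        refine Finset.sum_le_sum fun i _ => ?_
        exact Set.indicator_le' (fun _ _ => le_rfl) (fun _ _ => zero_le_one) x
    _ = (Fintype.card ι : ℝ≥0∞) := by simp

private theorem cntE_nat {δ : ℝ} {ι : Type} [Fintype ι] (T : ι → Tube δ) (x : E4) :
    ∃ n : ℕ, cntE T x = (n : ℝ≥0∞) := by
  classical
  unfold cntE
  refine ⟨∑ i, if x ∈ (T i).carrier then 1 else 0, ?_⟩
  push_cast
  refine Finset.sum_congr rfl fun i _ => ?_
  by_cases h : x ∈ (T i).carrier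
  · rw [Set.indicator_of_mem h, if_pos h]
  · rw [Set.indicator_of_notMem h, if_neg h]

private theorem G_nat {δ : ℝ} {ι : Fin 3 → Type} [∀ j, Fintype (ι j)] (T : ∀ j, ι j → Tube δ) (x : E4) :
    ∃ n : ℕ, ∏ j, cntE (T j) x = (n : ℝ≥0∞) := by
  choose n hn using fun j => cntE_nat (T j) x
  refine ⟨∏ j, n j, ?_⟩
  push_cast
  exact Finset.prod_congr rfl fun j _ => hn j

private theorem G_le {δ : ℝ} {ι : Fin 3 → Type} [∀ j, Fintype (ι j)] (T : ∀ j, ι j → Tube δ) (x : E4) :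
    ∏ j, cntE (T j) x ≤ ∏ j, (Fintype.card (ι j) : ℝ≥0∞) :=
  Finset.prod_le_prod' fun j _ => cntE_le_card (T j) x

private theorem enorm_F3 {δ : ℝ} {ι : Fin 3 → Type} [∀ j, Fintype (ι j)] (T : ∀ j, ι j → Tube δ) (x : E4) :
    ‖F (T 0) x * F (T 1) x * F (T 2) x‖ₑ = ∏ j, cntE (T j) x := by
  have h0 := F_nonneg (T 0) x
  have h1 := F_nonneg (T 1) x
  have h2 := F_nonneg (T 2) x
  rw [Real.enorm_of_nonneg (by positivity), ENNReal.ofReal_mul (by positivity), ENNReal.ofReal_mul h0,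
    ofReal_F, ofReal_F, ofReal_F, Fin.prod_univ_three]

/-- PROOF. `F ≥ 0`; `‖F₀ F₁ F₂‖ₑ = ∏ cntE` by `ofReal_F`; `eLpNorm_eq_lintegral_rpow_enorm`. -/
theorem eLpNorm_eq {δ : ℝ} {ι : Fin 3 → Type} [∀ j, Fintype (ι j)] (T : ∀ j, ι j → Tube δ) (q : ℝ≥0∞)
    (hq0 : q ≠ 0) (hq : q ≠ ⊤) :
    eLpNorm (fun x => F (T 0) x * F (T 1) x * F (T 2) x) (q / 3) volume
      = (∫⁻ x, (∏ j, cntE (T j) x) ^ (q.toReal / 3)) ^ (1 / (q.toReal / 3)) := by
  have h1 : q / 3 ≠ 0 := by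
    rw [Ne, ENNReal.div_eq_zero_iff]
    push Not
    exact ⟨hq0, by norm_num⟩
  have h2 : q / 3 ≠ ⊤ := ENNReal.div_ne_top hq (by norm_num)
  have h3 : (q / 3).toReal = q.toReal / 3 := by
    rw [ENNReal.toReal_div]; norm_num
  rw [eLpNorm_eq_lintegral_rpow_enorm_toReal h1 h2, h3]
  simp_rw [enorm_F3]

/-- PROOF. `|F₀ F₁ F₂| ≤ ∏ card` pointwise; `eLpNorm_exponent_top`, `eLpNormEssSup_le_of_ae_bound`. -/
theorem eLpNorm_top_le {δ : ℝ} {ι : Fin 3 → Type} [∀ j, Fintype (ι j)] (T : ∀ j, ι j → Tube δ) :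
    eLpNorm (fun x => F (T 0) x * F (T 1) x * F (T 2) x) ⊤ volume
      ≤ ENNReal.ofReal (∏ j, (Fintype.card (ι j) : ℝ)) := by
  rw [eLpNorm_exponent_top]
  refine eLpNormEssSup_le_of_ae_bound (Filter.Eventually.of_forall fun x => ?_)
  have h0 := F_nonneg (T 0) x
  have h1 := F_nonneg (T 1) x
  have h2 := F_nonneg (T 2) x
  rw [Real.norm_of_nonneg (by positivity), Fin.prod_univ_three]
  have g0 := F_le_card (T 0) x
  have g1 := F_le_card (T 1) x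
  have g2 := F_le_card (T 2) x
  gcongr

/-- PROOF. If `ι j₀` is empty then `F (T j₀) = 0`. -/
theorem eLpNorm_empty {δ : ℝ} {ι : Fin 3 → Type} [∀ j, Fintype (ι j)] (T : ∀ j, ι j → Tube δ) (q : ℝ≥0∞)
    (j₀ : Fin 3) (h : IsEmpty (ι j₀)) :
    eLpNorm (fun x => F (T 0) x * F (T 1) x * F (T 2) x) (q / 3) volume = 0 := by
  have hF : ∀ x, F (T j₀) x = 0 := by
    intro x
    unfold F
    exact Finset.sum_eq_zero fun i _ => (h.false i).elim
  have h0 : (fun x => F (T 0) x * F (T 1) x * F (T 2) x) = fun _ => (0 : ℝ) := by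
    funext x
    have := hF x
    fin_cases j₀ <;> simp_all
  rw [h0]
  exact eLpNorm_zero

/-- Interpolation, `4/9 ≤ r ≤ 1/2`.
PROOF. `G^r = (G^(1/2))^(18r-8) (G^(4/9))^(9-18r)` (`G = ∏ cntE`, exponents nonnegative and `(18r-8)/2 + 4(9-18r)/9 = r`), `ENNReal.lintegral_mul_norm_pow_le` with exponents
`18r-8`, `9-18r` of sum `1`; `(∏ cntE)^(1/2) = ∏ cntE^(1/2)`. -/
theorem interp {δ : ℝ} {ι : Fin 3 → Type} [∀ j, Fintype (ι j)] (T : ∀ j, ι j → Tube δ) {r : ℝ} (hr : 4 / 9 ≤ r)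
    (hr2 : r ≤ 1 / 2) :
    ∫⁻ x, (∏ j, cntE (T j) x) ^ r ≤ (∫⁻ x, ∏ j, (cntE (T j) x) ^ (1 / 2 : ℝ)) ^ (18 * r - 8) *
      (∫⁻ x, ∏ j, (cntE (T j) x) ^ (4 / 9 : ℝ)) ^ (9 - 18 * r) := by
  have hm : Measurable fun x => ∏ j, cntE (T j) x :=
    Finset.measurable_prod _ fun j _ => measurable_cntE (T j)
  have hprod : ∀ (s : ℝ), 0 ≤ s → ∀ x, ∏ j, (cntE (T j) x) ^ s = (∏ j, cntE (T j) x) ^ s := by
    intro s hs x
    rw [ENNReal.prod_rpow_of_nonneg hs]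
  simp_rw [hprod (1 / 2) (by norm_num), hprod (4 / 9) (by norm_num)]
  have e : ∀ x, (∏ j, cntE (T j) x) ^ r =
      ((∏ j, cntE (T j) x) ^ (1 / 2 : ℝ)) ^ (18 * r - 8) *
        ((∏ j, cntE (T j) x) ^ (4 / 9 : ℝ)) ^ (9 - 18 * r) := by
    intro x
    rw [← ENNReal.rpow_mul, ← ENNReal.rpow_mul, ← ENNReal.rpow_add_of_nonneg _ _ (by linarith) (by linarith)]
    congr 1
    ring
  simp_rw [e]
  refine ENNReal.lintegral_mul_norm_pow_le (hm.pow_const _).aemeasurable (hm.pow_const _).aemeasurable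
    (by linarith) (by linarith) (by ring)

/-- `r ≥ 1/2`. PROOF. `G^r = G^(r-1/2) G^(1/2) ≤ (∏ card)^(r-1/2) G^(1/2)`. -/
theorem high {δ : ℝ} {ι : Fin 3 → Type} [∀ j, Fintype (ι j)] (T : ∀ j, ι j → Tube δ) {r : ℝ} (hr : 1 / 2 ≤ r) :
    ∫⁻ x, (∏ j, cntE (T j) x) ^ r
      ≤ (∏ j, (Fintype.card (ι j) : ℝ≥0∞)) ^ (r - 1 / 2) * ∫⁻ x, ∏ j, (cntE (T j) x) ^ (1 / 2 : ℝ) := by
  have hm : ∀ j, Measurable fun x => (cntE (T j) x) ^ (1 / 2 : ℝ) :=
    fun j => (measurable_cntE (T j)).pow_const _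
  rw [← lintegral_const_mul _ (Finset.measurable_prod _ fun j _ => hm j)]
  refine lintegral_mono fun x => ?_
  simp only
  rw [ENNReal.prod_rpow_of_nonneg (by norm_num)]
  calc (∏ j, cntE (T j) x) ^ r = (∏ j, cntE (T j) x) ^ (r - 1 / 2) * (∏ j, cntE (T j) x) ^ (1 / 2 : ℝ) := by
        rw [← ENNReal.rpow_add_of_nonneg _ _ (by linarith) (by norm_num)]
        congr 1
        ring
    _ ≤ _ := by
        refine mul_le_mul_left ?_ _
        exact ENNReal.rpow_le_rpow (G_le T x) (by linarith)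

private theorem vol_tube {δ : ℝ} (hδ1 : δ < 1) (T : Tube δ) : volume T.carrier ≤ 1 := by
  have h1 : MeasurePreserving (fun x : E4 => x - T.center) volume volume :=
    measurePreserving_sub_right volume T.center
  have h2 : MeasurePreserving T.frame.repr volume volume := T.frame.measurePreserving_repr
  have h3 : MeasurePreserving (@WithLp.ofLp 2 (Fin 4 → ℝ)) volume volume :=
    PiLp.volume_preserving_ofLp (Fin 4)
  have h4 := h3.comp (h2.comp h1)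
  have hsub : T.carrier ⊆ (WithLp.ofLp ∘ (T.frame.repr ∘ fun x : E4 => x - T.center)) ⁻¹'
      (closedBall (0 : Fin 4 → ℝ) (1 / 2)) := by
    intro x hx
    rw [Set.mem_preimage, mem_closedBall_zero_iff, pi_norm_le_iff_of_nonneg (by norm_num)]
    intro i
    simp only [Function.comp_apply, Real.norm_eq_abs]
    have : (T.frame.repr (x - T.center)).ofLp i = inner ℝ (T.frame i) (x - T.center) :=
      T.frame.repr_apply_apply _ _
    rw [this]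
    by_cases hi : i = 0
    · subst hi; exact hx.1
    · have := hx.2 i hi
      linarith
  calc volume T.carrier ≤ volume ((WithLp.ofLp ∘ (T.frame.repr ∘ fun x : E4 => x - T.center)) ⁻¹'
      (closedBall (0 : Fin 4 → ℝ) (1 / 2))) := measure_mono hsub
    _ = volume (closedBall (0 : Fin 4 → ℝ) (1 / 2)) :=
        h4.measure_preimage measurableSet_closedBall.nullMeasurableSet
    _ ≤ 1 := by
        rw [Real.volume_pi_closedBall _ (by norm_num)]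
        simp

private theorem lint_cntE {δ : ℝ} (hδ1 : δ < 1) {ι : Type} [Fintype ι] (T : ι → Tube δ) :
    ∫⁻ x, cntE T x ≤ (Fintype.card ι : ℝ≥0∞) := by
  unfold cntE
  rw [lintegral_finsetSum]
  · calc ∑ i, ∫⁻ x, (T i).carrier.indicator (fun _ => (1 : ℝ≥0∞)) x ≤ ∑ _i : ι, (1 : ℝ≥0∞) := by
          refine Finset.sum_le_sum fun i _ => ?_
          rw [lintegral_indicator_const (isClosed_carrier (T i)).measurableSet, one_mul]
          exact vol_tube hδ1 (T i)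
      _ = (Fintype.card ι : ℝ≥0∞) := by simp
  · intro i _
    exact measurable_const.indicator (isClosed_carrier (T i)).measurableSet

/-- Trivial bound for `4/9 ≤ r`: the power `1/r` of the integral is at most `(∏ card)^(9/4)` (`0 < δ < 1`, `card ≥ 1`).
PROOF. `G` takes values in `{0} ∪ [1, ∏ card]` (natural numbers); `G^r ≤ G^(max 1 r) ≤ (∏ card)^(max 1 r - 1) G`, and `∫ G ≤ ∫ cntE (T 0) · card₁ card₂ ≤ ∏ card` as the volume of a tube is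
at most `1` (the tube is the image under an isometry of `EuclideanSpace` (`T.frame.repr`, measure preserving) of a box with sides `1, δ, δ, δ`, translated). So
`∫ G^r ≤ (∏ card)^(max 1 r)`, and `max (1, r)/r ≤ 9/4`. -/
theorem triv_norm {δ : ℝ} (hδ : 0 < δ) (hδ1 : δ < 1) {ι : Fin 3 → Type} [∀ j, Fintype (ι j)] [∀ j, Nonempty (ι j)]
    (T : ∀ j, ι j → Tube δ) {r : ℝ} (hr : 4 / 9 ≤ r) :
    (∫⁻ x, (∏ j, cntE (T j) x) ^ r) ^ (1 / r) ≤ ENNReal.ofReal ((∏ j, (Fintype.card (ι j) : ℝ)) ^ (9 / 4 : ℝ)) := by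
  have hr0 : 0 < r := by linarith
  set P : ℝ≥0∞ := ∏ j, (Fintype.card (ι j) : ℝ≥0∞) with hP
  set m : ℝ := max 1 r with hm
  have hm1 : 1 ≤ m := le_max_left _ _
  have hmr : r ≤ m := le_max_right _ _
  have hP1 : 1 ≤ P := by
    rw [hP]
    refine Finset.one_le_prod' fun j _ => ?_
    exact_mod_cast Fintype.card_pos
  have key : ∫⁻ x, (∏ j, cntE (T j) x) ^ r ≤ P ^ m := by
    have s1 : ∀ x, (∏ j, cntE (T j) x) ^ r ≤ P ^ (m - 1) * (∏ j, cntE (T j) x) := by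
      intro x
      obtain ⟨n, hn⟩ := G_nat T x
      have hle := G_le T x
      rcases Nat.eq_zero_or_pos n with h0 | hpos
      · rw [hn, h0]
        simp [hr0]
      · have h1 : (1 : ℝ≥0∞) ≤ ∏ j, cntE (T j) x := by rw [hn]; exact_mod_cast hpos
        calc (∏ j, cntE (T j) x) ^ r ≤ (∏ j, cntE (T j) x) ^ m := ENNReal.rpow_le_rpow_of_exponent_le h1 hmr
          _ = (∏ j, cntE (T j) x) ^ (m - 1) * (∏ j, cntE (T j) x) ^ (1 : ℝ) := by
              rw [← ENNReal.rpow_add_of_nonneg _ _ (by linarith) (by norm_num)]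
              congr 1
              ring
          _ ≤ _ := by
              rw [ENNReal.rpow_one]
              refine mul_le_mul_left ?_ _
              exact ENNReal.rpow_le_rpow hle (by linarith)
    have s2 : ∀ x, (∏ j, cntE (T j) x) ≤ (Fintype.card (ι 1) : ℝ≥0∞) * (Fintype.card (ι 2) : ℝ≥0∞) * cntE (T 0) x := by
      intro x
      rw [Fin.prod_univ_three]
      calc cntE (T 0) x * cntE (T 1) x * cntE (T 2) x
          ≤ cntE (T 0) x * (Fintype.card (ι 1) : ℝ≥0∞) * (Fintype.card (ι 2) : ℝ≥0∞) := by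
            gcongr
            · exact cntE_le_card _ _
            · exact cntE_le_card _ _
        _ = _ := by ring
    calc ∫⁻ x, (∏ j, cntE (T j) x) ^ r ≤ ∫⁻ x, P ^ (m - 1) * ((Fintype.card (ι 1) : ℝ≥0∞) *
          (Fintype.card (ι 2) : ℝ≥0∞) * cntE (T 0) x) := by
          refine lintegral_mono fun x => (s1 x).trans ?_
          exact mul_le_mul_right (s2 x) _
      _ = P ^ (m - 1) * ((Fintype.card (ι 1) : ℝ≥0∞) * (Fintype.card (ι 2) : ℝ≥0∞) * ∫⁻ x, cntE (T 0) x) := by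
          rw [lintegral_const_mul _ ((measurable_cntE (T 0)).const_mul _),
            lintegral_const_mul _ (measurable_cntE (T 0))]
      _ ≤ P ^ (m - 1) * ((Fintype.card (ι 1) : ℝ≥0∞) * (Fintype.card (ι 2) : ℝ≥0∞) * (Fintype.card (ι 0) : ℝ≥0∞)) := by
          gcongr
          exact lint_cntE hδ1 (T 0)
      _ = P ^ (m - 1) * P ^ (1 : ℝ) := by
          rw [ENNReal.rpow_one, hP, Fin.prod_univ_three]
          ring
      _ = P ^ m := by
          rw [← ENNReal.rpow_add_of_nonneg _ _ (by linarith) (by norm_num)]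
          congr 1
          ring
  have hPr : ENNReal.ofReal ((∏ j, (Fintype.card (ι j) : ℝ)) ^ (9 / 4 : ℝ)) = P ^ (9 / 4 : ℝ) := by
    rw [← ENNReal.ofReal_rpow_of_nonneg (by positivity) (by norm_num), hP,
      ENNReal.ofReal_prod_of_nonneg (fun _ _ => by positivity)]
    simp
  rw [hPr]
  calc (∫⁻ x, (∏ j, cntE (T j) x) ^ r) ^ (1 / r) ≤ (P ^ m) ^ (1 / r) := by
        gcongr
    _ = P ^ (m * (1 / r)) := by rw [← ENNReal.rpow_mul]
    _ ≤ P ^ (9 / 4 : ℝ) := by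
        refine ENNReal.rpow_le_rpow_of_exponent_le hP1 ?_
        rw [mul_one_div, div_le_iff₀ hr0]
        rw [hm]
        refine max_le (by linarith) (by linarith)

end Pool.Agent.Lib.MP_291c47_an.TK
end
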