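import Pool.Agent.Lib.MP_291c47_an.TK.Defs
import Pool.Agent.Lib.MP_291c47_an.Mg.G002
import Pool.Agent.Lib.MP_291c47_an.Mg.G001

section

/-!
# TASK TK LI: linear change of variables
-/

open scoped ENNReal NNReal BigOperators
open MeasureTheory Metric

namespace Pool.Agent.Lib.MP_291c47_an.TK

/-- PROOF. `‖(∑ x k e k) + t ω‖ ≤ ∑ |x k| + |t|` (unit vectors). -/
theorem norm_Phi_le {e : Fin 3 → E4} {ω : E4} {Λ : ℝ} {Ψ : E4 →ₗ[ℝ] X} (h : Coord e ω Λ Ψ) (p : X) :
    ‖Phi e ω p‖ ≤ 4 * ‖p‖ := by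
  have h0 : Phi e ω p = (∑ k, p.1 k • e k) + p.2 • ω := rfl
  have h1 : ‖∑ k, p.1 k • e k‖ ≤ ∑ k : Fin 3, ‖p‖ := by
    refine (norm_sum_le _ _).trans (Finset.sum_le_sum fun k _ => ?_)
    rw [norm_smul, h.one_e k, mul_one]
    exact (norm_le_pi_norm p.1 k).trans (norm_fst_le p)
  have h2 : ‖p.2 • ω‖ ≤ ‖p‖ := by
    rw [norm_smul, h.one_ω, mul_one]
    exact norm_snd_le p
  have h3 : (∑ _k : Fin 3, ‖p‖) = 3 * ‖p‖ := by
    simp
  rw [h0]
  have h4 := norm_add_le (∑ k, p.1 k • e k) (p.2 • ω)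
  rw [h3] at h1
  linarith

/-- Change of variables.
PROOF. `Phi e ω` and `Ψ` give a continuous linear equivalence `L : X ≃L[ℝ] E4`. The measure `μ' = volume.map L.symm` on `X` is an additive Haar measure
(`ContinuousLinearEquiv.isAddHaarMeasure_map`), so `μ' = c • volume` with `c = μ' (closedBall 0 (1/2)) / volume (closedBall 0 (1/2))` (`Measure.isAddHaarMeasure_eq_smul`,
or `Measure.addHaar..`), and `volume (closedBall (0 : X) (1/2)) = 1` (product of a cube of side 1 and an interval of length 1; `closedBall_prod_same`).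
`μ' (closedBall 0 (1/2)) = volume (L '' closedBall 0 (1/2)) ≤ volume (closedBall (0 : E4) 2)` by `norm_Phi_le`; so `K = (volume (closedBall (0 : E4) 2)).toNNReal`.
`∫_E4 G = ∫_X G (Phi p) dμ'` (`lintegral_map`). -/
theorem lin : ∃ K : ℝ≥0, ∀ (e : Fin 3 → E4) (ω : E4) (Λ : ℝ) (Ψ : E4 →ₗ[ℝ] X), Coord e ω Λ Ψ →
    ∀ G : E4 → ℝ≥0∞, Measurable G → ∫⁻ x, G x ≤ K * ∫⁻ p : X, G (Phi e ω p) := by
  have := haarX
  have hfin : volume (closedBall (0 : E4) 2) ≠ ⊤ := measure_closedBall_lt_top.ne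
  refine ⟨(volume (closedBall (0 : E4) 2)).toNNReal, ?_⟩
  intro e ω Λ Ψ h G hG
  rw [ENNReal.coe_toNNReal hfin]
  have hsurj : Function.Surjective (Phi e ω) := fun x => ⟨Ψ x, h.left x⟩
  obtain ⟨c, hc0, hc⟩ := (Phi e ω).exists_map_addHaar_eq_smul_addHaar
    (volume : Measure X) (volume : Measure E4) hsurj
  have hcont : Continuous (Phi e ω) := LinearMap.continuous_of_finiteDimensional _
  have hmeas : Measurable (Phi e ω) := hcont.measurable
  have hball : volume (closedBall (0 : X) (1 / 2)) = 1 := by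
    have h1 : closedBall (0 : X) (1 / 2) =
        closedBall (0 : Fin 3 → ℝ) (1 / 2) ×ˢ closedBall (0 : ℝ) (1 / 2) :=
      (closedBall_prod_same (0 : Fin 3 → ℝ) (0 : ℝ) (1 / 2)).symm
    rw [h1, Measure.volume_eq_prod, Measure.prod_prod, Real.volume_pi_closedBall _ (by norm_num),
      Real.volume_closedBall]
    norm_num
  have hsub : closedBall (0 : X) (1 / 2) ⊆ (Phi e ω) ⁻¹' closedBall (0 : E4) 2 := by
    intro p hp
    rw [mem_closedBall, dist_zero_right] at hp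
    rw [Set.mem_preimage, mem_closedBall, dist_zero_right]
    have := norm_Phi_le h p
    linarith
  have hone : 1 ≤ c * volume (closedBall (0 : E4) 2) := by
    have h2 : (volume.map (Phi e ω)) (closedBall (0 : E4) 2) = c * volume (closedBall (0 : E4) 2) := by
      rw [hc, Measure.smul_apply, smul_eq_mul]
    rw [← h2, Measure.map_apply hmeas isClosed_closedBall.measurableSet, ← hball]
    exact measure_mono hsub
  have hint : ∫⁻ p : X, G (Phi e ω p) = c * ∫⁻ x, G x := by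
    rw [← lintegral_map hG hmeas, hc, lintegral_smul_measure, smul_eq_mul]
  rw [hint]
  calc ∫⁻ x, G x = 1 * ∫⁻ x, G x := (one_mul _).symm
    _ ≤ (c * volume (closedBall (0 : E4) 2)) * ∫⁻ x, G x := by gcongr
    _ = volume (closedBall (0 : E4) 2) * (c * ∫⁻ x, G x) := by ring

end Pool.Agent.Lib.MP_291c47_an.TK
end

section

/-!
# TASK TK RE: reduction to the model in unit cubes
-/

open scoped ENNReal NNReal BigOperators Classical
open MeasureTheory Metric

namespace Pool.Agent.Lib.MP_291c47_an.TK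

/-- the integral of the model product over `closedBall 0 1 × ℝ` for the tubes meeting the cube with centre `z` -/
noncomputable def modelInt {δ : ℝ} {ι : Fin 3 → Type} [∀ j, Fintype (ι j)] (Λ r : ℝ) (Ψ : E4 →ₗ[ℝ] X)
    (T : ∀ j, ι j → Tube δ) (z : X) : ℝ≥0∞ :=
  ∫⁻ p in {p : X | p.1 ∈ closedBall (0 : Fin 3 → ℝ) 1},
    ∏ j, (cnt4 j (fun i : {i // i ∈ meets Ψ (T j) z} => pb Ψ j z (T j i)) (fun i => sl Ψ j (T j i))
      (fun i => ph Ψ j z (T j i)) (fun i => su Ψ j (T j i)) (2 * Λ * δ) p) ^ r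

/-- Local comparison.
PROOF. Translation `p = z + p'` (`lintegral_add_left_eq_self` for the function with the indicator of the ball): the left side is the integral over `p' ∈ closedBall 0 (1/2)` of
`∏ (cntE (T j) (Phi (z + p')))^r`. If `x = Phi (z + p') ∈ T j i` then `Ψ x - z = p'` has norm `≤ 1/2`, so `i ∈ meets`, and `p' ∈ T4 j ..` by `tube_model`; so
`cntE (T j) x ≤ cnt4 .. p'` (sum over the subtype, `Finset.sum_subtype`/`Finset.sum_coe_sort`), and `p'.1 ∈ closedBall 0 1`. -/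
theorem local_le {δ : ℝ} (hδ : 0 ≤ δ) {e : Fin 3 → E4} {ω : E4} {Λ η r : ℝ} {Ψ : E4 →ₗ[ℝ] X} (h : Coord e ω Λ Ψ)
    (hη1 : η ≤ 1) (hr : 0 ≤ r) {ι : Fin 3 → Type} [∀ j, Fintype (ι j)] (T : ∀ j, ι j → Tube δ)
    (hT : ∀ j i, Λ * ‖(T j i).dir - e j‖ ≤ η / 4) (z : X) :
    ∫⁻ p in closedBall z (1 / 2), ∏ j, (cntE (T j) (Phi e ω p)) ^ r ≤ modelInt Λ r Ψ T z := by
  have := haarX
  unfold modelInt
  have hS : MeasurableSet {p : X | p.1 ∈ closedBall (0 : Fin 3 → ℝ) 1} :=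
    measurable_fst measurableSet_closedBall
  rw [← lintegral_indicator measurableSet_closedBall, ← lintegral_indicator hS,
    ← lintegral_add_left_eq_self _ z]
  apply lintegral_mono
  intro p'
  by_cases hp : z + p' ∈ closedBall z (1 / 2)
  · have hp2 : ‖p'‖ ≤ 1 / 2 := by
      rw [mem_closedBall, dist_eq_norm, add_sub_cancel_left] at hp
      exact hp
    have hp1 : p' ∈ {p : X | p.1 ∈ closedBall (0 : Fin 3 → ℝ) 1} := by
      have h1 : ‖p'.1‖ ≤ ‖p'‖ := norm_fst_le p'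
      show p'.1 ∈ closedBall (0 : Fin 3 → ℝ) 1
      rw [mem_closedBall, dist_zero_right]
      linarith
    simp only
    rw [Set.indicator_of_mem hp, Set.indicator_of_mem hp1]
    apply Finset.prod_le_prod'
    intro j _
    apply ENNReal.rpow_le_rpow _ hr
    unfold cntE cnt4
    obtain ⟨x, hx⟩ : ∃ x, x = Phi e ω (z + p') := ⟨_, rfl⟩
    rw [← hx]
    have hxp : Ψ x - z = p' := by rw [hx, h.right, add_sub_cancel_left]
    rw [← Finset.sum_subtype (s := meets Ψ (T j) z) (fun i => Iff.rfl)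
      (f := fun i => (T4 j (pb Ψ j z (T j i)) (sl Ψ j (T j i)) (ph Ψ j z (T j i)) (su Ψ j (T j i))
        (2 * Λ * δ)).indicator (fun _ => (1 : ℝ≥0∞)) p')]
    rw [← Finset.sum_subset (Finset.subset_univ (meets Ψ (T j) z)) (f := fun i => (T j i).carrier.indicator
      (fun _ => (1 : ℝ≥0∞)) x)]
    · apply Finset.sum_le_sum
      intro i _
      by_cases hi : x ∈ (T j i).carrier
      · have h2 := tube_model hδ h hη1 j (T j i) (hT j i) z hi
        rw [hxp] at h2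
        rw [Set.indicator_of_mem hi, Set.indicator_of_mem h2]
      · rw [Set.indicator_of_notMem hi]
        exact zero_le
    · intro i _ hi
      apply Set.indicator_of_notMem
      intro hxi
      apply hi
      unfold meets
      rw [Finset.mem_filter]
      exact ⟨Finset.mem_univ _, x, hxi, by rw [hxp]; exact hp2⟩
  · simp only
    rw [Set.indicator_of_notMem hp]
    exact zero_le

/-- Reduction.
PROOF. `lin` for `G x = ∏ (cntE (T j) x)^r` (measurable), then `avg` on `X` with `ρ = 1/2` (`volume (closedBall (0 : X) (1/2)) = 1`) and `local_le`. `K` is that of `lin`. -/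
theorem reduce : ∃ K : ℝ≥0, ∀ (δ : ℝ), 0 ≤ δ → ∀ (e : Fin 3 → E4) (ω : E4) (Λ η r : ℝ) (Ψ : E4 →ₗ[ℝ] X),
    Coord e ω Λ Ψ → η ≤ 1 → 0 ≤ r → ∀ (ι : Fin 3 → Type) [∀ j, Fintype (ι j)] (T : ∀ j, ι j → Tube δ),
    (∀ j i, Λ * ‖(T j i).dir - e j‖ ≤ η / 4) →
    ∫⁻ x, ∏ j, (cntE (T j) x) ^ r ≤ K * ∫⁻ z, modelInt Λ r Ψ T z := by
  obtain ⟨K, hK⟩ := lin
  refine ⟨K, ?_⟩
  intro δ hδ e ω Λ η r Ψ h hη1 hr ι _ T hT
  have hh := haarX
  have hG : Measurable (fun x : E4 => ∏ j, (cntE (T j) x) ^ r) :=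
    Finset.measurable_fun_prod _ fun j _ => (measurable_cntE (T j)).pow_const r
  have hPhi : Measurable (Phi e ω) := (LinearMap.continuous_of_finiteDimensional (Phi e ω)).measurable
  have h1 := hK e ω Λ Ψ h _ hG
  have h2 := avg (volume : Measure X) _ (hG.comp hPhi) (1 / 2)
  have h3 : (volume : Measure X) (closedBall 0 (1 / 2)) = 1 := by
    have e1 : closedBall (0 : X) (1 / 2) = closedBall (0 : Fin 3 → ℝ) (1 / 2) ×ˢ closedBall (0 : ℝ) (1 / 2) := by
      rw [closedBall_prod_same]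
      rfl
    rw [e1, Measure.volume_eq_prod, Measure.prod_prod, Real.volume_pi_closedBall _ (by norm_num),
      Real.volume_closedBall]
    norm_num
  rw [h3, one_mul] at h2
  refine h1.trans ?_
  refine mul_le_mul_right ?_ _
  simp only [Function.comp_def] at h2
  rw [← h2]
  apply lintegral_mono
  intro z
  exact local_le hδ h hη1 hr T hT z

end Pool.Agent.Lib.MP_291c47_an.TK
end

section

/-!
# TASK TK PS: the planar sum over slopes
-/

open scoped ENNReal NNReal BigOperators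
open MeasureTheory Metric

namespace Pool.Agent.Lib.MP_291c47_an.TK

/-- Pointwise dyadic bound: for `0 ≤ a ≤ 2 ≤ 2^K w` we have `4w / max w a ≤ ∑_{k ≤ K} 8 2^(-k) 1[a ≤ 2^k w]`.
PROOF. If `a ≤ w`: the left side is `4`, the term `k = 0` is `8`. Otherwise let `k ≥ 1` be minimal with `a ≤ 2^k w` (exists, `k ≤ K`); then `a > 2^(k-1) w`, so the
left side is `4w/a ≤ 4 · 2^(1-k) = 8 · 2^(-k)`, the term `k`. All terms are nonnegative. -/
theorem dyad {w a : ℝ} (hw : 0 < w) (ha : 0 ≤ a) (K : ℕ) (hK : a ≤ 2 ^ K * w) :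
    4 * w / max w a ≤ ∑ k ∈ Finset.range (K + 1), 8 / 2 ^ k * (if a ≤ 2 ^ k * w then (1 : ℝ) else 0) := by
  classical
  have hex : ∃ k : ℕ, a ≤ 2 ^ k * w := ⟨K, hK⟩
  obtain ⟨k, hk, hmin⟩ : ∃ k : ℕ, a ≤ 2 ^ k * w ∧ ∀ l < k, ¬ a ≤ 2 ^ l * w :=
    ⟨Nat.find hex, Nat.find_spec hex, fun l hl => Nat.find_min hex hl⟩
  have hkK : k ≤ K := by
    by_contra hlt
    exact hmin K (by omega) hK
  have hnn : ∀ l ∈ Finset.range (K + 1), 0 ≤ 8 / 2 ^ l * (if a ≤ 2 ^ l * w then (1 : ℝ) else 0) := by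
    intro l _
    split_ifs <;> positivity
  refine le_trans ?_ (Finset.single_le_sum hnn (Finset.mem_range.2 (by omega : k < K + 1)))
  rw [if_pos hk, mul_one]
  rcases Nat.eq_zero_or_pos k with h0 | h0
  · subst h0
    have hmax : max w a = w := max_eq_left (by simpa using hk)
    rw [hmax, mul_div_assoc, div_self hw.ne']
    norm_num
  · have h1 := hmin (k - 1) (by omega)
    push Not at h1
    have h2 : (2 : ℝ) ^ k = 2 ^ (k - 1) * 2 := by
      rw [← pow_succ]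
      congr 1
      omega
    have h3 : 0 < (2 : ℝ) ^ (k - 1) * w := by positivity
    have h4 : 0 < max w a := lt_max_of_lt_left hw
    rw [div_le_div_iff₀ h4 (by positivity), h2]
    have h5 : (2 : ℝ) ^ (k - 1) * w ≤ max w a := h1.le.trans (le_max_right _ _)
    nlinarith

/-- The sum over the slopes.
PROOF. Let `K` be the natural number with `2^K ≤ 2/w < 2^(K+1)` (`exists_nat_pow_near`, as `2/w ≥ 1`). For `i' ∈ g`, `a = |u i' - u i| ≤ 2 ≤ 2^(K+1) w`; by `dyad`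
with `K + 1` and exchanging the sums the left side is at most `∑_{k ≤ K+1} 8 2^(-k) · #{i' ∈ g : |u i' - u i| ≤ 2^k w} ≤ ∑_{k ≤ K+1} 8 2^(-k) B (1 + 2^k) ≤ 16 B (K + 2)`.
Finally `K + 2 ≤ 2 + K` and `K ≤ C₁ (2^K)^ε ≤ C₁ (2/w)^ε ≤ 2 C₁' w^(-ε)`: e.g. `2^(Kε) = exp (K ε log 2) ≥ 1 + K ε log 2`, so `K + 2 ≤ (2 + 1/(ε log 2)) 2^(Kε)` and
`2^(Kε) ≤ (2/w)^ε = 2^ε w^(-ε)`. `C = 16 (2 + 1/(ε log 2)) 2^ε`. -/
theorem psum (ε : ℝ) (hε : 0 < ε) : ∃ C : ℝ, 0 < C ∧ ∀ (ι : Type) (g : Finset ι) (u : ι → ℝ) (w B : ℝ),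
    0 < w → w ≤ 1 → 0 ≤ B → (∀ i ∈ g, |u i| ≤ 1) → Dens g u w B → ∀ i ∈ g,
    ∑ i' ∈ g, 4 * w / max w |u i' - u i| ≤ C * B * w ^ (-ε) := by
  classical
  have hlog : 0 < Real.log 2 := Real.log_pos (by norm_num)
  refine ⟨16 * (2 + 1 / (ε * Real.log 2)) * 2 ^ ε, by positivity, ?_⟩
  intro ι g u w B hw hw1 hB hu hD i hi
  obtain ⟨K, hK1, hK2⟩ := exists_nat_pow_near (x := 2 / w) (y := 2)
    (by rw [le_div_iff₀ hw]; linarith) (by norm_num)
  have hw2 : 2 ≤ 2 ^ (K + 1) * w := by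
    rw [div_lt_iff₀ hw] at hK2
    exact hK2.le
  have hstep1 : ∑ i' ∈ g, 4 * w / max w |u i' - u i| ≤
      ∑ i' ∈ g, ∑ k ∈ Finset.range (K + 1 + 1),
        8 / 2 ^ k * (if |u i' - u i| ≤ 2 ^ k * w then (1 : ℝ) else 0) := by
    apply Finset.sum_le_sum
    intro i' hi'
    apply dyad hw (abs_nonneg _)
    have h1 := abs_le.1 (hu i' hi')
    have h2 := abs_le.1 (hu i hi)
    have h3 : |u i' - u i| ≤ 2 := by
      rw [abs_le]
      constructor <;> linarith
    exact h3.trans hw2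
  have hstep2 : ∑ i' ∈ g, ∑ k ∈ Finset.range (K + 1 + 1),
        8 / 2 ^ k * (if |u i' - u i| ≤ 2 ^ k * w then (1 : ℝ) else 0) ≤
      ∑ _k ∈ Finset.range (K + 1 + 1), 16 * B := by
    rw [Finset.sum_comm]
    apply Finset.sum_le_sum
    intro k _
    rw [← Finset.mul_sum, Finset.sum_boole]
    have h1 := hD i hi (2 ^ k * w) (by positivity) (g.filter fun i' => |u i' - u i| ≤ 2 ^ k * w)
      (Finset.filter_subset _ _) (fun i' hi' => (Finset.mem_filter.1 hi').2)
    have h2 : 2 ^ k * w / w = 2 ^ k := by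
      rw [mul_div_assoc, div_self hw.ne', mul_one]
    rw [h2] at h1
    have h3 : (1 : ℝ) ≤ 2 ^ k := one_le_pow₀ (by norm_num)
    have h4 : (0 : ℝ) < 2 ^ k := by positivity
    calc 8 / 2 ^ k * ((g.filter fun i' => |u i' - u i| ≤ 2 ^ k * w).card : ℝ)
        ≤ 8 / 2 ^ k * (B * (1 + 2 ^ k)) := mul_le_mul_of_nonneg_left h1 (by positivity)
      _ ≤ 8 / 2 ^ k * (B * (2 * 2 ^ k)) := by
          apply mul_le_mul_of_nonneg_left _ (by positivity)
          apply mul_le_mul_of_nonneg_left _ hB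
          linarith
      _ = 16 * B := by field_simp; ring
  have hstep3 : ∑ _k ∈ Finset.range (K + 1 + 1), 16 * B = 16 * B * (K + 2) := by
    rw [Finset.sum_const, Finset.card_range, nsmul_eq_mul]
    push_cast
    ring
  have hK3 : ((K : ℝ) + 2) ≤ (2 + 1 / (ε * Real.log 2)) * 2 ^ ((K : ℝ) * ε) := by
    have h1 : (2 : ℝ) ^ ((K : ℝ) * ε) = Real.exp (Real.log 2 * ((K : ℝ) * ε)) :=
      Real.rpow_def_of_pos (by norm_num) _
    have h2 : Real.log 2 * ((K : ℝ) * ε) + 1 ≤ (2 : ℝ) ^ ((K : ℝ) * ε) := by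
      rw [h1]
      exact Real.add_one_le_exp _
    have h3 : 0 ≤ Real.log 2 * ((K : ℝ) * ε) := by positivity
    have h4 : (K : ℝ) = 1 / (ε * Real.log 2) * (Real.log 2 * ((K : ℝ) * ε)) := by
      field_simp
    have h5 : 0 < 1 / (ε * Real.log 2) := by positivity
    calc (K : ℝ) + 2 = 1 / (ε * Real.log 2) * (Real.log 2 * ((K : ℝ) * ε)) + 2 * 1 := by
          rw [← h4]
          ring
      _ ≤ 1 / (ε * Real.log 2) * 2 ^ ((K : ℝ) * ε) + 2 * 2 ^ ((K : ℝ) * ε) := by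
          apply add_le_add
          · exact mul_le_mul_of_nonneg_left (by linarith) h5.le
          · linarith
      _ = _ := by ring
  have hK4 : (2 : ℝ) ^ ((K : ℝ) * ε) ≤ 2 ^ ε * w ^ (-ε) := by
    have h1 : (2 : ℝ) ^ ((K : ℝ) * ε) = ((2 : ℝ) ^ K) ^ ε := by
      rw [Real.rpow_mul (by norm_num), Real.rpow_natCast]
    rw [h1]
    calc ((2 : ℝ) ^ K) ^ ε ≤ (2 / w) ^ ε := Real.rpow_le_rpow (by positivity) hK1 hε.le
      _ = 2 ^ ε * w ^ (-ε) := by
          rw [Real.div_rpow (by norm_num) hw.le, Real.rpow_neg hw.le, div_eq_mul_inv]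
  calc ∑ i' ∈ g, 4 * w / max w |u i' - u i| ≤ 16 * B * (K + 2) := by
        rw [← hstep3]
        exact hstep1.trans hstep2
    _ ≤ 16 * B * ((2 + 1 / (ε * Real.log 2)) * (2 ^ ε * w ^ (-ε))) := by
        apply mul_le_mul_of_nonneg_left _ (by positivity)
        exact hK3.trans (mul_le_mul_of_nonneg_left hK4 (by positivity))
    _ = _ := by ring

end Pool.Agent.Lib.MP_291c47_an.TK
end

section

/-!
# TASK TK PI: the planar estimate (Cordoba)
-/

open scoped ENNReal NNReal BigOperators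
open MeasureTheory Metric

namespace Pool.Agent.Lib.MP_291c47_an.TK

/-- PROOF. Finite sum of indicators of the closed set `{(s, y) | |y - h i - u i * s| ≤ w}`. -/
theorem measurable_gamS {ι : Type} (g : Finset ι) (h u : ι → ℝ) (w : ℝ) :
    Measurable (fun p : ℝ × ℝ => gamS g h u w p.1 p.2) := by
  unfold gamS
  refine Finset.measurable_fun_sum g fun i _ => ?_
  have hs : MeasurableSet {p : ℝ × ℝ | |p.2 - h i - u i * p.1| ≤ w} :=
    (isClosed_le (by fun_prop) continuous_const).measurableSet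
  have he : (fun p : ℝ × ℝ => {y' : ℝ | |y' - h i - u i * p.1| ≤ w}.indicator
      (fun _ => (1 : ℝ≥0∞)) p.2) =
      {p : ℝ × ℝ | |p.2 - h i - u i * p.1| ≤ w}.indicator (fun _ => (1 : ℝ≥0∞)) := by
    funext p
    rfl
  rw [he]
  exact measurable_const.indicator hs

private theorem PI_meas (h u w s : ℝ) : MeasurableSet {y' : ℝ | |y' - h - u * s| ≤ w} :=
  (isClosed_le (by fun_prop) continuous_const).measurableSet

private theorem PI_inner (h u h' u' s : ℝ) {w : ℝ} :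
    ∫⁻ y : ℝ, {y' : ℝ | |y' - h - u * s| ≤ w}.indicator (fun _ => (1 : ℝ≥0∞)) y *
        {y' : ℝ | |y' - h' - u' * s| ≤ w}.indicator (fun _ => (1 : ℝ≥0∞)) y
      ≤ ENNReal.ofReal (2 * w) *
        {s' : ℝ | |(h' - h) + (u' - u) * s'| ≤ 2 * w}.indicator (fun _ => (1 : ℝ≥0∞)) s := by
  by_cases hS : |(h' - h) + (u' - u) * s| ≤ 2 * w
  · rw [Set.indicator_of_mem (show s ∈ {s' : ℝ | |(h' - h) + (u' - u) * s'| ≤ 2 * w} from hS),
      mul_one]
    calc ∫⁻ y : ℝ, {y' : ℝ | |y' - h - u * s| ≤ w}.indicator (fun _ => (1 : ℝ≥0∞)) y *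
          {y' : ℝ | |y' - h' - u' * s| ≤ w}.indicator (fun _ => (1 : ℝ≥0∞)) y
        ≤ ∫⁻ y : ℝ, {y' : ℝ | |y' - h - u * s| ≤ w}.indicator (fun _ => (1 : ℝ≥0∞)) y := by
          refine lintegral_mono fun y => ?_
          have h1 : {y' : ℝ | |y' - h' - u' * s| ≤ w}.indicator (fun _ => (1 : ℝ≥0∞)) y ≤ 1 := by
            by_cases hy : y ∈ {y' : ℝ | |y' - h' - u' * s| ≤ w}
            · rw [Set.indicator_of_mem hy]
            · rw [Set.indicator_of_notMem hy]
              exact zero_le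
          calc _ ≤ {y' : ℝ | |y' - h - u * s| ≤ w}.indicator (fun _ => (1 : ℝ≥0∞)) y * 1 := by
                gcongr
            _ = _ := mul_one _
      _ = volume {y' : ℝ | |y' - h - u * s| ≤ w} := by
          rw [lintegral_indicator (PI_meas h u w s), lintegral_const, one_mul,
            Measure.restrict_apply MeasurableSet.univ, Set.univ_inter]
      _ ≤ volume (Set.Icc (h + u * s - w) (h + u * s + w)) := by
          refine measure_mono fun y hy => ?_
          have hy' := abs_le.mp (show |y - h - u * s| ≤ w from hy)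
          constructor <;> linarith [hy'.1, hy'.2]
      _ = ENNReal.ofReal (2 * w) := by
          rw [Real.volume_Icc]
          congr 1
          ring
  · have h0 : ∀ y : ℝ, {y' : ℝ | |y' - h - u * s| ≤ w}.indicator (fun _ => (1 : ℝ≥0∞)) y *
        {y' : ℝ | |y' - h' - u' * s| ≤ w}.indicator (fun _ => (1 : ℝ≥0∞)) y = 0 := by
      intro y
      by_cases hy : y ∈ {y' : ℝ | |y' - h - u * s| ≤ w}
      · by_cases hy' : y ∈ {y' : ℝ | |y' - h' - u' * s| ≤ w}
        · exfalso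
          apply hS
          have e1 := abs_le.mp (show |y - h - u * s| ≤ w from hy)
          have e2 := abs_le.mp (show |y - h' - u' * s| ≤ w from hy')
          rw [abs_le]
          constructor
          · nlinarith [e1.1, e1.2, e2.1, e2.2]
          · nlinarith [e1.1, e1.2, e2.1, e2.2]
        · rw [Set.indicator_of_notMem hy', mul_zero]
      · rw [Set.indicator_of_notMem hy, zero_mul]
    simp only [h0, lintegral_zero]
    exact zero_le

private theorem PI_outer (a b : ℝ) {w : ℝ} (hw : 0 < w) :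
    volume ({s' : ℝ | |a + b * s'| ≤ 2 * w} ∩ Set.Icc (-1 : ℝ) 1) ≤
      ENNReal.ofReal (4 * w / max w |b|) := by
  by_cases hb : |b| ≤ w
  · rw [max_eq_left hb]
    calc _ ≤ volume (Set.Icc (-1 : ℝ) 1) := measure_mono Set.inter_subset_right
      _ = ENNReal.ofReal 2 := by
          rw [Real.volume_Icc]
          norm_num
      _ ≤ _ := by
          apply ENNReal.ofReal_le_ofReal
          rw [mul_div_assoc, div_self hw.ne']
          norm_num
  · have hb' : w < |b| := not_le.mp hb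
    have hb0 : 0 < |b| := hw.trans hb'
    have hbne : b ≠ 0 := abs_pos.mp hb0
    rw [max_eq_right hb'.le]
    calc _ ≤ volume (Metric.closedBall (-a / b) (2 * w / |b|)) := by
          refine measure_mono fun s hs => ?_
          have h1 : |a + b * s| ≤ 2 * w := hs.1
          rw [Metric.mem_closedBall, Real.dist_eq, le_div_iff₀ hb0, ← abs_mul]
          have h2 : (s - -a / b) * b = a + b * s := by
            field_simp
            ring
          rw [h2]
          exact h1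
      _ = ENNReal.ofReal (4 * w / |b|) := by
          rw [Real.volume_closedBall]
          congr 1
          ring

/-- Area of the intersection of two strips.
PROOF. For fixed `s` the set of `y` with `|y - h - u s| ≤ w` and `|y - h' - u' s| ≤ w` has measure `≤ 2w`, and is empty unless
`|(h' - h) + (u' - u) s| ≤ 2w`. So the left side is at most `2w · |{s ∈ [-1,1] : |(h' - h) + (u' - u) s| ≤ 2w}|`. If `|u' - u| ≤ w` this set has measure
`≤ 2 ≤ 4 = 4w / max w |u' - u|`; otherwise it is contained in an interval of length `4w / |u' - u|`. -/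
theorem pair_int (h u h' u' : ℝ) {w : ℝ} (hw : 0 < w) :
    ∫⁻ s in Set.Icc (-1 : ℝ) 1, ∫⁻ y : ℝ, {y' : ℝ | |y' - h - u * s| ≤ w}.indicator (fun _ => (1 : ℝ≥0∞)) y *
        {y' : ℝ | |y' - h' - u' * s| ≤ w}.indicator (fun _ => (1 : ℝ≥0∞)) y
      ≤ ENNReal.ofReal (2 * w * (4 * w / max w |u' - u|)) := by
  have hm : MeasurableSet {s' : ℝ | |(h' - h) + (u' - u) * s'| ≤ 2 * w} :=
    (isClosed_le (by fun_prop) continuous_const).measurableSet
  calc _ ≤ ∫⁻ s in Set.Icc (-1 : ℝ) 1, ENNReal.ofReal (2 * w) *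
        {s' : ℝ | |(h' - h) + (u' - u) * s'| ≤ 2 * w}.indicator (fun _ => (1 : ℝ≥0∞)) s :=
        lintegral_mono fun s => PI_inner h u h' u' s
    _ = ENNReal.ofReal (2 * w) *
        volume ({s' : ℝ | |(h' - h) + (u' - u) * s'| ≤ 2 * w} ∩ Set.Icc (-1 : ℝ) 1) := by
        rw [lintegral_const_mul _ (measurable_const.indicator hm), lintegral_indicator hm,
          lintegral_const, one_mul, Measure.restrict_apply MeasurableSet.univ, Set.univ_inter,
          Measure.restrict_apply hm]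
    _ ≤ ENNReal.ofReal (2 * w) * ENNReal.ofReal (4 * w / max w |u' - u|) := by
        gcongr
        exact PI_outer _ _ hw
    _ = _ := by
        rw [← ENNReal.ofReal_mul (by positivity)]

/-- Cordoba's estimate for the strips of one cluster.
PROOF. `(gamS g h u w s y)^2 = ∑ i ∈ g, ∑ i' ∈ g, 1 · 1` (`Finset.sum_mul_sum`); integrate (`lintegral_finsetSum`) and use `pair_int`, then
`ENNReal.ofReal` of the sum and `psum`: `∑_i 2w ∑_i' 4w / max w |u i' - u i| ≤ card · 2w · C B w^(-ε)`. -/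
theorem planar (ε : ℝ) (hε : 0 < ε) : ∃ C : ℝ≥0, ∀ (ι : Type) (g : Finset ι) (h u : ι → ℝ) (w B : ℝ),
    0 < w → w ≤ 1 → 0 ≤ B → (∀ i ∈ g, |u i| ≤ 1) → Dens g u w B →
    ∫⁻ s in Set.Icc (-1 : ℝ) 1, ∫⁻ y : ℝ, (gamS g h u w s y) ^ 2
      ≤ C * ENNReal.ofReal B * ENNReal.ofReal w ^ (1 - ε) * (g.card : ℝ≥0∞) := by
  obtain ⟨C, hC, hps⟩ := psum ε hε
  refine ⟨(2 * C).toNNReal, ?_⟩
  intro ι g h u w B hw hw1 hB hu hD
  have hmeas : ∀ i : ι, Measurable (fun p : ℝ × ℝ => {y' : ℝ | |y' - h i - u i * p.1| ≤ w}.indicator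
      (fun _ => (1 : ℝ≥0∞)) p.2) := by
    intro i
    have h1 := measurable_gamS {i} h u w
    unfold gamS at h1
    simpa using h1
  have hmeas2 : ∀ i i' : ι, Measurable (fun p : ℝ × ℝ =>
      {y' : ℝ | |y' - h i - u i * p.1| ≤ w}.indicator (fun _ => (1 : ℝ≥0∞)) p.2 *
      {y' : ℝ | |y' - h i' - u i' * p.1| ≤ w}.indicator (fun _ => (1 : ℝ≥0∞)) p.2) :=
    fun i i' => (hmeas i).mul (hmeas i')
  have hsq : ∀ s y : ℝ, (gamS g h u w s y) ^ 2 = ∑ i ∈ g, ∑ i' ∈ g,
      {y' : ℝ | |y' - h i - u i * s| ≤ w}.indicator (fun _ => (1 : ℝ≥0∞)) y *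
      {y' : ℝ | |y' - h i' - u i' * s| ≤ w}.indicator (fun _ => (1 : ℝ≥0∞)) y := by
    intro s y
    unfold gamS
    rw [sq, Finset.sum_mul_sum]
  have hin : ∀ s : ℝ, ∫⁻ y : ℝ, (gamS g h u w s y) ^ 2 = ∑ i ∈ g, ∑ i' ∈ g, ∫⁻ y : ℝ,
      {y' : ℝ | |y' - h i - u i * s| ≤ w}.indicator (fun _ => (1 : ℝ≥0∞)) y *
      {y' : ℝ | |y' - h i' - u i' * s| ≤ w}.indicator (fun _ => (1 : ℝ≥0∞)) y := by
    intro s
    simp only [hsq]
    have hmy : ∀ i i' : ι, Measurable (fun y : ℝ =>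
        {y' : ℝ | |y' - h i - u i * s| ≤ w}.indicator (fun _ => (1 : ℝ≥0∞)) y *
        {y' : ℝ | |y' - h i' - u i' * s| ≤ w}.indicator (fun _ => (1 : ℝ≥0∞)) y) := by
      intro i i'
      exact (measurable_const.indicator (PI_meas _ _ _ _)).mul
        (measurable_const.indicator (PI_meas _ _ _ _))
    rw [lintegral_finsetSum g fun i _ => Finset.measurable_fun_sum g fun i' _ => hmy i i']
    refine Finset.sum_congr rfl fun i _ => ?_
    rw [lintegral_finsetSum g fun i' _ => hmy i i']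
  simp only [hin]
  have hmeas3 : ∀ i i' : ι, Measurable (fun s : ℝ => ∫⁻ y : ℝ,
      {y' : ℝ | |y' - h i - u i * s| ≤ w}.indicator (fun _ => (1 : ℝ≥0∞)) y *
      {y' : ℝ | |y' - h i' - u i' * s| ≤ w}.indicator (fun _ => (1 : ℝ≥0∞)) y) :=
    fun i i' => (hmeas2 i i').lintegral_prod_right'
  rw [lintegral_finsetSum g fun i _ => Finset.measurable_fun_sum g fun i' _ => hmeas3 i i']
  have hrow : ∀ i ∈ g, ∫⁻ s in Set.Icc (-1 : ℝ) 1, ∑ i' ∈ g, ∫⁻ y : ℝ,
      {y' : ℝ | |y' - h i - u i * s| ≤ w}.indicator (fun _ => (1 : ℝ≥0∞)) y *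
      {y' : ℝ | |y' - h i' - u i' * s| ≤ w}.indicator (fun _ => (1 : ℝ≥0∞)) y ≤
      ENNReal.ofReal (2 * w * (C * B * w ^ (-ε))) := by
    intro i hi
    rw [lintegral_finsetSum g fun i' _ => hmeas3 i i']
    calc _ ≤ ∑ i' ∈ g, ENNReal.ofReal (2 * w * (4 * w / max w |u i' - u i|)) :=
          Finset.sum_le_sum fun i' _ => pair_int (h i) (u i) (h i') (u i') hw
      _ = ENNReal.ofReal (∑ i' ∈ g, 2 * w * (4 * w / max w |u i' - u i|)) := by
          rw [ENNReal.ofReal_sum_of_nonneg]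
          intro i' _
          positivity
      _ ≤ _ := by
          apply ENNReal.ofReal_le_ofReal
          rw [← Finset.mul_sum]
          exact mul_le_mul_of_nonneg_left (hps ι g u w B hw hw1 hB hu hD i hi) (by positivity)
  refine (Finset.sum_le_sum hrow).trans ?_
  rw [Finset.sum_const, nsmul_eq_mul]
  have hwe : w * w ^ (-ε) = w ^ (1 - ε) := by
    rw [sub_eq_add_neg, Real.rpow_add hw, Real.rpow_one]
  have he : 2 * w * (C * B * w ^ (-ε)) = (2 * C) * B * w ^ (1 - ε) := by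
    rw [← hwe]
    ring
  rw [he, ENNReal.ofReal_mul (by positivity), ENNReal.ofReal_mul (by positivity),
    ENNReal.ofReal_rpow_of_pos hw, mul_comm]
  rfl

end Pool.Agent.Lib.MP_291c47_an.TK
end

section

/-!
# TASK TK FD: estimates in the fibres for clusters

Clusters: `cl : ι → κ`; cluster tubes `T3 j (bc g) (vc g) w'`. `kg g s = ∫_y (number of strips of the cluster g)^2`,
`DD x = ∑_g 1[x ∈ τ_g] kg g (x j)`.
-/

open scoped ENNReal NNReal BigOperators Classical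
open MeasureTheory Metric

namespace Pool.Agent.Lib.MP_291c47_an.TK

/-- indices of the cluster `g` -/
noncomputable def clu {ι κ : Type} [Fintype ι] (cl : ι → κ) (g : κ) : Finset ι :=
  Finset.univ.filter (fun i => cl i = g)

/-- square function of the cluster in the plane -/
noncomputable def kg {ι κ : Type} [Fintype ι] (cl : ι → κ) (h u : ι → ℝ) (w : ℝ) (g : κ) (s : ℝ) : ℝ≥0∞ :=
  ∫⁻ y : ℝ, (gamS (clu cl g) h u w s y) ^ 2

/-- `∑_g 1[x ∈ τ_g] kg g (x j)` -/
noncomputable def DD {ι κ : Type} [Fintype ι] [Fintype κ] (j : Fin 3) (cl : ι → κ) (bc vc : κ → Fin 3 → ℝ)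
    (h u : ι → ℝ) (w w' : ℝ) (x : Fin 3 → ℝ) : ℝ≥0∞ :=
  ∑ g, (T3 j (bc g) (vc g) w').indicator (fun _ => (1 : ℝ≥0∞)) x * kg cl h u w g (x j)

/-- PROOF. `measurable_gamS` and `Measurable.lintegral_prod_right'`. -/
theorem measurable_kg {ι κ : Type} [Fintype ι] (cl : ι → κ) (h u : ι → ℝ) (w : ℝ) (g : κ) :
    Measurable (kg cl h u w g) := by
  unfold kg
  exact Measurable.lintegral_prod_right' (f := fun p : ℝ × ℝ => (gamS (clu cl g) h u w p.1 p.2) ^ 2)
    ((measurable_gamS (clu cl g) h u w).pow_const 2)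

/-- PROOF. Finite sum of products of measurable functions (`isClosed_T3`, `measurable_kg`, `measurable_pi_apply`). -/
theorem measurable_DD {ι κ : Type} [Fintype ι] [Fintype κ] (j : Fin 3) (cl : ι → κ) (bc vc : κ → Fin 3 → ℝ)
    (h u : ι → ℝ) (w w' : ℝ) : Measurable (DD j cl bc vc h u w w') := by
  unfold DD
  refine Finset.measurable_sum _ fun g _ => ?_
  exact (measurable_const.indicator (isClosed_T3 j (bc g) (vc g) w').measurableSet).mul
    ((measurable_kg cl h u w g).comp (measurable_pi_apply j))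

private theorem FD_gamS_meas {ι : Type} (g : Finset ι) (h u : ι → ℝ) (w s : ℝ) :
    Measurable (fun y : ℝ => gamS g h u w s y) := by
  have h0 : Measurable (fun y : ℝ => ((s, y) : ℝ × ℝ)) := measurable_const.prodMk measurable_id
  have h1 := Measurable.comp (measurable_gamS g h u w) h0
  exact h1

private theorem FD_cnt4_meas {ι : Type} [Fintype ι] (j : Fin 3) (b v : ι → Fin 3 → ℝ) (h u : ι → ℝ) (w : ℝ)
    (x : Fin 3 → ℝ) : Measurable (fun y : ℝ => cnt4 j b v h u w (x, y)) := by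
  have h0 : Measurable (fun y : ℝ => ((x, y) : X)) := measurable_const.prodMk measurable_id
  have h1 := Measurable.comp (measurable_cnt4 j b v h u w) h0
  exact h1

private theorem FD_cs {κ : Type} [Fintype κ] (a G : κ → ℝ≥0∞) (ha : ∀ g, a g = 0 ∨ a g = 1) :
    (∑ g, a g * G g) ^ 2 ≤ (∑ g, a g) * ∑ g, a g * G g ^ 2 := by
  have h1 := ENNReal.inner_le_Lp_mul_Lq Finset.univ a (fun g => a g * G g) Real.HolderConjugate.two_two
  have e1 : ∑ g, a g * (a g * G g) = ∑ g, a g * G g := by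
    refine Finset.sum_congr rfl fun g _ => ?_
    rcases ha g with h | h <;> simp [h]
  have e2 : ∑ g, a g ^ (2 : ℝ) = ∑ g, a g := by
    refine Finset.sum_congr rfl fun g _ => ?_
    rcases ha g with h | h <;> simp [h]
  have e3 : ∑ g, (a g * G g) ^ (2 : ℝ) = ∑ g, a g * G g ^ 2 := by
    refine Finset.sum_congr rfl fun g _ => ?_
    rcases ha g with h | h <;> simp [h]
  rw [e1, e2, e3] at h1
  calc (∑ g, a g * G g) ^ 2 ≤ ((∑ g, a g) ^ (1 / (2 : ℝ)) * (∑ g, a g * G g ^ 2) ^ (1 / (2 : ℝ))) ^ 2 := by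
        gcongr
    _ = (∑ g, a g) * ∑ g, a g * G g ^ 2 := by
        rw [mul_pow, ← ENNReal.rpow_natCast, ← ENNReal.rpow_natCast, ← ENNReal.rpow_mul, ← ENNReal.rpow_mul]
        norm_num

private theorem FD_pt {ι κ : Type} [Fintype ι] [Fintype κ] (j : Fin 3) (b v : ι → Fin 3 → ℝ) (h u : ι → ℝ)
    (cl : ι → κ) (bc vc : κ → Fin 3 → ℝ) (w w' : ℝ) (x : Fin 3 → ℝ)
    (hcl : ∀ i, x ∈ T3 j (b i) (v i) w → x ∈ T3 j (bc (cl i)) (vc (cl i)) w') (y : ℝ) :
    cnt4 j b v h u w (x, y) ≤ ∑ g, (T3 j (bc g) (vc g) w').indicator (fun _ => (1 : ℝ≥0∞)) x *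
      gamS (clu cl g) h u w (x j) y := by
  unfold cnt4
  rw [← Finset.sum_fiberwise Finset.univ cl]
  refine Finset.sum_le_sum fun g _ => ?_
  unfold gamS clu
  rw [Finset.mul_sum]
  refine Finset.sum_le_sum fun i hi => ?_
  have hg : cl i = g := (Finset.mem_filter.1 hi).2
  by_cases hT : (x, y) ∈ T4 j (b i) (v i) (h i) (u i) w
  · have h1 : x ∈ T3 j (bc g) (vc g) w' := by
      rw [← hg]
      exact hcl i hT.1
    have h2 : y ∈ {y' : ℝ | |y' - h i - u i * x j| ≤ w} := hT.2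
    rw [Set.indicator_of_mem hT, Set.indicator_of_mem h1, Set.indicator_of_mem h2, one_mul]
  · rw [Set.indicator_of_notMem hT]
    exact zero_le

/-- `L²` in the fibre.
PROOF. `cnt4 (x, y) = ∑_g ∑_{i ∈ clu g} 1_{T4 i} (x, y) ≤ ∑_g 1_{τ_g}(x) gamS (clu g) h u w (x j) y`: if `(x, y) ∈ T4 i` then `x ∈ T3 i`, so `x ∈ τ_{cl i}` by `hcl`
(`Finset.sum_fiberwise` for the splitting). Cauchy-Schwarz for finite sums (`ENNReal.inner_le_Lp_mul_Lq` or `ENNReal.inner_le_nnorm_mul..`, or via `ENNReal.rpow_sum_le..`; with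
`1_{τ}^2 = 1_{τ}`): `(∑_g 1_{τ_g} G_g)^2 ≤ (∑_g 1_{τ_g}) (∑_g 1_{τ_g} G_g^2)`. Integrate in `y`. -/
theorem lintegral_cnt4_sq {ι κ : Type} [Fintype ι] [Fintype κ] (j : Fin 3) (b v : ι → Fin 3 → ℝ) (h u : ι → ℝ)
    (cl : ι → κ) (bc vc : κ → Fin 3 → ℝ) (w w' : ℝ) (x : Fin 3 → ℝ)
    (hcl : ∀ i, x ∈ T3 j (b i) (v i) w → x ∈ T3 j (bc (cl i)) (vc (cl i)) w') :
    ∫⁻ y : ℝ, (cnt4 j b v h u w (x, y)) ^ 2 ≤ cnt j bc vc w' x * DD j cl bc vc h u w w' x := by
  have ha : ∀ g, (T3 j (bc g) (vc g) w').indicator (fun _ => (1 : ℝ≥0∞)) x = 0 ∨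
      (T3 j (bc g) (vc g) w').indicator (fun _ => (1 : ℝ≥0∞)) x = 1 := by
    intro g
    by_cases hx : x ∈ T3 j (bc g) (vc g) w'
    · exact Or.inr (Set.indicator_of_mem hx _)
    · exact Or.inl (Set.indicator_of_notMem hx _)
  calc ∫⁻ y : ℝ, (cnt4 j b v h u w (x, y)) ^ 2
      ≤ ∫⁻ y : ℝ, (∑ g, (T3 j (bc g) (vc g) w').indicator (fun _ => (1 : ℝ≥0∞)) x) *
          ∑ g, (T3 j (bc g) (vc g) w').indicator (fun _ => (1 : ℝ≥0∞)) x * gamS (clu cl g) h u w (x j) y ^ 2 := by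
        refine lintegral_mono fun y => ?_
        refine le_trans ?_ (FD_cs _ (fun g => gamS (clu cl g) h u w (x j) y) ha)
        exact pow_le_pow_left₀ zero_le (FD_pt j b v h u cl bc vc w w' x hcl y) 2
    _ = cnt j bc vc w' x * DD j cl bc vc h u w w' x := by
        rw [lintegral_const_mul, lintegral_finsetSum]
        · unfold cnt DD kg
          congr 1
          refine Finset.sum_congr rfl fun g _ => ?_
          rw [lintegral_const_mul]
          exact (FD_gamS_meas _ h u w (x j)).pow_const 2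
        · intro g _
          exact ((FD_gamS_meas _ h u w (x j)).pow_const 2).const_mul _
        · exact Finset.measurable_sum _ fun g _ => ((FD_gamS_meas _ h u w (x j)).pow_const 2).const_mul _

/-- Fibre estimate for the exponent `4/9`.
PROOF. `ENNReal.lintegral_prod_norm_pow_le` with `f j = (cnt4 ..)^(4/3)`, `p j = 1/3`: `∫ ∏ F_j^(4/9) ≤ ∏ (∫ F_j^(4/3))^(1/3)`. By
`ENNReal.lintegral_mul_norm_pow_le` with exponents `1/3, 2/3` for `F_j^2` and `F_j`: `∫ F_j^(4/3) = ∫ (F_j^2)^(1/3) F_j^(2/3) ≤ (∫ F_j^2)^(1/3) (∫ F_j)^(2/3)`.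
Then `lintegral_cnt4_sq` and `lintegral_cnt4`. -/
theorem fibD {ι κ : Fin 3 → Type} [∀ j, Fintype (ι j)] [∀ j, Fintype (κ j)] (b v : ∀ j, ι j → Fin 3 → ℝ)
    (h u : ∀ j, ι j → ℝ) (cl : ∀ j, ι j → κ j) (bc vc : ∀ j, κ j → Fin 3 → ℝ) {w : ℝ} (hw : 0 < w) (w' : ℝ)
    (x : Fin 3 → ℝ)
    (hcl : ∀ j i, x ∈ T3 j (b j i) (v j i) w → x ∈ T3 j (bc j (cl j i)) (vc j (cl j i)) w') :
    ∫⁻ y : ℝ, ∏ j, (cnt4 j (b j) (v j) (h j) (u j) w (x, y)) ^ (4 / 9 : ℝ)
      ≤ ∏ j, (cnt j (bc j) (vc j) w' x * DD j (cl j) (bc j) (vc j) (h j) (u j) w w' x) ^ (1 / 9 : ℝ) *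
          (ENNReal.ofReal (2 * w) * cnt j (b j) (v j) w x) ^ (2 / 9 : ℝ) := by
  have hm : ∀ j : Fin 3, Measurable (fun y : ℝ => cnt4 j (b j) (v j) (h j) (u j) w (x, y)) :=
    fun j => FD_cnt4_meas j (b j) (v j) (h j) (u j) w x
  have h1 := ENNReal.lintegral_prod_norm_pow_le (μ := (volume : Measure ℝ)) (Finset.univ : Finset (Fin 3))
    (f := fun j y => (cnt4 j (b j) (v j) (h j) (u j) w (x, y)) ^ (4 / 3 : ℝ))
    (fun j _ => ((hm j).pow_const (4 / 3 : ℝ)).aemeasurable) (p := fun _ => (1 / 3 : ℝ))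
    (by simp) (fun _ _ => by norm_num)
  have e1 : ∀ y : ℝ, ∏ j, (cnt4 j (b j) (v j) (h j) (u j) w (x, y)) ^ (4 / 9 : ℝ)
      = ∏ j ∈ (Finset.univ : Finset (Fin 3)), ((cnt4 j (b j) (v j) (h j) (u j) w (x, y)) ^ (4 / 3 : ℝ)) ^ (1 / 3 : ℝ) := by
    intro y
    refine Finset.prod_congr rfl fun j _ => ?_
    rw [← ENNReal.rpow_mul]
    norm_num
  have e2 : ∫⁻ y : ℝ, ∏ j, (cnt4 j (b j) (v j) (h j) (u j) w (x, y)) ^ (4 / 9 : ℝ)
      = ∫⁻ y : ℝ, ∏ j ∈ (Finset.univ : Finset (Fin 3)), ((cnt4 j (b j) (v j) (h j) (u j) w (x, y)) ^ (4 / 3 : ℝ)) ^ (1 / 3 : ℝ) :=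
    lintegral_congr e1
  rw [e2]
  refine h1.trans (Finset.prod_le_prod' fun j _ => ?_)
  have h2 := ENNReal.lintegral_mul_norm_pow_le (μ := (volume : Measure ℝ))
    (f := fun y : ℝ => (cnt4 j (b j) (v j) (h j) (u j) w (x, y)) ^ 2)
    (g := fun y : ℝ => cnt4 j (b j) (v j) (h j) (u j) w (x, y))
    ((hm j).pow_const 2).aemeasurable (hm j).aemeasurable (p := 1 / 3) (q := 2 / 3) (by norm_num) (by norm_num) (by norm_num)
  have e3 : ∫⁻ y : ℝ, (cnt4 j (b j) (v j) (h j) (u j) w (x, y)) ^ (4 / 3 : ℝ)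
      = ∫⁻ y : ℝ, ((cnt4 j (b j) (v j) (h j) (u j) w (x, y)) ^ 2) ^ (1 / 3 : ℝ) *
        (cnt4 j (b j) (v j) (h j) (u j) w (x, y)) ^ (2 / 3 : ℝ) := by
    refine lintegral_congr fun y => ?_
    rw [← ENNReal.rpow_natCast, ← ENNReal.rpow_mul, ← ENNReal.rpow_add_of_nonneg _ _ (by norm_num) (by norm_num)]
    norm_num
  have h3 := lintegral_cnt4_sq j (b j) (v j) (h j) (u j) (cl j) (bc j) (vc j) w w' x (hcl j)
  have h4 := lintegral_cnt4 j (b j) (v j) (h j) (u j) hw x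
  rw [h4, ← e3] at h2
  calc (∫⁻ y : ℝ, (cnt4 j (b j) (v j) (h j) (u j) w (x, y)) ^ (4 / 3 : ℝ)) ^ (1 / 3 : ℝ)
      ≤ ((cnt j (bc j) (vc j) w' x * DD j (cl j) (bc j) (vc j) (h j) (u j) w w' x) ^ (1 / 3 : ℝ) *
          (ENNReal.ofReal (2 * w) * cnt j (b j) (v j) w x) ^ (2 / 3 : ℝ)) ^ (1 / 3 : ℝ) := by
        refine ENNReal.rpow_le_rpow (h2.trans ?_) (by norm_num)
        exact mul_le_mul' (ENNReal.rpow_le_rpow h3 (by norm_num)) le_rfl
    _ = _ := by
        rw [ENNReal.mul_rpow_of_nonneg _ _ (by norm_num), ← ENNReal.rpow_mul, ← ENNReal.rpow_mul]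
        norm_num

end Pool.Agent.Lib.MP_291c47_an.TK
end

section

/-!
# TASK TK DE: density of the slopes in one plane
-/

open scoped ENNReal NNReal BigOperators Classical
open MeasureTheory Metric

namespace Pool.Agent.Lib.MP_291c47_an.TK

/-- PROOF. Let `i ∈ g`, `t ≥ 0`, `g' ⊆ g` with `|su i' - su i| ≤ t` on `g'`. Apply `cells` to `g'` with `f 0 = sl .. (j.succAbove 0)`, `f 1 = sl .. (j.succAbove 1)`, `f 2 = su ..`,
`s = δ/9`, the box `vP k - 8E ≤ sl k ≤ vP k + 8E` (`slope_plane`, `L = 16 E`, `E = Λ A δ`) and `su i - t ≤ su ≤ su i + t` (`L = 2t`). Separation: if all three differences are `< δ/9`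
then `sep_slopes` (every `k ≠ j` is a `j.succAbove l`) gives `‖dir - dir'‖ < δ`, contradiction to `Separated`. So
`card g' ≤ (16E/s + 1)^2 (2t/s + 1) = (144 Λ A + 1)^2 (18 t/δ + 1) ≤ (144 Λ A + 1)^2 · 36 Λ (1 + t/(2Λδ))`, as `Λ ≥ 1` and `18 t/δ = 36 Λ t/(2Λδ)`. -/
theorem dens_plane {δ : ℝ} (hδ : 0 < δ) {e : Fin 3 → E4} {ω : E4} {Λ A η : ℝ} {Ψ : E4 →ₗ[ℝ] X} (h : Coord e ω Λ Ψ)
    (hΛ : 1 ≤ Λ) (hA : 1 ≤ A) (hη0 : 0 < η) (hη1 : η ≤ 1) (hE' : Λ * A * δ ≤ η / 32) (j : Fin 3)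
    {ι : Type} (T : ι → Tube δ) (hsep : Separated T) (hT : ∀ i, Λ * ‖(T i).dir - e j‖ ≤ η / 4) (a u : E4)
    (g : Finset ι) (hP : ∀ i ∈ g, ∀ x ∈ (T i).carrier, ∃ s t : ℝ, ‖x - (a + s • u + t • ω)‖ ≤ A * δ) :
    Dens g (fun i => su Ψ j (T i)) (2 * Λ * δ) (36 * Λ * (144 * Λ * A + 1) ^ 2) := by
  intro i hi t ht g' hg' hclose
  have hE : 0 ≤ Λ * A * δ := by positivity
  have hs : (0 : ℝ) < δ / 9 := by positivity
  set E : ℝ := Λ * A * δ with hEdef
  have hbox2 : ∀ i' ∈ g', ∀ l : Fin 2,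
      |sl Ψ j (T i') (j.succAbove l) - vP Ψ j u (j.succAbove l)| ≤ 8 * E := fun i' hi' l =>
    (slope_plane hδ.le h hη0 hη1 hE hE' j (T i') (hT i') a u (hP i' (hg' hi')) (j.succAbove l)
      (Fin.succAbove_ne j l)).2
  have hc := cells g'
    ![fun i' => sl Ψ j (T i') (j.succAbove 0), fun i' => sl Ψ j (T i') (j.succAbove 1), fun i' => su Ψ j (T i')]
    ![vP Ψ j u (j.succAbove 0) - 8 * E, vP Ψ j u (j.succAbove 1) - 8 * E, su Ψ j (T i) - t]
    ![16 * E, 16 * E, 2 * t] hs ?_ ?_ ?_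
  · refine hc.trans ?_
    rw [Fin.prod_univ_three]
    simp only [Matrix.cons_val_zero, Matrix.cons_val_one, Matrix.cons_val_two, Matrix.head_cons, Matrix.tail_cons,
      Matrix.cons_val]
    have e1 : 16 * E / (δ / 9) = 144 * Λ * A := by
      rw [hEdef]; field_simp; ring
    have e2 : 2 * t / (δ / 9) = 18 * t / δ := by
      field_simp; ring
    rw [e1, e2]
    have e3 : 36 * Λ * (144 * Λ * A + 1) ^ 2 * (1 + t / (2 * Λ * δ)) =
        (144 * Λ * A + 1) * (144 * Λ * A + 1) * (18 * t / δ + 36 * Λ) := by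
      field_simp; ring
    rw [e3]
    refine mul_le_mul_of_nonneg_left ?_ (by positivity)
    linarith
  · intro k
    fin_cases k
    · show (0 : ℝ) ≤ 16 * E
      positivity
    · show (0 : ℝ) ≤ 16 * E
      positivity
    · show (0 : ℝ) ≤ 2 * t
      positivity
  · intro i' hi' k
    fin_cases k
    · have h1 := abs_le.1 (hbox2 i' hi' 0)
      show vP Ψ j u (j.succAbove 0) - 8 * E ≤ sl Ψ j (T i') (j.succAbove 0) ∧
        sl Ψ j (T i') (j.succAbove 0) ≤ vP Ψ j u (j.succAbove 0) - 8 * E + 16 * E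
      constructor <;> linarith [h1.1, h1.2]
    · have h1 := abs_le.1 (hbox2 i' hi' 1)
      show vP Ψ j u (j.succAbove 1) - 8 * E ≤ sl Ψ j (T i') (j.succAbove 1) ∧
        sl Ψ j (T i') (j.succAbove 1) ≤ vP Ψ j u (j.succAbove 1) - 8 * E + 16 * E
      constructor <;> linarith [h1.1, h1.2]
    · have h1 := abs_le.1 (hclose i' hi')
      show su Ψ j (T i) - t ≤ su Ψ j (T i') ∧ su Ψ j (T i') ≤ su Ψ j (T i) - t + 2 * t
      constructor <;> linarith [h1.1, h1.2]
  · intro i' hi' i'' hi'' hne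
    by_contra hcon
    push Not at hcon
    have h0 := hcon 0
    have h1 := hcon 1
    have h2 := hcon 2
    have h0' : |sl Ψ j (T i') (j.succAbove 0) - sl Ψ j (T i'') (j.succAbove 0)| < δ / 9 := h0
    have h1' : |sl Ψ j (T i') (j.succAbove 1) - sl Ψ j (T i'') (j.succAbove 1)| < δ / 9 := h1
    have h2' : |su Ψ j (T i') - su Ψ j (T i'')| < δ / 9 := h2
    refine absurd (sep_slopes hδ h hη1 j (T i') (T i'') (hT i') (hT i'') ?_ h2') (not_lt.2 (hsep i' i'' hne).1)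
    intro k hk
    obtain ⟨l, rfl⟩ := Fin.exists_succAbove_eq hk
    fin_cases l
    · exact h0'
    · exact h1'

end Pool.Agent.Lib.MP_291c47_an.TK
end

section

/-!
# TASK TK CR: Cramer's rule with bounds
-/

open scoped ENNReal NNReal BigOperators
open MeasureTheory Metric

namespace Pool.Agent.Lib.MP_291c47_an.TK

/-- PROOF. `Matrix.det_apply`: sum over 24 permutations of products of entries; an entry of row `k` is at most `‖b k‖` (`EuclideanSpace.norm_eq` / `PiLp.norm_apply_le`). -/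
theorem det4_le (b : Fin 4 → E4) : |det4 b| ≤ 24 * ∏ k, ‖b k‖ := by
  unfold det4
  rw [Matrix.det_apply]
  have h1 : ∀ σ : Equiv.Perm (Fin 4), |Equiv.Perm.sign σ • ∏ i, (Matrix.of fun k i : Fin 4 => b k i) (σ i) i| ≤
      ∏ k, ‖b k‖ := by
    intro σ
    have h2 : |Equiv.Perm.sign σ • ∏ i, (Matrix.of fun k i : Fin 4 => b k i) (σ i) i| =
        |∏ i, (Matrix.of fun k i : Fin 4 => b k i) (σ i) i| := by
      rcases Int.units_eq_one_or (Equiv.Perm.sign σ) with h | h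
      · rw [h, one_smul]
      · rw [h, Units.neg_smul, one_smul, abs_neg]
    rw [h2, Finset.abs_prod, ← Equiv.prod_comp σ (fun k => ‖b k‖)]
    refine Finset.prod_le_prod (fun i _ => abs_nonneg _) fun i _ => ?_
    rw [← Real.norm_eq_abs]
    exact PiLp.norm_apply_le (b (σ i)) i
  refine (Finset.abs_sum_le_sum_abs _ _).trans ?_
  refine (Finset.sum_le_sum fun σ _ => h1 σ).trans ?_
  rw [Finset.sum_const, nsmul_eq_mul]
  have h3 : ((Finset.univ : Finset (Equiv.Perm (Fin 4))).card : ℝ) = 24 := by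
    rw [Finset.card_univ, Fintype.card_perm, Fintype.card_fin]
    norm_num [Nat.factorial]
  rw [h3]

/-- Cramer's rule: `det4 (b with b k replaced by ∑ y l b l) = y k det4 b`.
PROOF. Multilinearity in the row `k` and vanishing of the determinant with two equal rows (`Matrix.det_updateRow_sum`-type lemmas, or expand everything with
`Fin 4` and `ring`). -/
theorem det4_update (b : Fin 4 → E4) (y : Fin 4 → ℝ) (k : Fin 4) :
    det4 (Function.update b k (∑ l, y l • b l)) = y k * det4 b := by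
  unfold det4
  have h1 := Matrix.det_updateRow_sum (Matrix.of fun k i : Fin 4 => b k i) k y
  rw [smul_eq_mul] at h1
  rw [← h1]
  congr 1
  ext k' i
  rcases eq_or_ne k' k with h | h
  · subst h
    simp [Matrix.updateRow_self, Function.update_self, Finset.sum_apply]
  · simp [Matrix.updateRow_ne h, Function.update_of_ne h]

/-- Coordinates.
PROOF. `b := ![e 0, e 1, e 2, ω]` has nonzero determinant, so it is a basis of `E4` (linear independence from `det ≠ 0`, `Matrix.linearIndependent_rows_iff_isUnit` or via `det4_update`: if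
`∑ y l b l = 0` then `y k det4 b = det4 (update b k 0) = 0`; so `Phi e ω` is injective, hence bijective: `X` and `E4` have dimension 4). `Ψ` = inverse of `Phi e ω`.
Bound: for `x = ∑ y l b l`: `|y k| |det4 b| = |det4 (update b k x)| ≤ 24 ‖x‖` by `det4_le` (the other rows are unit vectors), so `|y k| ≤ (24/c) ‖x‖`; the sup norm of
`Ψ x = (y 0, y 1, y 2; y 3)` is the maximum (`Prod.norm_def`, `pi_norm_le_iff_of_nonneg`). -/
theorem exists_coord (c : ℝ) (hc : 0 < c) (e : Fin 3 → E4) (ω : E4) (he : ∀ k, ‖e k‖ = 1) (hω : ‖ω‖ = 1)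
    (hdet : c ≤ |det4 ![e 0, e 1, e 2, ω]|) : ∃ Ψ : E4 →ₗ[ℝ] X, Coord e ω (24 / c + 1) Ψ := by
  have hb : ∀ k, ‖(![e 0, e 1, e 2, ω] : Fin 4 → E4) k‖ = 1 := by
    intro k
    fin_cases k <;> simp [he, hω]
  have hPhi : ∀ p : X, Phi e ω p = ∑ l, (![p.1 0, p.1 1, p.1 2, p.2] : Fin 4 → ℝ) l •
      (![e 0, e 1, e 2, ω] : Fin 4 → E4) l := by
    intro p
    have h1 : Phi e ω p = (∑ k, p.1 k • e k) + p.2 • ω := rfl
    rw [h1, Fin.sum_univ_three, Fin.sum_univ_four]
    simp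
  obtain ⟨D, hD⟩ : ∃ D, D = det4 ![e 0, e 1, e 2, ω] := ⟨_, rfl⟩
  have hDc : c ≤ |D| := by rw [hD]; exact hdet
  have hD0 : 0 < |D| := lt_of_lt_of_le hc hDc
  have hcoef : ∀ p : X, ∀ k, |(![p.1 0, p.1 1, p.1 2, p.2] : Fin 4 → ℝ) k| ≤ 24 / c * ‖Phi e ω p‖ := by
    intro p k
    have h1 := det4_update ![e 0, e 1, e 2, ω] ![p.1 0, p.1 1, p.1 2, p.2] k
    rw [← hPhi, ← hD] at h1
    have h2 := det4_le (Function.update ![e 0, e 1, e 2, ω] k (Phi e ω p))
    have h3 : ∏ l, ‖Function.update ![e 0, e 1, e 2, ω] k (Phi e ω p) l‖ = ‖Phi e ω p‖ := by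
      rw [Finset.prod_eq_single k]
      · rw [Function.update_self]
      · intro l _ hl
        rw [Function.update_of_ne hl]
        exact hb l
      · intro h
        exact absurd (Finset.mem_univ k) h
    rw [h3, h1, abs_mul] at h2
    have h4 : |(![p.1 0, p.1 1, p.1 2, p.2] : Fin 4 → ℝ) k| * c ≤ 24 * ‖Phi e ω p‖ :=
      (mul_le_mul_of_nonneg_left hDc (abs_nonneg _)).trans h2
    rw [div_mul_eq_mul_div, le_div_iff₀ hc]
    exact h4
  have hinj : Function.Injective (Phi e ω) := by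
    rw [← LinearMap.ker_eq_bot, LinearMap.ker_eq_bot']
    intro p hp
    have h1 := hcoef p
    rw [hp, norm_zero, mul_zero] at h1
    have h0 := h1 0
    have h1' := h1 1
    have h2 := h1 2
    have h3 := h1 3
    simp only [Matrix.cons_val_zero, Matrix.cons_val_one, Matrix.cons_val] at h0 h1' h2 h3
    have g0 := abs_nonpos_iff.mp h0
    have g1 := abs_nonpos_iff.mp h1'
    have g2 := abs_nonpos_iff.mp h2
    have g3 := abs_nonpos_iff.mp h3
    ext k
    · fin_cases k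
      · exact g0
      · exact g1
      · exact g2
    · exact g3
  have hfr : Module.finrank ℝ X = Module.finrank ℝ E4 := by
    rw [Module.finrank_prod, Module.finrank_fin_fun, Module.finrank_self, finrank_euclideanSpace, Fintype.card_fin]
  have hsurj : Function.Surjective (Phi e ω) :=
    (LinearMap.injective_iff_surjective_of_finrank_eq_finrank hfr).mp hinj
  refine ⟨(LinearEquiv.ofBijective (Phi e ω) ⟨hinj, hsurj⟩).symm.toLinearMap, he, hω, ?_, ?_, ?_⟩
  · intro x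
    exact LinearEquiv.apply_symm_apply (LinearEquiv.ofBijective (Phi e ω) ⟨hinj, hsurj⟩) x
  · intro p
    exact LinearEquiv.symm_apply_apply (LinearEquiv.ofBijective (Phi e ω) ⟨hinj, hsurj⟩) p
  · intro x
    obtain ⟨p, rfl⟩ := hsurj x
    have h1 : (LinearEquiv.ofBijective (Phi e ω) ⟨hinj, hsurj⟩).symm.toLinearMap (Phi e ω p) = p :=
      LinearEquiv.symm_apply_apply (LinearEquiv.ofBijective (Phi e ω) ⟨hinj, hsurj⟩) p
    rw [h1]
    have h2 : 24 / c * ‖Phi e ω p‖ ≤ (24 / c + 1) * ‖Phi e ω p‖ := by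
      have := norm_nonneg (Phi e ω p)
      nlinarith
    have h3 : 0 ≤ (24 / c + 1) * ‖Phi e ω p‖ := by positivity
    rw [Prod.norm_def]
    refine max_le ((pi_norm_le_iff_of_nonneg h3).mpr fun k => ?_) ?_
    · rw [Real.norm_eq_abs]
      refine le_trans ?_ h2
      fin_cases k
      · simpa using hcoef p 0
      · simpa using hcoef p 1
      · simpa using hcoef p 2
    · rw [Real.norm_eq_abs]
      refine le_trans ?_ h2
      simpa using hcoef p 3

end Pool.Agent.Lib.MP_291c47_an.TK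
end
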