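import Pool.Agent.Lib.MP_291c47_an.Mg.G003
import Pool.Agent.Lib.MP_291c47_an.Mg.G002

section

/-!
# TASK TK CC: estimate for one triple of caps, exponent `1/2`
-/

open scoped ENNReal NNReal BigOperators Classical
open MeasureTheory Metric

namespace Pool.Agent.Lib.MP_291c47_an.TK

/-- PROOF. `η`, `C₁` from `modelC`; `reduce` with `r = 1/2`; for every `z`, `modelInt ≤ C₁ ofReal (2Λδ)^(4-ε) ∏ (meets.card)^(1/2) ≤ C₁ ofReal (2Λδ)^(4-ε) ∏ nb^(1/2)` by `modelC`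
(slopes `≤ η/2` by `slopes`; `Fintype.card_coe`) and `meets_le_nb`; `int_nb_half`. -/
theorem capC (ε Λ : ℝ) (hε : 0 < ε) (hε1 : ε ≤ 1) (hΛ : 1 ≤ Λ) :
    ∃ η : ℝ, 0 < η ∧ η ≤ 1 ∧ ∃ C : ℝ≥0, ∀ (δ : ℝ), 0 < δ → δ < 1 → ∀ (e : Fin 3 → E4) (ω : E4) (Ψ : E4 →ₗ[ℝ] X),
      Coord e ω Λ Ψ → ∀ (ι : Fin 3 → Type) [∀ j, Fintype (ι j)] (T : ∀ j, ι j → Tube δ),
      (∀ j i, Λ * ‖(T j i).dir - e j‖ ≤ η / 4) →
      ∫⁻ x, ∏ j, (cntE (T j) x) ^ (1 / 2 : ℝ)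
        ≤ C * ENNReal.ofReal δ ^ (4 - ε) * ∏ j, (Fintype.card (ι j) : ℝ≥0∞) ^ (1 / 2 : ℝ) := by
  obtain ⟨η, hη, hη1, C₁, hC₁⟩ := modelC ε hε (by linarith)
  obtain ⟨K, hK⟩ := reduce
  refine ⟨η, hη, hη1, K * (C₁ * (Real.toNNReal (2 * Λ)) ^ (4 - ε) * (Real.toNNReal (3 * Λ + 1)) ^ 4), ?_⟩
  intro δ hδ hδ1 e ω Ψ hc ι _ T hT
  have hΛ0 : 0 ≤ Λ := by linarith
  have hw : 0 < 2 * Λ * δ := by positivity
  have h1 := hK δ hδ.le e ω Λ η (1 / 2) Ψ hc hη1 (by norm_num) ι T hT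
  have h2 : ∀ z : X, modelInt Λ (1 / 2) Ψ T z ≤ C₁ * ENNReal.ofReal (2 * Λ * δ) ^ (4 - ε) *
      ∏ j, (nb Λ Ψ (T j) z) ^ (1 / 2 : ℝ) := by
    intro z
    have h3 := hC₁ (fun j => {i // i ∈ meets Ψ (T j) z}) (fun j i => pb Ψ j z (T j i))
      (fun j i => sl Ψ j (T j i)) (fun j i => ph Ψ j z (T j i)) (fun j i => su Ψ j (T j i))
      (2 * Λ * δ) hw (fun j i k hk => by
        have h4 := (slopes hc hη1 j (T j i) (hT j i)).1 k hk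
        linarith)
    refine le_trans h3 (mul_le_mul_right ?_ _)
    refine Finset.prod_le_prod' fun j _ => ?_
    refine ENNReal.rpow_le_rpow ?_ (by norm_num)
    rw [Fintype.card_coe]
    exact meets_le_nb hδ.le hδ1.le hc (T j) z
  have h5 : ENNReal.ofReal (2 * Λ * δ) ^ (4 - ε) ≠ ⊤ :=
    ENNReal.rpow_ne_top_of_nonneg (by linarith) ENNReal.ofReal_ne_top
  have h6 : (C₁ : ℝ≥0∞) * ENNReal.ofReal (2 * Λ * δ) ^ (4 - ε) ≠ ⊤ :=
    ENNReal.mul_ne_top ENNReal.coe_ne_top h5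
  have h7 : ENNReal.ofReal (2 * Λ * δ) ^ (4 - ε) =
      (Real.toNNReal (2 * Λ) : ℝ≥0∞) ^ (4 - ε) * ENNReal.ofReal δ ^ (4 - ε) := by
    rw [ENNReal.ofReal_mul (by positivity : (0:ℝ) ≤ 2 * Λ), ENNReal.mul_rpow_of_nonneg _ _ (by linarith)]
    rfl
  calc ∫⁻ x, ∏ j, (cntE (T j) x) ^ (1 / 2 : ℝ) ≤ K * ∫⁻ z, modelInt Λ (1 / 2) Ψ T z := h1
    _ ≤ K * ∫⁻ z, C₁ * ENNReal.ofReal (2 * Λ * δ) ^ (4 - ε) *
          ∏ j, (nb Λ Ψ (T j) z) ^ (1 / 2 : ℝ) := by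
        gcongr with z
        exact h2 z
    _ = K * (C₁ * ENNReal.ofReal (2 * Λ * δ) ^ (4 - ε) *
          ∫⁻ z, ∏ j, (nb Λ Ψ (T j) z) ^ (1 / 2 : ℝ)) := by
        rw [lintegral_const_mul' _ _ h6]
    _ ≤ K * (C₁ * ENNReal.ofReal (2 * Λ * δ) ^ (4 - ε) *
          (ENNReal.ofReal (3 * Λ + 1) ^ 4 * ∏ j, (Fintype.card (ι j) : ℝ≥0∞) ^ (1 / 2 : ℝ))) := by
        gcongr
        exact int_nb_half hΛ0 Ψ T
    _ = _ := by
        rw [h7]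
        push_cast
        rw [ENNReal.coe_rpow_of_nonneg _ (by linarith)]
        simp only [ENNReal.ofReal]
        ring

end Pool.Agent.Lib.MP_291c47_an.TK
end

section

/-!
# TASK TK ID: the integral of `DD`
-/

open scoped ENNReal NNReal BigOperators Classical
open MeasureTheory Metric

namespace Pool.Agent.Lib.MP_291c47_an.TK

/-- PROOF. `lintegral_finset_sum`, then `tube_slice` for every cluster `g` (with `k = kg cl h u w g`), then `planar` for the cluster `clu cl g`: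
`∫_{[-1,1]} kg g ≤ C ofReal B · ofReal w^(1-ε) · (clu g).card`; finally `∑_g (clu g).card = card ι` (`Finset.card_eq_sum_card_fiberwise`). `C` is that of `planar`. -/
theorem int_DD (ε : ℝ) (hε : 0 < ε) : ∃ C : ℝ≥0, ∀ (ι κ : Type) [Fintype ι] [Fintype κ] (j : Fin 3)
    (cl : ι → κ) (bc vc : κ → Fin 3 → ℝ) (h u : ι → ℝ) (w w' B : ℝ), 0 < w → w ≤ 1 → 0 < w' → 0 ≤ B →
    (∀ i, |u i| ≤ 1) → (∀ g, Dens (clu cl g) u w B) →
    ∫⁻ x in closedBall (0 : Fin 3 → ℝ) 1, DD j cl bc vc h u w w' x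
      ≤ C * ENNReal.ofReal (2 * w') ^ 2 * ENNReal.ofReal B * ENNReal.ofReal w ^ (1 - ε) *
        (Fintype.card ι : ℝ≥0∞) := by
  obtain ⟨C, hC⟩ := planar ε hε
  refine ⟨C, ?_⟩
  intro ι κ _ _ j cl bc vc h u w w' B hw hw1 hw' hB hu hDens
  have hmeas : ∀ g : κ, Measurable (fun x : Fin 3 → ℝ =>
      (T3 j (bc g) (vc g) w').indicator (fun _ => (1 : ℝ≥0∞)) x * kg cl h u w g (x j)) := by
    intro g
    refine Measurable.mul (measurable_const.indicator (isClosed_T3 j (bc g) (vc g) w').measurableSet) ?_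
    exact (measurable_kg cl h u w g).comp (measurable_pi_apply j)
  have h1 : ∫⁻ x in closedBall (0 : Fin 3 → ℝ) 1, DD j cl bc vc h u w w' x =
      ∑ g, ∫⁻ x in closedBall (0 : Fin 3 → ℝ) 1,
        (T3 j (bc g) (vc g) w').indicator (fun _ => (1 : ℝ≥0∞)) x * kg cl h u w g (x j) := by
    unfold DD
    rw [lintegral_finsetSum _ (fun g _ => hmeas g)]
  have h2 : ∀ g : κ, ∫⁻ x in closedBall (0 : Fin 3 → ℝ) 1,
        (T3 j (bc g) (vc g) w').indicator (fun _ => (1 : ℝ≥0∞)) x * kg cl h u w g (x j) ≤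
      ENNReal.ofReal (2 * w') ^ 2 * (C * ENNReal.ofReal B * ENNReal.ofReal w ^ (1 - ε) * ((clu cl g).card : ℝ≥0∞)) := by
    intro g
    refine (tube_slice j (bc g) (vc g) hw'.le _ (measurable_kg cl h u w g)).trans ?_
    refine mul_le_mul_right ?_ _
    exact hC ι (clu cl g) h u w B hw hw1 hB (fun i _ => hu i) (hDens g)
  have h3 : ∑ g : κ, ((clu cl g).card : ℝ≥0∞) = (Fintype.card ι : ℝ≥0∞) := by
    have h4 : ∑ g : κ, (clu cl g).card = Fintype.card ι := by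
      have h5 := Finset.card_eq_sum_card_fiberwise (f := cl) (s := Finset.univ) (t := (Finset.univ : Finset κ))
        (fun i _ => Finset.mem_univ _)
      rw [Finset.card_univ] at h5
      rw [h5]
      rfl
    rw [← h4]
    push_cast
    rfl
  rw [h1]
  calc ∑ g, ∫⁻ x in closedBall (0 : Fin 3 → ℝ) 1,
        (T3 j (bc g) (vc g) w').indicator (fun _ => (1 : ℝ≥0∞)) x * kg cl h u w g (x j)
      ≤ ∑ g : κ, ENNReal.ofReal (2 * w') ^ 2 *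
          (C * ENNReal.ofReal B * ENNReal.ofReal w ^ (1 - ε) * ((clu cl g).card : ℝ≥0∞)) :=
        Finset.sum_le_sum (fun g _ => h2 g)
    _ = ENNReal.ofReal (2 * w') ^ 2 * (C * ENNReal.ofReal B * ENNReal.ofReal w ^ (1 - ε) *
          ∑ g : κ, ((clu cl g).card : ℝ≥0∞)) := by
        rw [← Finset.mul_sum, ← Finset.mul_sum]
    _ = C * ENNReal.ofReal (2 * w') ^ 2 * ENNReal.ofReal B * ENNReal.ofReal w ^ (1 - ε) *
        (Fintype.card ι : ℝ≥0∞) := by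
        rw [h3]; ring

/-- Hölder with exponents `4/9, 2/9, 1/9, 1/9, 1/9`.
PROOF. `∏_j (P_j D_j)^(1/9) (Q_j)^(2/9) = (∏_j Q_j^(1/2))^(4/9) · (∏_j P_j^(1/2))^(2/9) · ∏_j D_j^(1/9)` pointwise (all exponents nonnegative, `ENNReal.mul_rpow_of_nonneg`,
`ENNReal.rpow_mul`, `ENNReal.prod_rpow_of_nonneg`), then `ENNReal.lintegral_prod_norm_pow_le` for five functions (e.g. index `Fin 5` or `Option (Option (Fin 3))`). -/
theorem hoelder5 {α : Type} [MeasurableSpace α] (μ : Measure α) (P D Q : Fin 3 → α → ℝ≥0∞)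
    (hP : ∀ j, Measurable (P j)) (hD : ∀ j, Measurable (D j)) (hQ : ∀ j, Measurable (Q j)) :
    ∫⁻ x, ∏ j, (P j x * D j x) ^ (1 / 9 : ℝ) * (Q j x) ^ (2 / 9 : ℝ) ∂μ
      ≤ (∫⁻ x, ∏ j, (Q j x) ^ (1 / 2 : ℝ) ∂μ) ^ (4 / 9 : ℝ) * (∫⁻ x, ∏ j, (P j x) ^ (1 / 2 : ℝ) ∂μ) ^ (2 / 9 : ℝ) *
        ∏ j, (∫⁻ x, D j x ∂μ) ^ (1 / 9 : ℝ) := by
  have hQm : Measurable (fun x => ∏ j, (Q j x) ^ (1 / 2 : ℝ)) :=
    Finset.measurable_fun_prod _ (fun j _ => (hQ j).pow_const _)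
  have hPm : Measurable (fun x => ∏ j, (P j x) ^ (1 / 2 : ℝ)) :=
    Finset.measurable_fun_prod _ (fun j _ => (hP j).pow_const _)
  let f : Option (Option (Fin 3)) → α → ℝ≥0∞ := fun o =>
    match o with
    | none => fun x => ∏ j, (Q j x) ^ (1 / 2 : ℝ)
    | some none => fun x => ∏ j, (P j x) ^ (1 / 2 : ℝ)
    | some (some j) => D j
  let p : Option (Option (Fin 3)) → ℝ := fun o =>
    match o with
    | none => 4 / 9
    | some none => 2 / 9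
    | some (some _) => 1 / 9
  have hf : ∀ o ∈ (Finset.univ : Finset (Option (Option (Fin 3)))), AEMeasurable (f o) μ := by
    intro o _
    rcases o with _ | _ | j
    · exact hQm.aemeasurable
    · exact hPm.aemeasurable
    · exact (hD j).aemeasurable
  have hp : ∑ o, p o = 1 := by
    rw [Fintype.sum_option, Fintype.sum_option, Fin.sum_univ_three]
    simp only [p]
    norm_num
  have hp0 : ∀ o ∈ (Finset.univ : Finset (Option (Option (Fin 3)))), 0 ≤ p o := by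
    intro o _
    rcases o with _ | _ | j <;> simp only [p] <;> norm_num
  have key := ENNReal.lintegral_prod_norm_pow_le (μ := μ) Finset.univ hf hp hp0
  have hl : ∀ x, ∏ j, (P j x * D j x) ^ (1 / 9 : ℝ) * (Q j x) ^ (2 / 9 : ℝ) = ∏ o, f o x ^ p o := by
    intro x
    rw [Fintype.prod_option, Fintype.prod_option]
    simp only [f, p]
    rw [← ENNReal.prod_rpow_of_nonneg (by norm_num : (0 : ℝ) ≤ 4 / 9),
      ← ENNReal.prod_rpow_of_nonneg (by norm_num : (0 : ℝ) ≤ 2 / 9), ← Finset.prod_mul_distrib,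
      ← Finset.prod_mul_distrib]
    refine Finset.prod_congr rfl (fun j _ => ?_)
    rw [ENNReal.mul_rpow_of_nonneg _ _ (by norm_num : (0 : ℝ) ≤ 1 / 9), ← ENNReal.rpow_mul, ← ENNReal.rpow_mul]
    norm_num
    ring
  calc ∫⁻ x, ∏ j, (P j x * D j x) ^ (1 / 9 : ℝ) * (Q j x) ^ (2 / 9 : ℝ) ∂μ
      = ∫⁻ x, ∏ o, f o x ^ p o ∂μ := lintegral_congr hl
    _ ≤ ∏ o, (∫⁻ x, f o x ∂μ) ^ p o := key
    _ = _ := by
        rw [Fintype.prod_option, Fintype.prod_option]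
        simp only [f, p]
        ring

end Pool.Agent.Lib.MP_291c47_an.TK
end

section

/-!
# TASK TK MD: model estimate for the exponent `4/9`
-/

open scoped ENNReal NNReal BigOperators Classical
open MeasureTheory Metric

namespace Pool.Agent.Lib.MP_291c47_an.TK

/-- PROOF (powers). `W = ofReal w' ∈ (0, ∞)`, the product of `(2^(3/2) W^(3/2) C₁ W^(3-ε) N)^(4/9)`, `(C₁ W^(3-ε) M)^(2/9)` and `∏_j (C₂ 4 W^2 B W^(1-ε) N_j)^(1/9)`; here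
`N = ∏ N_j^(1/2)`, `M = ∏ m_j^(1/2)`. Exponent of `W`: `(9/2-ε)(4/9) + (3-ε)(2/9) + 3 (3-ε)/9 = 11/3 - ε`; of `N_j`: `2/9 + 1/9 = 1/3`; of `m_j`: `1/9`.
Use `ENNReal.rpow_add` (base `≠ 0, ≠ ⊤`), `ENNReal.mul_rpow_of_nonneg`, `ENNReal.rpow_mul`, `ENNReal.prod_rpow_of_nonneg`. -/
theorem pow_MD (ε : ℝ) (C₁ C₂ B : ℝ≥0) : ∃ C : ℝ≥0, ∀ (W : ℝ≥0∞) (N m : Fin 3 → ℝ≥0∞), W ≠ 0 → W ≠ ⊤ →
    ((2 * W) ^ (3 / 2 : ℝ) * (C₁ * W ^ (3 - ε) * ∏ j, (N j) ^ (1 / 2 : ℝ))) ^ (4 / 9 : ℝ) *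
      (C₁ * W ^ (3 - ε) * ∏ j, (m j) ^ (1 / 2 : ℝ)) ^ (2 / 9 : ℝ) *
      ∏ j, (C₂ * (2 * W) ^ 2 * B * W ^ (1 - ε) * N j) ^ (1 / 9 : ℝ)
    ≤ C * W ^ (11 / 3 - ε) * ∏ j, (N j) ^ (1 / 3 : ℝ) * (m j) ^ (1 / 9 : ℝ) := by
  refine ⟨(2 : ℝ≥0) ^ (2 / 3 : ℝ) * C₁ ^ (4 / 9 : ℝ) * C₁ ^ (2 / 9 : ℝ) * ((C₂ * 4 * B) ^ (1 / 9 : ℝ)) ^ 3, ?_⟩
  intro W N m h0 ht
  have e1 : ((2 * W) ^ (3 / 2 : ℝ) * (C₁ * W ^ (3 - ε) * ∏ j, (N j) ^ (1 / 2 : ℝ))) ^ (4 / 9 : ℝ) =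
      (2 : ℝ≥0∞) ^ (2 / 3 : ℝ) * W ^ (2 / 3 : ℝ) * ((C₁ : ℝ≥0∞) ^ (4 / 9 : ℝ) * W ^ ((3 - ε) * (4 / 9)) *
        ∏ j, (N j) ^ (2 / 9 : ℝ)) := by
    rw [ENNReal.mul_rpow_of_nonneg _ _ (by norm_num : (0:ℝ) ≤ 4 / 9), ← ENNReal.rpow_mul,
      ENNReal.mul_rpow_of_nonneg _ _ (by norm_num : (0:ℝ) ≤ 3 / 2 * (4 / 9)),
      ENNReal.mul_rpow_of_nonneg _ _ (by norm_num : (0:ℝ) ≤ 4 / 9),
      ENNReal.mul_rpow_of_nonneg _ _ (by norm_num : (0:ℝ) ≤ 4 / 9), ← ENNReal.rpow_mul,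
      ← ENNReal.prod_rpow_of_nonneg (by norm_num : (0:ℝ) ≤ 4 / 9)]
    have h1 : ∀ j : Fin 3, ((N j) ^ (1 / 2 : ℝ)) ^ (4 / 9 : ℝ) = (N j) ^ (2 / 9 : ℝ) := by
      intro j
      rw [← ENNReal.rpow_mul]
      norm_num
    rw [Finset.prod_congr rfl fun j _ => h1 j]
    norm_num
  have e2 : (C₁ * W ^ (3 - ε) * ∏ j, (m j) ^ (1 / 2 : ℝ)) ^ (2 / 9 : ℝ) =
      (C₁ : ℝ≥0∞) ^ (2 / 9 : ℝ) * W ^ ((3 - ε) * (2 / 9)) * ∏ j, (m j) ^ (1 / 9 : ℝ) := by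
    rw [ENNReal.mul_rpow_of_nonneg _ _ (by norm_num : (0:ℝ) ≤ 2 / 9),
      ENNReal.mul_rpow_of_nonneg _ _ (by norm_num : (0:ℝ) ≤ 2 / 9), ← ENNReal.rpow_mul,
      ← ENNReal.prod_rpow_of_nonneg (by norm_num : (0:ℝ) ≤ 2 / 9)]
    have h1 : ∀ j : Fin 3, ((m j) ^ (1 / 2 : ℝ)) ^ (2 / 9 : ℝ) = (m j) ^ (1 / 9 : ℝ) := by
      intro j
      rw [← ENNReal.rpow_mul]
      norm_num
    rw [Finset.prod_congr rfl fun j _ => h1 j]
  have e3 : ∀ j : Fin 3, (C₂ * (2 * W) ^ 2 * B * W ^ (1 - ε) * N j) ^ (1 / 9 : ℝ) =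
      ((C₂ : ℝ≥0∞) * 4 * B) ^ (1 / 9 : ℝ) * W ^ ((3 - ε) * (1 / 9)) * (N j) ^ (1 / 9 : ℝ) := by
    intro j
    have h1 : (C₂ * (2 * W) ^ 2 * B * W ^ (1 - ε) * N j : ℝ≥0∞) = ((C₂ : ℝ≥0∞) * 4 * B) * W ^ (3 - ε) * N j := by
      have h2 : W ^ (3 - ε) = W ^ 2 * W ^ (1 - ε) := by
        rw [← ENNReal.rpow_two, ← ENNReal.rpow_add _ _ h0 ht]
        congr 1
        ring
      rw [h2, mul_pow]
      have h3 : (2 : ℝ≥0∞) ^ 2 = 4 := by norm_num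
      rw [h3]
      ring
    rw [h1, ENNReal.mul_rpow_of_nonneg _ _ (by norm_num : (0:ℝ) ≤ 1 / 9),
      ENNReal.mul_rpow_of_nonneg _ _ (by norm_num : (0:ℝ) ≤ 1 / 9), ← ENNReal.rpow_mul]
  have e4 : W ^ (11 / 3 - ε) = W ^ (2 / 3 : ℝ) * W ^ ((3 - ε) * (4 / 9)) * W ^ ((3 - ε) * (2 / 9)) *
      (W ^ ((3 - ε) * (1 / 9)) * W ^ ((3 - ε) * (1 / 9)) * W ^ ((3 - ε) * (1 / 9))) := by
    simp only [← ENNReal.rpow_add _ _ h0 ht]
    congr 1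
    ring
  have e5 : ∀ j : Fin 3, (N j) ^ (1 / 3 : ℝ) = (N j) ^ (2 / 9 : ℝ) * (N j) ^ (1 / 9 : ℝ) := by
    intro j
    rw [← ENNReal.rpow_add_of_nonneg _ _ (by norm_num) (by norm_num)]
    norm_num
  have e6 : (((2 : ℝ≥0) ^ (2 / 3 : ℝ) * C₁ ^ (4 / 9 : ℝ) * C₁ ^ (2 / 9 : ℝ) * ((C₂ * 4 * B) ^ (1 / 9 : ℝ)) ^ 3 : ℝ≥0) : ℝ≥0∞) =
      (2 : ℝ≥0∞) ^ (2 / 3 : ℝ) * (C₁ : ℝ≥0∞) ^ (4 / 9 : ℝ) * (C₁ : ℝ≥0∞) ^ (2 / 9 : ℝ) *
        (((C₂ : ℝ≥0∞) * 4 * B) ^ (1 / 9 : ℝ)) ^ 3 := by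
    push_cast [ENNReal.coe_rpow_of_nonneg _ (by norm_num : (0:ℝ) ≤ 2 / 3), ENNReal.coe_rpow_of_nonneg _ (by norm_num : (0:ℝ) ≤ 4 / 9),
      ENNReal.coe_rpow_of_nonneg _ (by norm_num : (0:ℝ) ≤ 2 / 9), ENNReal.coe_rpow_of_nonneg _ (by norm_num : (0:ℝ) ≤ 1 / 9)]
    rfl
  rw [e1, e2, Finset.prod_congr rfl fun j _ => e3 j, e4, e6]
  simp only [Fin.prod_univ_three, e5]
  refine le_of_eq ?_
  ring

/-- Model estimate for clusters.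
PROOF. Fubini as in `modelC`, `fibD` for every `x ∈ closedBall 0 1`, `hoelder5` with `P j = cnt j (bc j) (vc j) w'`, `D j = DD ..`, `Q j = ofReal (2w) * cnt j (b j) (v j) w`
(measure `volume.restrict (closedBall 0 1)`). First factor: `∏ (Q j)^(1/2) = ofReal (2w)^(3/2) ∏ cnt^(1/2)`, `kak3` for the tubes; second: `kak3` for the cluster tubes
(width `w'`); third: `int_DD`. Enlarge `w` to `w'` (`w ≤ w'`, exponents `3/2`, `3 - ε`, `1 - ε ≥ 0`), then `pow_MD`. -/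
theorem modelD (ε B : ℝ) (hε : 0 < ε) (hε1 : ε ≤ 1) (hB : 0 ≤ B) :
    ∃ η : ℝ, 0 < η ∧ η ≤ 1 ∧ ∃ C : ℝ≥0, ∀ (ι κ : Fin 3 → Type) [∀ j, Fintype (ι j)] [∀ j, Fintype (κ j)]
      (b v : ∀ j, ι j → Fin 3 → ℝ) (h u : ∀ j, ι j → ℝ) (cl : ∀ j, ι j → κ j) (bc vc : ∀ j, κ j → Fin 3 → ℝ)
      (w w' : ℝ), 0 < w → w ≤ 1 → w ≤ w' → (∀ j i k, k ≠ j → |v j i k| ≤ η) → (∀ j g k, k ≠ j → |vc j g k| ≤ η) →
      (∀ j i, |u j i| ≤ 1) → (∀ j g, Dens (clu (cl j) g) (u j) w B) →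
      (∀ j i, ∀ x ∈ closedBall (0 : Fin 3 → ℝ) 1, x ∈ T3 j (b j i) (v j i) w →
        x ∈ T3 j (bc j (cl j i)) (vc j (cl j i)) w') →
      ∫⁻ p in {p : X | p.1 ∈ closedBall (0 : Fin 3 → ℝ) 1},
          ∏ j, (cnt4 j (b j) (v j) (h j) (u j) w p) ^ (4 / 9 : ℝ)
        ≤ C * ENNReal.ofReal w' ^ (11 / 3 - ε) *
          ∏ j, (Fintype.card (ι j) : ℝ≥0∞) ^ (1 / 3 : ℝ) * (Fintype.card (κ j) : ℝ≥0∞) ^ (1 / 9 : ℝ) := by
  obtain ⟨η, hη0, hη1, C₁, hkak⟩ := kak3 ε hε (by linarith)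
  obtain ⟨C₂, hint⟩ := int_DD ε hε
  obtain ⟨C, hpow⟩ := pow_MD ε C₁ C₂ B.toNNReal
  refine ⟨η, hη0, hη1, C, ?_⟩
  intro ι κ _ _ b v h u cl bc vc w w' hw hw1 hww hv hvc hu hdens hcl
  have hw' : 0 < w' := hw.trans_le hww
  set W : ℝ≥0∞ := ENNReal.ofReal w' with hW
  have hWle : ENNReal.ofReal w ≤ W := ENNReal.ofReal_le_ofReal hww
  have h2w : ∀ r : ℝ, ENNReal.ofReal (2 * r) = 2 * ENNReal.ofReal r := by
    intro r
    rw [ENNReal.ofReal_mul (by norm_num)]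
    norm_num
  -- Fubini
  have hset : {p : X | p.1 ∈ closedBall (0 : Fin 3 → ℝ) 1} = closedBall (0 : Fin 3 → ℝ) 1 ×ˢ (Set.univ : Set ℝ) := by
    ext p
    simp
  have hmeas : Measurable fun p : X => ∏ j, (cnt4 j (b j) (v j) (h j) (u j) w p) ^ (4 / 9 : ℝ) := by
    refine Finset.measurable_prod _ fun j _ => ?_
    exact (measurable_cnt4 j (b j) (v j) (h j) (u j) w).pow_const _
  have hfub : ∫⁻ p in {p : X | p.1 ∈ closedBall (0 : Fin 3 → ℝ) 1},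
      ∏ j, (cnt4 j (b j) (v j) (h j) (u j) w p) ^ (4 / 9 : ℝ) =
      ∫⁻ x in closedBall (0 : Fin 3 → ℝ) 1, ∫⁻ y : ℝ, ∏ j, (cnt4 j (b j) (v j) (h j) (u j) w (x, y)) ^ (4 / 9 : ℝ) := by
    rw [hset, Measure.volume_eq_prod, ← Measure.prod_restrict, Measure.restrict_univ,
      lintegral_prod _ hmeas.aemeasurable]
  rw [hfub]
  have hstep1 : ∫⁻ x in closedBall (0 : Fin 3 → ℝ) 1, ∫⁻ y : ℝ, ∏ j, (cnt4 j (b j) (v j) (h j) (u j) w (x, y)) ^ (4 / 9 : ℝ)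
      ≤ ∫⁻ x in closedBall (0 : Fin 3 → ℝ) 1,
        ∏ j, (cnt j (bc j) (vc j) w' x * DD j (cl j) (bc j) (vc j) (h j) (u j) w w' x) ^ (1 / 9 : ℝ) *
          (ENNReal.ofReal (2 * w) * cnt j (b j) (v j) w x) ^ (2 / 9 : ℝ) := by
    refine setLIntegral_mono' isClosed_closedBall.measurableSet fun x hx => ?_
    exact fibD b v h u cl bc vc hw w' x fun j i => hcl j i x hx
  refine hstep1.trans ?_
  refine (hoelder5 (volume.restrict (closedBall (0 : Fin 3 → ℝ) 1)) (fun j => cnt j (bc j) (vc j) w')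
    (fun j => DD j (cl j) (bc j) (vc j) (h j) (u j) w w') (fun j x => ENNReal.ofReal (2 * w) * cnt j (b j) (v j) w x)
    (fun j => measurable_cnt _ _ _ _) (fun j => measurable_DD _ _ _ _ _ _ _ _)
    (fun j => (measurable_cnt _ _ _ _).const_mul _)).trans ?_
  refine le_trans ?_ (hpow W (fun j => (Fintype.card (ι j) : ℝ≥0∞)) (fun j => (Fintype.card (κ j) : ℝ≥0∞)) ?_ ?_)
  · refine mul_le_mul' (mul_le_mul' (ENNReal.rpow_le_rpow ?_ (by norm_num)) (ENNReal.rpow_le_rpow ?_ (by norm_num)))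
      (Finset.prod_le_prod' fun j _ => ENNReal.rpow_le_rpow ?_ (by norm_num))
    · have h1 : ∀ x, ∏ j, (ENNReal.ofReal (2 * w) * cnt j (b j) (v j) w x) ^ (1 / 2 : ℝ) =
          ENNReal.ofReal (2 * w) ^ (3 / 2 : ℝ) * ∏ j, (cnt j (b j) (v j) w x) ^ (1 / 2 : ℝ) := by
        intro x
        have h2 : ∀ j : Fin 3, (ENNReal.ofReal (2 * w) * cnt j (b j) (v j) w x) ^ (1 / 2 : ℝ) =
            ENNReal.ofReal (2 * w) ^ (1 / 2 : ℝ) * (cnt j (b j) (v j) w x) ^ (1 / 2 : ℝ) := fun j =>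
          ENNReal.mul_rpow_of_nonneg _ _ (by norm_num)
        rw [Finset.prod_congr rfl fun j _ => h2 j, Finset.prod_mul_distrib, Finset.prod_const, Finset.card_univ,
          Fintype.card_fin, ← ENNReal.rpow_natCast, ← ENNReal.rpow_mul]
        norm_num
      have h3 := hkak ι b v w hw hv
      calc ∫⁻ x in closedBall (0 : Fin 3 → ℝ) 1, ∏ j, (ENNReal.ofReal (2 * w) * cnt j (b j) (v j) w x) ^ (1 / 2 : ℝ)
          = ENNReal.ofReal (2 * w) ^ (3 / 2 : ℝ) *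
            ∫⁻ x in closedBall (0 : Fin 3 → ℝ) 1, ∏ j, (cnt j (b j) (v j) w x) ^ (1 / 2 : ℝ) := by
            rw [← lintegral_const_mul _ (Finset.measurable_prod _ fun j _ => (measurable_cnt _ _ _ _).pow_const _)]
            exact lintegral_congr h1
        _ ≤ (2 * W) ^ (3 / 2 : ℝ) * (C₁ * W ^ (3 - ε) * ∏ j, (Fintype.card (ι j) : ℝ≥0∞) ^ (1 / 2 : ℝ)) := by
            refine mul_le_mul' (ENNReal.rpow_le_rpow ?_ (by norm_num)) (h3.trans ?_)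
            · rw [h2w]
              exact mul_le_mul' le_rfl hWle
            · exact mul_le_mul' (mul_le_mul' le_rfl (ENNReal.rpow_le_rpow hWle (by linarith))) le_rfl
    · exact hkak κ bc vc w' hw' hvc
    · refine (hint (ι j) (κ j) j (cl j) (bc j) (vc j) (h j) (u j) w w' B hw hw1 hw' hB (hu j) (hdens j)).trans ?_
      rw [h2w]
      exact mul_le_mul' (mul_le_mul' le_rfl (ENNReal.rpow_le_rpow hWle (by linarith))) le_rfl
  · rw [hW]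
    simpa using hw'
  · exact ENNReal.ofReal_ne_top

end Pool.Agent.Lib.MP_291c47_an.TK
end

section

/-!
# TASK TK CD: estimate for one triple of caps, exponent `4/9`
-/

open scoped ENNReal NNReal BigOperators Classical
open MeasureTheory Metric

namespace Pool.Agent.Lib.MP_291c47_an.TK

private theorem CD_mem_clu {ι κ : Type} [Fintype ι] (cl : ι → κ) (g : κ) (i : ι) (h : i ∈ clu cl g) :
    cl i = g := by
  unfold clu at h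
  exact (Finset.mem_filter.mp h).2

/-- The model estimate in one cube.
PROOF. `B = 36 Λ (144ΛA+1)^2`, `η`, `C₁` from `modelD ε B`, `δ₀ = η/(32 Λ A)` (so `2Λδ ≤ 1`, `ΛAδ ≤ η/32`). From `InPlanes` get `a j g, u j g` (`g : Fin (m j)`) and a choice `cl j i`.
Apply `modelD` to the subtypes `{i // i ∈ meets Ψ (T j) z}`, `κ j = Fin (m j)`, `w = 2Λδ`, `w' = 18 Λ A δ`, cluster tubes `bc j g = bP Ψ j z (a j g) (u j g)`, `vc j g = vP Ψ j (u j g)` if the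
cluster `g` is nonempty (`∃ i : ι j, cl j i = g`), and `vc j g = 0` otherwise. Slopes: `slopes` (`η/2 ≤ η ≤ 1`), `slope_plane`; density: `dens_plane` for the subtype family (`Separated` restricts);
containment: `contain_plane` (`i ∈ meets` gives `hz`). `Fintype.card_coe`, `Fintype.card_fin`. -/
theorem cubeD (ε Λ A : ℝ) (hε : 0 < ε) (hε1 : ε ≤ 1) (hΛ : 1 ≤ Λ) (hA : 1 ≤ A) :
    ∃ η : ℝ, 0 < η ∧ η ≤ 1 ∧ ∃ δ₀ : ℝ, 0 < δ₀ ∧ ∃ C : ℝ≥0, ∀ (δ : ℝ), 0 < δ → δ ≤ δ₀ →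
      ∀ (e : Fin 3 → E4) (ω : E4) (Ψ : E4 →ₗ[ℝ] X), Coord e ω Λ Ψ →
      ∀ (ι : Fin 3 → Type) [∀ j, Fintype (ι j)] (T : ∀ j, ι j → Tube δ) (m : Fin 3 → ℕ),
      (∀ j i, Λ * ‖(T j i).dir - e j‖ ≤ η / 4) → (∀ j, Separated (T j)) → (∀ j, InPlanes A ω (m j) (T j)) →
      ∀ z : X, modelInt Λ (4 / 9) Ψ T z
        ≤ C * ENNReal.ofReal δ ^ (11 / 3 - ε) *
          ∏ j, ((meets Ψ (T j) z).card : ℝ≥0∞) ^ (1 / 3 : ℝ) * (m j : ℝ≥0∞) ^ (1 / 9 : ℝ) := by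
  have hΛ0 : 0 < Λ := by linarith
  have hA0 : 0 < A := by linarith
  have hB : 0 ≤ 36 * Λ * (144 * Λ * A + 1) ^ 2 := by positivity
  obtain ⟨η, hη0, hη1, C₁, hmod⟩ := modelD ε (36 * Λ * (144 * Λ * A + 1) ^ 2) hε hε1 hB
  refine ⟨η, hη0, hη1, η / (32 * (Λ * A)), by positivity,
    C₁ * (Real.toNNReal (18 * (Λ * A))) ^ (11 / 3 - ε), ?_⟩
  intro δ hδ hδ0 e ω Ψ hco ι _ T m hT hsep hpl z
  have hE : 0 ≤ Λ * A * δ := by positivity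
  have hE' : Λ * A * δ ≤ η / 32 := by
    rw [le_div_iff₀ (by positivity)] at hδ0
    linarith
  choose a u hau using hpl
  choose cl hcl using hau
  have hw1 : 2 * Λ * δ ≤ 1 := by
    have h1 : Λ * δ ≤ Λ * A * δ := by
      have : Λ * δ * 1 ≤ Λ * δ * A := mul_le_mul_of_nonneg_left hA (by positivity)
      linarith
    linarith
  have hww : 2 * Λ * δ ≤ 18 * (Λ * A * δ) := by
    have h1 : Λ * δ ≤ Λ * A * δ := by
      have : Λ * δ * 1 ≤ Λ * δ * A := mul_le_mul_of_nonneg_left hA (by positivity)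
      linarith
    linarith
  have key := hmod (fun j => {i // i ∈ meets Ψ (T j) z}) (fun j => Fin (m j))
    (fun j i => pb Ψ j z (T j i)) (fun j i => sl Ψ j (T j i)) (fun j i => ph Ψ j z (T j i))
    (fun j i => su Ψ j (T j i)) (fun j i => cl j i.1)
    (fun j g => bP Ψ j z (a j g) (u j g))
    (fun j g => if ∃ i : ι j, cl j i = g then vP Ψ j (u j g) else 0)
    (2 * Λ * δ) (18 * (Λ * A * δ)) (by positivity) hw1 hww ?_ ?_ ?_ ?_ ?_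
  · unfold modelInt
    refine key.trans (le_of_eq ?_)
    have e1 : ENNReal.ofReal (18 * (Λ * A * δ)) ^ (11 / 3 - ε) =
        ((Real.toNNReal (18 * (Λ * A))) ^ (11 / 3 - ε) : ℝ≥0) * ENNReal.ofReal δ ^ (11 / 3 - ε) := by
      have e2 : 18 * (Λ * A * δ) = 18 * (Λ * A) * δ := by ring
      rw [e2, ENNReal.ofReal_mul (by positivity), ENNReal.mul_rpow_of_nonneg _ _ (by linarith)]
      congr 1
      rw [ENNReal.coe_rpow_of_nonneg _ (by linarith)]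
      rfl
    rw [e1, ENNReal.coe_mul]
    simp only [Fintype.card_coe, Fintype.card_fin]
    ring
  · intro j i k hk
    have h1 := (slopes hco hη1 j (T j i) (hT j i)).1 k hk
    linarith
  · intro j g k hk
    split_ifs with hg
    · obtain ⟨i, rfl⟩ := hg
      exact (slope_plane hδ.le hco hη0 hη1 hE hE' j (T j i) (hT j i) (a j (cl j i)) (u j (cl j i)) (hcl j i) k hk).1
    · simp only [Pi.zero_apply, abs_zero]
      exact hη0.le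
  · intro j i
    have h1 := (slopes hco hη1 j (T j i) (hT j i)).2
    linarith
  · intro j g
    refine dens_plane hδ hco hΛ hA hη0 hη1 hE' j (fun i : {i // i ∈ meets Ψ (T j) z} => T j i.1) ?_
      (fun i => hT j i.1) (a j g) (u j g) _ ?_
    · intro i i' hii
      exact hsep j i.1 i'.1 (fun h => hii (Subtype.ext h))
    · intro i hi
      have h1 : cl j i.1 = g := CD_mem_clu _ g i hi
      rw [← h1]
      exact hcl j i.1
  · intro j i x hx hx'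
    have h1 : (if ∃ i' : ι j, cl j i' = cl j i.1 then vP Ψ j (u j (cl j i.1)) else 0) =
        vP Ψ j (u j (cl j i.1)) := if_pos ⟨i.1, rfl⟩
    rw [h1]
    refine contain_plane hδ.le hco hΛ0.le hA hη0 hη1 hE' j (T j i.1) (hT j i.1) z (a j (cl j i.1))
      (u j (cl j i.1)) (hcl j i.1) ?_ x hx hx'
    have h2 := i.2
    unfold meets at h2
    exact (Finset.mem_filter.mp h2).2

/-- PROOF. `reduce` with `r = 4/9`, `cubeD`, `meets_le_nb`, `int_nb_third`. -/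
theorem capD (ε Λ A : ℝ) (hε : 0 < ε) (hε1 : ε ≤ 1) (hΛ : 1 ≤ Λ) (hA : 1 ≤ A) :
    ∃ η : ℝ, 0 < η ∧ η ≤ 1 ∧ ∃ δ₀ : ℝ, 0 < δ₀ ∧ ∃ C : ℝ≥0, ∀ (δ : ℝ), 0 < δ → δ ≤ δ₀ → δ < 1 →
      ∀ (e : Fin 3 → E4) (ω : E4) (Ψ : E4 →ₗ[ℝ] X), Coord e ω Λ Ψ →
      ∀ (ι : Fin 3 → Type) [∀ j, Fintype (ι j)] (T : ∀ j, ι j → Tube δ) (m : Fin 3 → ℕ),
      (∀ j i, Λ * ‖(T j i).dir - e j‖ ≤ η / 4) → (∀ j, Separated (T j)) → (∀ j, InPlanes A ω (m j) (T j)) →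
      ∫⁻ x, ∏ j, (cntE (T j) x) ^ (4 / 9 : ℝ)
        ≤ C * ENNReal.ofReal δ ^ (11 / 3 - ε) *
          ∏ j, (Fintype.card (ι j) : ℝ≥0∞) ^ (1 / 3 : ℝ) * (m j : ℝ≥0∞) ^ (1 / 9 : ℝ) := by
  obtain ⟨η, hη0, hη1, δ₀, hδ₀, C₁, hcube⟩ := cubeD ε Λ A hε hε1 hΛ hA
  obtain ⟨K, hK⟩ := reduce
  refine ⟨η, hη0, hη1, δ₀, hδ₀, K * C₁ * (Real.toNNReal (3 * Λ + 1)) ^ 4, ?_⟩
  intro δ hδ hδle hδ1 e ω Ψ hco ι _ T m hT hsep hpl
  have h1 := hK δ hδ.le e ω Λ η (4 / 9) Ψ hco hη1 (by norm_num) ι T hT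
  refine h1.trans ?_
  have h2 : ∀ z, modelInt Λ (4 / 9) Ψ T z ≤
      (C₁ * ENNReal.ofReal δ ^ (11 / 3 - ε) * ∏ j, (m j : ℝ≥0∞) ^ (1 / 9 : ℝ)) *
        ∏ j, (nb Λ Ψ (T j) z) ^ (1 / 3 : ℝ) := by
    intro z
    refine (hcube δ hδ hδle e ω Ψ hco ι T m hT hsep hpl z).trans ?_
    rw [Finset.prod_mul_distrib]
    calc (C₁ : ℝ≥0∞) * ENNReal.ofReal δ ^ (11 / 3 - ε) *
          ((∏ j, ((meets Ψ (T j) z).card : ℝ≥0∞) ^ (1 / 3 : ℝ)) * ∏ j, (m j : ℝ≥0∞) ^ (1 / 9 : ℝ))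
        ≤ (C₁ : ℝ≥0∞) * ENNReal.ofReal δ ^ (11 / 3 - ε) *
          ((∏ j, (nb Λ Ψ (T j) z) ^ (1 / 3 : ℝ)) * ∏ j, (m j : ℝ≥0∞) ^ (1 / 9 : ℝ)) := by
          refine mul_le_mul' le_rfl (mul_le_mul' (Finset.prod_le_prod' fun j _ => ?_) le_rfl)
          exact ENNReal.rpow_le_rpow (meets_le_nb hδ.le hδ1.le hco (T j) z) (by norm_num)
      _ = _ := by ring
  have hmeas : Measurable fun z => ∏ j, (nb Λ Ψ (T j) z) ^ (1 / 3 : ℝ) :=
    Finset.measurable_fun_prod _ fun j _ => (measurable_nb Λ Ψ (T j)).pow_const _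
  calc (K : ℝ≥0∞) * ∫⁻ z, modelInt Λ (4 / 9) Ψ T z
      ≤ K * ∫⁻ z, (C₁ * ENNReal.ofReal δ ^ (11 / 3 - ε) * ∏ j, (m j : ℝ≥0∞) ^ (1 / 9 : ℝ)) *
        ∏ j, (nb Λ Ψ (T j) z) ^ (1 / 3 : ℝ) := mul_le_mul' le_rfl (lintegral_mono h2)
    _ = K * ((C₁ * ENNReal.ofReal δ ^ (11 / 3 - ε) * ∏ j, (m j : ℝ≥0∞) ^ (1 / 9 : ℝ)) *
        ∫⁻ z, ∏ j, (nb Λ Ψ (T j) z) ^ (1 / 3 : ℝ)) := by rw [lintegral_const_mul _ hmeas]
    _ ≤ K * ((C₁ * ENNReal.ofReal δ ^ (11 / 3 - ε) * ∏ j, (m j : ℝ≥0∞) ^ (1 / 9 : ℝ)) *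
        (ENNReal.ofReal (3 * Λ + 1) ^ 4 * ∏ j, (Fintype.card (ι j) : ℝ≥0∞) ^ (1 / 3 : ℝ))) :=
        mul_le_mul' le_rfl (mul_le_mul' le_rfl (int_nb_third (by linarith) Ψ T))
    _ = _ := by
        rw [Finset.prod_mul_distrib]
        push_cast
        have e1 : ((Real.toNNReal (3 * Λ + 1) : ℝ≥0) : ℝ≥0∞) = ENNReal.ofReal (3 * Λ + 1) := rfl
        rw [e1]
        ring

end Pool.Agent.Lib.MP_291c47_an.TK
end

section

/-!
# TASK TK GL: estimates for transversal families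
-/

open scoped ENNReal NNReal BigOperators Classical
open MeasureTheory Metric

namespace Pool.Agent.Lib.MP_291c47_an.TK

private theorem GL_main (r : ℝ) (hr : 0 < r) (hr1 : r ≤ 1) (c : ℝ) (hc : 0 < c) (η : ℝ) (hη : 0 < η) :
    ∃ M : ℕ, ∀ (δ : ℝ) (ω : E4), ‖ω‖ = 1 →
      ∀ (ι : Fin 3 → Type) [∀ j, Fintype (ι j)] (T : ∀ j, ι j → Tube δ), Transversal c ω T →
      ∀ B : ℝ≥0∞,
      (∀ (ι' : Fin 3 → Type) [∀ j, Fintype (ι' j)] (f : ∀ j, ι' j → ι j),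
        (∀ j, Function.Injective (f j)) → ∀ (e : Fin 3 → E4) (Ψ : E4 →ₗ[ℝ] X),
        Coord e ω (24 / c + 1) Ψ →
        (∀ j i, (24 / c + 1) * ‖(T j (f j i)).dir - e j‖ ≤ η / 4) →
        ∫⁻ x, ∏ j, (cntE (fun i : ι' j => T j (f j i)) x) ^ r ≤ B) →
      ∫⁻ x, ∏ j, (cntE (T j) x) ^ r ≤ (M : ℝ≥0∞) ^ 3 * B := by
  have hΛ : 0 < 24 / c + 1 := by positivity
  have hρ : 0 < η / (4 * (24 / c + 1)) := by positivity
  obtain ⟨M, hM⟩ := caps (η / (4 * (24 / c + 1))) hρ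
  refine ⟨M, fun δ ω hω ι _ T hT B hB => ?_⟩
  have h1 : ∀ j, ∃ col : ι j → Fin M, ∀ i i', col i = col i' →
      ‖(T j i).dir - (T j i').dir‖ ≤ η / (4 * (24 / c + 1)) := fun j => hM δ (ι j) (T j)
  choose col hcol using h1
  have h2 : ∀ κ : Fin 3 → Fin M, ∫⁻ x, ∏ j,
      (cntE (fun i : {i // col j i = κ j} => T j i) x) ^ r ≤ B := by
    intro κ
    by_cases hne : ∀ j, Nonempty {i // col j i = κ j}
    · have i0 : ∀ j, {i // col j i = κ j} := fun j => Classical.choice (hne j)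
      obtain ⟨Ψ, hΨ⟩ := exists_coord c hc (fun j => (T j (i0 j).1).dir) ω
        (fun k => norm_dir _) hω (hT (i0 0).1 (i0 1).1 (i0 2).1)
      refine hB (fun j => {i // col j i = κ j}) (fun j i => i.1)
        (fun j => Subtype.val_injective) _ Ψ hΨ ?_
      intro j i
      have h3 := hcol j i.1 (i0 j).1 (i.2.trans (i0 j).2.symm)
      have h4 := mul_le_mul_of_nonneg_left h3 hΛ.le
      refine h4.trans (le_of_eq ?_)
      have h5 : (24 / c + 1) ≠ 0 := hΛ.ne'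
      generalize 24 / c + 1 = Λ at h5
      field_simp
    · push Not at hne
      obtain ⟨j, hj⟩ := hne
      have h3 : ∀ x, ∏ j, (cntE (fun i : {i // col j i = κ j} => T j i) x) ^ r = 0 := by
        intro x
        refine Finset.prod_eq_zero (Finset.mem_univ j) ?_
        have h4 : cntE (fun i : {i // col j i = κ j} => T j i) x = 0 := by
          unfold cntE
          haveI : IsEmpty {i // col j i = κ j} := by
            simpa using hj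
          exact Finset.sum_of_isEmpty _
        rw [h4, ENNReal.zero_rpow_of_pos hr]
      simp only [h3, lintegral_zero, zero_le]
  calc ∫⁻ x, ∏ j, (cntE (T j) x) ^ r
      ≤ ∫⁻ x, ∑ κ : Fin 3 → Fin M, ∏ j, (cntE (fun i : {i // col j i = κ j} => T j i) x) ^ r :=
        lintegral_mono fun x => split T hr hr1 col x
    _ = ∑ κ : Fin 3 → Fin M, ∫⁻ x, ∏ j, (cntE (fun i : {i // col j i = κ j} => T j i) x) ^ r := by
        refine lintegral_finsetSum _ fun κ _ => ?_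
        exact Finset.measurable_prod _ fun j _ => (measurable_cntE _).pow_const r
    _ ≤ ∑ _κ : Fin 3 → Fin M, B := Finset.sum_le_sum fun κ _ => h2 κ
    _ = (M : ℝ≥0∞) ^ 3 * B := by
        rw [Finset.sum_const, Finset.card_univ, Fintype.card_fun, Fintype.card_fin,
          Fintype.card_fin, nsmul_eq_mul]
        push_cast
        rfl

/-- Exponent `1/2`.
PROOF. `Λ = 24/c + 1`, `η, C₁` from `capC`, `ρ = η/(4Λ)`, `M` from `caps ρ`, colours `col j` for `T j`. By `split` (`lintegral_mono`, `lintegral_finset_sum` with measurability `measurable_cntE`) the integral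
is at most the sum over `κ : Fin 3 → Fin M` of the integrals for the subfamilies. If for some `j` the subtype `{i // col j i = κ j}` is empty then `cntE = 0` and the integrand is `0`.
Otherwise choose `i j` in each, `e j = (T j (i j)).dir` (unit: `norm_dir`); `Transversal` gives `c ≤ |det4 ![e 0, e 1, e 2, ω]|`, `exists_coord` gives `Ψ` with `Coord e ω Λ Ψ`, and
`Λ ‖dir - e j‖ ≤ Λ ρ = η/4`. `capC` and `card (subtype) ≤ card ι`. `C = M^3 C₁`. -/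
theorem globC (ε c : ℝ) (hε : 0 < ε) (hε1 : ε ≤ 1) (hc : 0 < c) :
    ∃ C : ℝ≥0, ∀ (δ : ℝ), 0 < δ → δ < 1 → ∀ (ω : E4), ‖ω‖ = 1 →
      ∀ (ι : Fin 3 → Type) [∀ j, Fintype (ι j)] (T : ∀ j, ι j → Tube δ), Transversal c ω T →
      ∫⁻ x, ∏ j, (cntE (T j) x) ^ (1 / 2 : ℝ)
        ≤ C * ENNReal.ofReal δ ^ (4 - ε) * ∏ j, (Fintype.card (ι j) : ℝ≥0∞) ^ (1 / 2 : ℝ) := by
  have hΛ : 1 ≤ 24 / c + 1 := by
    have : 0 < 24 / c := by positivity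
    linarith
  obtain ⟨η, hη, -, C₁, hC⟩ := capC ε (24 / c + 1) hε hε1 hΛ
  obtain ⟨M, hM⟩ := GL_main (1 / 2) (by norm_num) (by norm_num) c hc η hη
  refine ⟨(M : ℝ≥0) ^ 3 * C₁, fun δ hδ hδ1 ω hω ι _ T hT => ?_⟩
  have h1 := hM δ ω hω ι T hT
    (C₁ * ENNReal.ofReal δ ^ (4 - ε) * ∏ j, (Fintype.card (ι j) : ℝ≥0∞) ^ (1 / 2 : ℝ)) (by
      intro ι' _ f hf e Ψ hΨ hd
      refine (hC δ hδ hδ1 e ω Ψ hΨ ι' (fun j i => T j (f j i)) hd).trans ?_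
      refine mul_le_mul_right (Finset.prod_le_prod' fun j _ => ?_) _
      refine ENNReal.rpow_le_rpow ?_ (by norm_num)
      exact_mod_cast Fintype.card_le_of_injective (f j) (hf j))
  refine h1.trans (le_of_eq ?_)
  push_cast
  ring

/-- Exponent `4/9`.
PROOF. The same with `capD`; `Separated` and `InPlanes` are inherited by subfamilies (same `m j`). -/
theorem globD (ε c A : ℝ) (hε : 0 < ε) (hε1 : ε ≤ 1) (hc : 0 < c) (hA : 1 ≤ A) :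
    ∃ δ₀ : ℝ, 0 < δ₀ ∧ ∃ C : ℝ≥0, ∀ (δ : ℝ), 0 < δ → δ ≤ δ₀ → δ < 1 → ∀ (ω : E4), ‖ω‖ = 1 →
      ∀ (ι : Fin 3 → Type) [∀ j, Fintype (ι j)] (T : ∀ j, ι j → Tube δ) (m : Fin 3 → ℕ), Transversal c ω T →
      (∀ j, Separated (T j)) → (∀ j, InPlanes A ω (m j) (T j)) →
      ∫⁻ x, ∏ j, (cntE (T j) x) ^ (4 / 9 : ℝ)
        ≤ C * ENNReal.ofReal δ ^ (11 / 3 - ε) *
          ∏ j, (Fintype.card (ι j) : ℝ≥0∞) ^ (1 / 3 : ℝ) * (m j : ℝ≥0∞) ^ (1 / 9 : ℝ) := by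
  have hΛ : 1 ≤ 24 / c + 1 := by
    have : 0 < 24 / c := by positivity
    linarith
  obtain ⟨η, hη, -, δ₀, hδ₀, C₁, hC⟩ := capD ε (24 / c + 1) A hε hε1 hΛ hA
  obtain ⟨M, hM⟩ := GL_main (4 / 9) (by norm_num) (by norm_num) c hc η hη
  refine ⟨δ₀, hδ₀, (M : ℝ≥0) ^ 3 * C₁, fun δ hδ hδ0 hδ1 ω hω ι _ T m hT hS hP => ?_⟩
  have h1 := hM δ ω hω ι T hT
    (C₁ * ENNReal.ofReal δ ^ (11 / 3 - ε) *
      ∏ j, (Fintype.card (ι j) : ℝ≥0∞) ^ (1 / 3 : ℝ) * (m j : ℝ≥0∞) ^ (1 / 9 : ℝ)) (by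
      intro ι' _ f hf e Ψ hΨ hd
      refine (hC δ hδ hδ0 hδ1 e ω Ψ hΨ ι' (fun j i => T j (f j i)) m hd ?_ ?_).trans ?_
      · intro j i i' hii
        exact hS j _ _ fun h => hii (hf j h)
      · intro j
        obtain ⟨a, u, h⟩ := hP j
        exact ⟨a, u, fun i => h (f j i)⟩
      refine mul_le_mul_right (Finset.prod_le_prod' fun j _ => ?_) _
      refine mul_le_mul_left (ENNReal.rpow_le_rpow ?_ (by norm_num)) _
      exact_mod_cast Fintype.card_le_of_injective (f j) (hf j))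
  refine h1.trans (le_of_eq ?_)
  push_cast
  ring

end Pool.Agent.Lib.MP_291c47_an.TK
end
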